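import Pool.Agent.H73.Cub.Theta

/-!
Two facts on the angles `th x = arg (x + ω)`.
-/

set_option autoImplicit false

namespace Pool.Agent.H61.Rot

open Finset Pool.Agent.H73.Cub

theorem th_approx {x : ℝ} (hx : 1 ≤ x) : |th x - Real.sqrt 3 / 2 / x| ≤ 2 / x ^ 2 := by
  have hlow := th_lower hx
  have h1 : Real.tan (th x) = Real.sqrt 3 / 2 / (x - 1 / 2) := by
    rw [th, Complex.tan_arg, add_om_im, add_om_re]
  have h2 : |th x| < Real.pi / 2 := by
    rw [th, Complex.abs_arg_lt_pi_div_two_iff]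
    left; rw [add_om_re]; linarith
  have h3 := Real.le_tan (th_pos x).le (lt_of_le_of_lt (le_abs_self _) h2)
  rw [h1] at h3
  have h4 : Real.sqrt 3 ≤ 2 := by
    rw [show (2 : ℝ) = Real.sqrt 4 by rw [show (4 : ℝ) = 2 ^ 2 by norm_num]; simp]
    exact Real.sqrt_le_sqrt (by norm_num)
  have h5 := sqrt3_pos
  have hx0 : 0 < x := by linarith
  rw [abs_of_nonneg (by linarith)]
  have h6 : Real.sqrt 3 / 2 / (x - 1 / 2) - Real.sqrt 3 / 2 / x ≤ 2 / x ^ 2 := by
    have hne : x - 1 / 2 ≠ 0 := by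
      have : 0 < x - 1 / 2 := by linarith
      exact this.ne'
    have e : Real.sqrt 3 / 2 / (x - 1 / 2) - Real.sqrt 3 / 2 / x
        = Real.sqrt 3 / 4 / (x * (x - 1 / 2)) := by
      rw [div_sub_div _ _ hne hx0.ne', div_eq_div_iff (mul_ne_zero hne hx0.ne')
        (mul_ne_zero hx0.ne' hne)]
      ring
    rw [e, div_le_div_iff₀ (by apply mul_pos hx0; linarith) (by positivity)]
    nlinarith [mul_pos hx0 h5, mul_pos hx0 hx0, mul_nonneg hx0.le (by linarith : (0:ℝ) ≤ x - 1),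
      mul_nonneg (mul_pos hx0 hx0).le (by linarith : (0:ℝ) ≤ 2 - Real.sqrt 3)]
  linarith

theorem Angle_arg_add (n s : ℕ) (hn1 : 1 ≤ n) :
    th ((n + s : ℕ) : ℝ) = th (n : ℝ) +
      (Complex.log (1 + (s : ℂ) / (((n : ℝ) : ℂ) + om))).im := by
  set z : ℂ := ((n : ℝ) : ℂ) + om with hz
  have hz0 : z ≠ 0 := add_om_ne _
  have hn : (1 : ℝ) ≤ n := by exact_mod_cast hn1
  have hs : (0 : ℝ) ≤ s := Nat.cast_nonneg s
  set y : ℂ := (((n + s : ℕ) : ℝ) : ℂ) + om with hy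
  have hy0 : y ≠ 0 := add_om_ne _
  have e1 : 1 + (s : ℂ) / z = y / z := by
    rw [eq_div_iff hz0, add_mul, one_mul, div_mul_cancel₀ _ hz0, hz, hy]
    push_cast
    ring
  rw [e1, Complex.log_im]
  have a1 : |z.arg| < Real.pi / 2 := by
    rw [Complex.abs_arg_lt_pi_div_two_iff]
    left; rw [hz, add_om_re]; linarith
  have a2 : |y.arg| < Real.pi / 2 := by
    rw [Complex.abs_arg_lt_pi_div_two_iff]
    left; rw [hy, add_om_re]; push_cast; linarith
  have hpi := Real.pi_pos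
  have h1 := abs_lt.1 a1
  have h2 := abs_lt.1 a2
  have hzi : z⁻¹.arg = - z.arg := by
    rw [Complex.arg_inv, if_neg]
    intro h; rw [h] at h1; linarith [h1.2]
  have e2 : (y / z).arg = y.arg - z.arg := by
    rw [div_eq_mul_inv, Complex.arg_mul hy0 (inv_ne_zero hz0) (by
      rw [hzi]; constructor <;> linarith [h1.1, h1.2, h2.1, h2.2]), hzi]
    ring
  rw [e2]
  show y.arg = z.arg + (y.arg - z.arg)
  ring

theorem th_comb (J A t : ℕ) (c : ℕ → ℤ) (hJ : 1 ≤ J) (hc : ∀ i, |c i| ≤ 1)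
    (hmom : ∀ l < J, ∑ i ∈ range (A + 1), c i * (i : ℤ) ^ l = 0) (n : ℕ) (hn1 : 1 ≤ n)
    (hn : 4 * (t * A) ≤ n) :
    |∑ i ∈ range (A + 1), (c i : ℝ) * th ((n + t * i : ℕ) : ℝ)| ≤
      2 * ((A : ℝ) + 1) * (2 * (t * A : ℕ) / (n : ℝ)) ^ J := by
  set z : ℂ := ((n : ℝ) : ℂ) + om with hz
  have hz0 : z ≠ 0 := add_om_ne _
  have hnR : (1 : ℝ) ≤ n := by exact_mod_cast hn1
  have hn0 : (0 : ℝ) < n := by linarith
  have hzn : (n : ℝ) / 2 ≤ ‖z‖ := le_norm_add_om hnR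
  have hzpos : 0 < ‖z‖ := by linarith
  set u : ℂ := (t : ℂ) / z with hu
  obtain ⟨J', rfl⟩ : ∃ J', J = J' + 1 := ⟨J - 1, by omega⟩
  have hw : ∀ i : ℕ, (((t * i : ℕ) : ℂ) / z) = u * (i : ℂ) := by
    intro i; rw [hu]; push_cast; ring
  -- the main part vanishes
  have hmain : ∑ i ∈ range (A + 1), (c i : ℂ) * Complex.logTaylor (J' + 1) (u * (i : ℂ)) = 0 := by
    have e1 : ∀ i ∈ range (A + 1), (c i : ℂ) * Complex.logTaylor (J' + 1) (u * (i : ℂ)) =
        ∑ j ∈ range (J' + 1), (-1 : ℂ) ^ (j + 1) * u ^ j / j * ((c i * (i : ℤ) ^ j : ℤ) : ℂ) := by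
      intro i _
      unfold Complex.logTaylor
      rw [Finset.mul_sum]
      refine Finset.sum_congr rfl fun j _ => ?_
      rw [mul_pow]
      push_cast
      ring
    rw [Finset.sum_congr rfl e1, Finset.sum_comm]
    refine Finset.sum_eq_zero fun j hj => ?_
    rw [← Finset.mul_sum, ← Int.cast_sum, hmom j (Finset.mem_range.1 hj)]
    simp
  have hc0 : ∑ i ∈ range (A + 1), (c i : ℝ) = 0 := by
    have := hmom 0 (by omega)
    simp only [pow_zero, mul_one] at this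
    exact_mod_cast this
  have hsum : ∑ i ∈ range (A + 1), (c i : ℝ) * th ((n + t * i : ℕ) : ℝ) =
      (∑ i ∈ range (A + 1), (c i : ℂ) * (Complex.log (1 + u * (i : ℂ)) -
        Complex.logTaylor (J' + 1) (u * (i : ℂ)))).im := by
    have e2 : ∑ i ∈ range (A + 1), (c i : ℂ) * (Complex.log (1 + u * (i : ℂ)) -
        Complex.logTaylor (J' + 1) (u * (i : ℂ))) =
        ∑ i ∈ range (A + 1), (c i : ℂ) * Complex.log (1 + u * (i : ℂ)) := by
      simp only [mul_sub]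
      rw [Finset.sum_sub_distrib, hmain, sub_zero]
    rw [e2, Complex.im_sum]
    have e3 : ∀ i ∈ range (A + 1), (c i : ℝ) * th ((n + t * i : ℕ) : ℝ) =
        (c i : ℝ) * th (n : ℝ) + ((c i : ℂ) * Complex.log (1 + u * (i : ℂ))).im := by
      intro i _
      rw [Angle_arg_add n (t * i) hn1, ← hz, hw i]
      have : (c i : ℂ) = ((c i : ℝ) : ℂ) := by push_cast; rfl
      rw [this, Complex.im_ofReal_mul]
      ring
    rw [Finset.sum_congr rfl e3, Finset.sum_add_distrib, ← Finset.sum_mul, hc0, zero_mul, zero_add]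
  rw [hsum]
  refine (Complex.abs_im_le_norm _).trans ?_
  refine (norm_sum_le _ _).trans ?_
  have hterm : ∀ i ∈ range (A + 1), ‖(c i : ℂ) * (Complex.log (1 + u * (i : ℂ)) -
        Complex.logTaylor (J' + 1) (u * (i : ℂ)))‖ ≤ 2 * (2 * (t * A : ℕ) / (n : ℝ)) ^ (J' + 1) := by
    intro i hi
    have hiA : i ≤ A := by have := Finset.mem_range.1 hi; omega
    have hwn : ‖u * (i : ℂ)‖ ≤ 2 * (t * A : ℕ) / (n : ℝ) := by
      rw [hu, norm_mul, norm_div, Complex.norm_natCast, Complex.norm_natCast]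
      have h1 : (t : ℝ) / ‖z‖ * i ≤ (t : ℝ) / (n / 2) * A := by
        have : (i : ℝ) ≤ A := by exact_mod_cast hiA
        gcongr
      refine h1.trans (le_of_eq ?_)
      push_cast
      field_simp
    have hhalf : 2 * ((t * A : ℕ) : ℝ) / (n : ℝ) ≤ 1 / 2 := by
      rw [div_le_div_iff₀ hn0 (by norm_num)]
      have : ((4 * (t * A) : ℕ) : ℝ) ≤ n := by exact_mod_cast hn
      push_cast at this ⊢
      linarith
    have hlt : ‖u * (i : ℂ)‖ < 1 := by linarith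
    have hT := Complex.norm_log_sub_logTaylor_le J' hlt
    have hci : ‖(c i : ℂ)‖ ≤ 1 := by
      have : ‖(c i : ℂ)‖ = |((c i : ℤ) : ℝ)| := by
        rw [show (c i : ℂ) = ((c i : ℝ) : ℂ) by push_cast; rfl, Complex.norm_real, Real.norm_eq_abs]
      rw [this]
      exact_mod_cast hc i
    rw [norm_mul]
    have hinv : (1 - ‖u * (i : ℂ)‖)⁻¹ ≤ 2 := by
      rw [inv_le_comm₀ (by linarith) (by norm_num)]
      linarith
    have hnn : (0 : ℝ) ≤ ‖u * (i : ℂ)‖ := norm_nonneg _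
    have hinv0 : 0 ≤ (1 - ‖u * (i : ℂ)‖)⁻¹ := by
      apply inv_nonneg.2; linarith
    calc ‖(c i : ℂ)‖ * ‖Complex.log (1 + u * (i : ℂ)) - Complex.logTaylor (J' + 1) (u * (i : ℂ))‖
        ≤ 1 * (‖u * (i : ℂ)‖ ^ (J' + 1) * (1 - ‖u * (i : ℂ)‖)⁻¹ / (J' + 1)) := by
          gcongr
      _ ≤ ‖u * (i : ℂ)‖ ^ (J' + 1) * (1 - ‖u * (i : ℂ)‖)⁻¹ := by
          rw [one_mul]
          apply div_le_self (by positivity)
          have : (0 : ℝ) ≤ J' := Nat.cast_nonneg _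
          linarith
      _ ≤ (2 * (t * A : ℕ) / (n : ℝ)) ^ (J' + 1) * 2 := by
          gcongr
      _ = _ := by ring
  refine (Finset.sum_le_sum hterm).trans ?_
  rw [Finset.sum_const, Finset.card_range, nsmul_eq_mul]
  push_cast
  apply le_of_eq
  ring

end Pool.Agent.H61.Rot
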