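import Pool.Agent.H61.Rot.SmallLog

/-!
At least `M² / (log M)^E` mixed bad pairs of norm at most `3M`.
-/

set_option autoImplicit false

namespace Pool.Agent.H61.Rot

open Finset Pool.Agent.H41.Eis

theorem pairs_many_log : ∃ E : ℕ, ∀ z0 : ℤ × ℤ, z0 ≠ 0 → ∃ M0 : ℕ, 3 ≤ M0 ∧
    ∀ h : ℤ × ℤ → ℤ, IsChar h → h z0 = -1 → ∀ M : ℕ, M0 ≤ M → ∀ P : Finset (ℤ × ℤ),
      (∀ q q' : ℤ × ℤ, q ≠ 0 → q' ≠ 0 → edet q q' = 1 → h q ≠ h q' →
        ((TypeB q ∧ ¬ TypeB q') ∨ (¬ TypeB q ∧ TypeB q')) → ‖toC q‖ ≤ 3 * M → ‖toC q'‖ ≤ 3 * M →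
        q ∈ P) →
      (M : ℝ) ^ 2 / (Real.log M) ^ E ≤ P.card := by
  obtain ⟨E0, hE1, hsmall⟩ := small_list_log
  refine ⟨4 * E0 + 1, fun z0 hz0 => ?_⟩
  -- largeness
  have hlogt : Filter.Tendsto (fun M : ℕ => Real.log (M : ℝ)) Filter.atTop Filter.atTop :=
    Real.tendsto_log_atTop.comp tendsto_natCast_atTop_atTop
  have hlit : Filter.Tendsto (fun M : ℕ => (5 * Real.log (M : ℝ)) ^ (3 * E0) * 1152 / (M : ℝ))
      Filter.atTop (nhds 0) := by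
    have h1 : (fun x : ℝ => Real.log x ^ (3 * E0)) =o[Filter.atTop] (fun x : ℝ => x) :=
      Real.isLittleO_pow_log_id_atTop (n := 3 * E0)
    have h2 := h1.tendsto_div_nhds_zero.comp (tendsto_natCast_atTop_atTop (R := ℝ))
    have h3 := h2.const_mul ((5 : ℝ) ^ (3 * E0) * 1152)
    rw [mul_zero] at h3
    refine h3.congr fun M => ?_
    simp only [Function.comp_apply]
    rw [mul_pow]
    ring
  have hev := (((hlogt.eventually_ge_atTop (6912 * 5 ^ (4 * E0))).and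
    (hlogt.eventually_ge_atTop ‖toC z0‖)).and
    (hlit.eventually_le_const (by norm_num : (0:ℝ) < 1))).and (Filter.eventually_ge_atTop 3)
  obtain ⟨M1, hM1⟩ := Filter.eventually_atTop.1 hev
  refine ⟨max M1 3, le_max_right _ _, fun h hc hh0 M hM P hP => ?_⟩
  obtain ⟨⟨⟨hlogbig, hz0M⟩, hMK⟩, hM3⟩ := hM1 M ((le_max_left _ _).trans hM)
  have hM3R : (3:ℝ) ≤ M := by exact_mod_cast hM3
  have hM0 : (0:ℝ) < M := by linarith
  have hM1R : (1:ℝ) ≤ M := by linarith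
  set Λ : ℝ := Real.log M with hΛ
  have hΛ1 : 1 ≤ Λ := by
    refine le_trans ?_ hlogbig
    have : (1:ℝ) ≤ 5 ^ (4 * E0) := one_le_pow₀ (by norm_num)
    linarith
  set ℓ : ℕ := ⌈3 * Λ⌉₊ with hℓ
  have hℓlow : 3 * Λ ≤ ℓ := Nat.le_ceil _
  have hℓup : (ℓ : ℝ) + 1 ≤ 5 * Λ := by
    have := (Nat.ceil_lt_add_one (by linarith : (0:ℝ) ≤ 3 * Λ)).le
    rw [← hℓ] at this
    linarith
  have hℓ1 : 1 ≤ ℓ := by
    have : (1:ℝ) ≤ ℓ := by linarith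
    exact_mod_cast this
  set Bn : ℕ := (ℓ + 1) ^ E0 with hBn
  set B : ℝ := ((ℓ : ℝ) + 1) ^ E0 with hB
  have hBB : (Bn : ℝ) = B := by rw [hBn, hB]; push_cast; rfl
  have hB1 : 1 ≤ B := one_le_pow₀ (by linarith)
  have hB0 : 0 < B := by linarith
  have hBΛ : B ≤ (5 * Λ) ^ E0 := pow_le_pow_left₀ (by positivity) hℓup E0
  have hz0B : ‖toC z0‖ ≤ B := by
    refine hz0M.trans ?_
    have h1 : (ℓ : ℝ) + 1 ≤ B := by
      calc (ℓ : ℝ) + 1 = ((ℓ : ℝ) + 1) ^ 1 := (pow_one _).symm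
        _ ≤ ((ℓ : ℝ) + 1) ^ E0 := pow_le_pow_right₀ (by linarith) hE1
    linarith
  obtain ⟨δ, L, hδ, hlen, hL, ⟨l, hl⟩, hprod⟩ := hsmall ℓ hℓ1 h hc z0 hz0 hh0 hz0B
  rw [← hB] at hlen hL
  -- the parameter `n`
  have hBn1 : 1 ≤ Bn := by
    have : (1:ℝ) ≤ Bn := by rw [hBB]; exact hB1
    exact_mod_cast this
  set n : ℕ := M / (2 * Bn) with hn
  have hnlow : (M:ℝ) / (2 * B) ≤ (n:ℝ) + 1 := by
    rw [div_le_iff₀ (by positivity)]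
    have h1 := Nat.lt_mul_div_succ M (by omega : 0 < 2 * Bn)
    have h2 : (M:ℝ) ≤ (2 * Bn : ℕ) * ((M / (2 * Bn) + 1 : ℕ) : ℝ) := by exact_mod_cast h1.le
    rw [← hn] at h2
    push_cast at h2
    rw [hBB] at h2
    linarith
  have hnup : 2 * (n:ℝ) * B ≤ M := by
    have h1 := Nat.div_mul_le_self M (2 * Bn)
    rw [← hn] at h1
    have h2 : (n:ℝ) * (2 * Bn) ≤ M := by exact_mod_cast h1
    rw [hBB] at h2
    linarith
  clear_value n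
  have hnM : (n:ℝ) + 1 ≤ 2 * M := by
    have h1 : (n:ℝ) * 1 ≤ n * B := mul_le_mul_of_nonneg_left hB1 (Nat.cast_nonneg n)
    linarith
  have hn1 : (0:ℝ) < (n:ℝ) + 1 := by positivity
  have hB3 : 1152 * B ^ 3 ≤ M := by
    have h1 : B ^ 3 ≤ (5 * Λ) ^ (3 * E0) := by
      calc B ^ 3 ≤ ((5 * Λ) ^ E0) ^ 3 := pow_le_pow_left₀ hB0.le hBΛ 3
        _ = (5 * Λ) ^ (3 * E0) := by rw [← pow_mul, mul_comm E0 3]
    rw [div_le_one hM0] at hMK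
    linarith
  -- `288 B ≤ (n+1)^2`
  have hbig : 288 * B ≤ ((n:ℝ)+1)^2 := by
    have h1 : ((M:ℝ) / (2*B))^2 ≤ ((n:ℝ)+1)^2 := pow_le_pow_left₀ (by positivity) hnlow 2
    refine le_trans ?_ h1
    rw [div_pow, le_div_iff₀ (by positivity)]
    calc 288 * B * (2 * B)^2 = 1152 * B^3 := by ring
      _ ≤ (M:ℝ) := hB3
      _ = (M:ℝ) * 1 := (mul_one _).symm
      _ ≤ (M:ℝ) * M := mul_le_mul_of_nonneg_left hM1R hM0.le
      _ = (M:ℝ)^2 := by ring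
  have hnpos : 0 < n := by
    refine Nat.pos_of_ne_zero fun h0 => ?_
    rw [h0] at hbig
    norm_num at hbig
    linarith
  set τ : ℝ := 288 * B / ((n:ℝ)+1)^2 with hτ
  have hτ0 : 0 < τ := by positivity
  have hτ1 : τ ≤ 1 := by
    rw [hτ, div_le_one (by positivity)]; exact hbig
  -- `δ ≤ τ/8`
  have h2ℓ : (M:ℝ)^2 ≤ 2 ^ ℓ := by
    have h1 : (2:ℝ) ^ ℓ = Real.exp (Real.log 2 * ℓ) := by
      rw [Real.exp_mul, Real.exp_log (by norm_num), Real.rpow_natCast]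
    have h2 : (M:ℝ)^2 = Real.exp (2 * Λ) := by
      rw [hΛ, two_mul, Real.exp_add, Real.exp_log hM0]
      ring
    rw [h1, h2]
    apply Real.exp_le_exp.2
    have h3 := Real.log_two_gt_d9
    have h4 : (0.6931471803 : ℝ) * ℓ ≤ Real.log 2 * ℓ :=
      mul_le_mul_of_nonneg_right h3.le (Nat.cast_nonneg _)
    linarith
  have hδτ : |δ| ≤ τ / 8 := by
    refine hδ.trans ?_
    have h2 : 1 / (2:ℝ) ^ ℓ ≤ 1 / (M:ℝ)^2 :=
      one_div_le_one_div_of_le (by positivity) h2ℓ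
    refine h2.trans ?_
    rw [hτ]
    have h4 : ((n:ℝ)+1)^2 ≤ (2*M)^2 := pow_le_pow_left₀ hn1.le hnM 2
    rw [div_div, div_le_div_iff₀ (by positivity) (by positivity)]
    have h5 : (M:ℝ)^2 * 1 ≤ (M:ℝ)^2 * B := mul_le_mul_of_nonneg_left hB1 (by positivity)
    nlinarith
  have hmain := pairs_lower h hc hτ0 hτ1 hB1 hnpos hnup L hL l hl hδτ hprod P hP
  -- extract
  have hE : 3 * (((L.length : ℝ) + 1) * (48 / (τ * ((n:ℝ) + 1)^2))) ≤ 1/2 := by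
    have h1 : τ * ((n:ℝ) + 1)^2 = 288 * B := by rw [hτ]; field_simp
    rw [h1]
    calc 3 * (((L.length : ℝ) + 1) * (48 / (288 * B))) ≤ 3 * (B * (48 / (288 * B))) := by gcongr
      _ = 1/2 := by field_simp; norm_num
  have hP1 : 1/2 ≤ 3 * (B * (P.card * τ)) := by
    have h1 : 3 * (((L.length : ℝ) + 1) * (P.card * τ + 48 / (τ * ((n:ℝ) + 1)^2))) =
        3 * (((L.length : ℝ) + 1) * (P.card * τ)) +
        3 * (((L.length : ℝ) + 1) * (48 / (τ * ((n:ℝ) + 1)^2))) := by ring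
    rw [h1] at hmain
    have h2 : 3 * (((L.length : ℝ) + 1) * (P.card * τ)) ≤ 3 * (B * (P.card * τ)) := by gcongr
    linarith
  have hP2 : ((n:ℝ)+1)^2 ≤ 1728 * B^2 * P.card := by
    rw [hτ] at hP1
    have h1 : 3 * (B * (P.card * (288 * B / ((n:ℝ)+1)^2))) = 864 * B^2 * P.card / ((n:ℝ)+1)^2 := by
      ring
    rw [h1, le_div_iff₀ (by positivity)] at hP1
    linarith
  have hP3 : (M:ℝ)^2 ≤ 6912 * B^4 * P.card := by
    have h1 : ((M:ℝ) / (2*B))^2 ≤ ((n:ℝ)+1)^2 := pow_le_pow_left₀ (by positivity) hnlow 2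
    rw [div_pow, div_le_iff₀ (by positivity)] at h1
    calc (M:ℝ)^2 ≤ ((n:ℝ)+1)^2 * (2 * B)^2 := h1
      _ ≤ (1728 * B^2 * P.card) * (2 * B)^2 := by gcongr
      _ = _ := by ring
  have hB4 : 6912 * B^4 ≤ Λ ^ (4 * E0 + 1) := by
    have h1 : B ^ 4 ≤ 5 ^ (4 * E0) * Λ ^ (4 * E0) := by
      calc B ^ 4 ≤ ((5 * Λ) ^ E0) ^ 4 := pow_le_pow_left₀ hB0.le hBΛ 4
        _ = (5 * Λ) ^ (4 * E0) := by rw [← pow_mul, mul_comm E0 4]
        _ = _ := mul_pow _ _ _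
    calc 6912 * B^4 ≤ 6912 * (5 ^ (4 * E0) * Λ ^ (4 * E0)) := by gcongr
      _ = (6912 * 5 ^ (4 * E0)) * Λ ^ (4 * E0) := by ring
      _ ≤ Λ * Λ ^ (4 * E0) := by gcongr
      _ = Λ ^ (4 * E0 + 1) := by ring
  rw [div_le_iff₀ (by positivity)]
  calc (M:ℝ)^2 ≤ 6912 * B^4 * P.card := hP3
    _ ≤ Λ ^ (4 * E0 + 1) * P.card := mul_le_mul_of_nonneg_right hB4 (Nat.cast_nonneg _)
    _ = _ := by ring

end Pool.Agent.H61.Rot
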