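import Mathlib

/-!
The values `f k = 3k²+3k+1`: number of roots modulo `d`.
-/

set_option autoImplicit false

namespace Pool.Agent.H61.Rot

open Finset

/-- `f k = (k+1)³ - k³`. -/
def f (k : ℕ) : ℕ := 3 * k ^ 2 + 3 * k + 1

/-- At most `τ(d)` solutions of `d ∣ f k` in an interval of length `d`.  (Fix a root `k0`;
`f k - f k0 = 3 (k - k0) (k + k0 + 1)`; the map `k ↦ gcd(d, k - k0)` is injective; compare
`H48/AP/Tau.lean`, `tau_interval`.) -/
theorem roots_interval (d : ℕ) (hd : 1 ≤ d) (a : ℕ) :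
    ((Ico a (a + d)).filter (fun k => d ∣ f k)).card ≤ d.divisors.card := by
  rcases ((Ico a (a + d)).filter (fun k => d ∣ f k)).eq_empty_or_nonempty with h | ⟨k0, hk0⟩
  · rw [h, card_empty]; exact Nat.zero_le _
  rw [mem_filter] at hk0
  have hk0d : (d : ℤ) ∣ 3 * (k0 : ℤ) ^ 2 + 3 * k0 + 1 := by
    have : ((f k0 : ℕ) : ℤ) = 3 * (k0 : ℤ) ^ 2 + 3 * k0 + 1 := by unfold f; push_cast; ring
    rw [← this]; exact_mod_cast hk0.2
  have key : ∀ k : ℕ, d ∣ f k → ∃ e : ℕ, d = Int.gcd (d : ℤ) ((k : ℤ) - k0) * e ∧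
      (e : ℤ) ∣ (k : ℤ) + k0 + 1 ∧ Nat.Coprime (Int.gcd (d : ℤ) ((k : ℤ) - k0)) e := by
    intro k hk
    have hkd : (d : ℤ) ∣ 3 * (k : ℤ) ^ 2 + 3 * k + 1 := by
      have : ((f k : ℕ) : ℤ) = 3 * (k : ℤ) ^ 2 + 3 * k + 1 := by unfold f; push_cast; ring
      rw [← this]; exact_mod_cast hk
    set g := Int.gcd (d : ℤ) ((k : ℤ) - k0) with hg
    have hgd : g ∣ d := by
      have h1 := Int.gcd_dvd_left (a := (d : ℤ)) (b := (k : ℤ) - k0)
      rw [← hg] at h1
      exact_mod_cast h1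
    have hgk : (g : ℤ) ∣ (k : ℤ) - k0 := Int.gcd_dvd_right _ _
    obtain ⟨e, he⟩ := hgd
    have hg0 : 0 < g := by
      rcases Nat.eq_zero_or_pos g with h0 | h0
      · rw [h0, zero_mul] at he; omega
      · exact h0
    obtain ⟨m, hm⟩ := hgk
    -- `d` is prime to `3`
    have h3 : IsCoprime (d : ℤ) 3 := by
      obtain ⟨c, hc⟩ := hkd
      exact ⟨c, -((k : ℤ) ^ 2 + k), by rw [mul_comm c, ← hc]; ring⟩
    have h4 : (d : ℤ) ∣ ((k : ℤ) - k0) * ((k : ℤ) + k0 + 1) := by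
      have h5 : (d : ℤ) ∣ 3 * (((k : ℤ) - k0) * ((k : ℤ) + k0 + 1)) := by
        have h6 := dvd_sub hkd hk0d
        have h7 : 3 * (k : ℤ) ^ 2 + 3 * k + 1 - (3 * (k0 : ℤ) ^ 2 + 3 * k0 + 1) =
            3 * (((k : ℤ) - k0) * ((k : ℤ) + k0 + 1)) := by ring
        rwa [h7] at h6
      exact h3.dvd_of_dvd_mul_left h5
    -- `e` is prime to `m`
    have hem : IsCoprime (e : ℤ) m := by
      rw [Int.isCoprime_iff_gcd_eq_one]
      have h5 : Int.gcd (d : ℤ) ((k : ℤ) - k0) = g * Int.gcd (e : ℤ) m := by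
        rw [hm, he]
        push_cast
        rw [Int.gcd_mul_left, Int.natAbs_natCast]
      rw [← hg] at h5
      have h6 : g * 1 = g * Int.gcd (e : ℤ) m := by rw [mul_one]; exact h5
      exact (Nat.eq_of_mul_eq_mul_left hg0 h6).symm
    have he2 : (e : ℤ) ∣ (k : ℤ) + k0 + 1 := by
      have h5 : (g : ℤ) * e ∣ (g : ℤ) * (m * ((k : ℤ) + k0 + 1)) := by
        rw [hm] at h4
        rw [he] at h4
        push_cast at h4
        rwa [mul_assoc] at h4
      have h6 : (e : ℤ) ∣ m * ((k : ℤ) + k0 + 1) :=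
        Int.dvd_of_mul_dvd_mul_left (by exact_mod_cast hg0.ne') h5
      exact hem.dvd_of_dvd_mul_left h6
    refine ⟨e, he, he2, ?_⟩
    -- a common divisor divides `2 k0 + 1` and `f k0`
    rw [← Nat.isCoprime_iff_coprime]
    have hcop : IsCoprime (d : ℤ) (2 * (k0 : ℤ) + 1) := by
      obtain ⟨c, hc⟩ := hk0d
      exact ⟨4 * c, -(3 * (2 * (k0 : ℤ) + 1)), by
        have : 4 * c * (d : ℤ) = 4 * ((d : ℤ) * c) := by ring
        rw [this, ← hc]; ring⟩
    rw [Int.isCoprime_iff_gcd_eq_one]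
    by_contra hne
    set h := Int.gcd (g : ℤ) (e : ℤ) with hh
    have h1 : (h : ℤ) ∣ (g : ℤ) := Int.gcd_dvd_left _ _
    have h2 : (h : ℤ) ∣ (e : ℤ) := Int.gcd_dvd_right _ _
    have h5 : (h : ℤ) ∣ (k : ℤ) - k0 := h1.trans ⟨m, hm⟩
    have h6 : (h : ℤ) ∣ (k : ℤ) + k0 + 1 := h2.trans he2
    have h7 : (h : ℤ) ∣ 2 * (k0 : ℤ) + 1 := by
      have h8 := dvd_sub h6 h5
      have h9 : (k : ℤ) + k0 + 1 - ((k : ℤ) - k0) = 2 * (k0 : ℤ) + 1 := by ring
      rwa [h9] at h8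
    have h8 : (h : ℤ) ∣ (d : ℤ) := by
      rw [he]; push_cast; exact h1.mul_right _
    have h9 : IsUnit (h : ℤ) := hcop.isUnit_of_dvd' h8 h7
    rw [Int.isUnit_iff] at h9
    rcases h9 with h9 | h9
    · exact hne (by exact_mod_cast h9)
    · have : (0 : ℤ) ≤ h := Int.natCast_nonneg _
      omega
  refine card_le_card_of_injOn (fun k => Int.gcd (d : ℤ) ((k : ℤ) - k0)) ?_ ?_
  · intro k hk
    rw [mem_coe, mem_filter] at hk
    obtain ⟨e, he, _, _⟩ := key k hk.2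
    rw [mem_coe, Nat.mem_divisors]
    exact ⟨⟨e, he⟩, by omega⟩
  · intro k hk k' hk' heq
    simp only at heq
    rw [mem_coe, mem_filter, mem_Ico] at hk hk'
    obtain ⟨e, he, h1, h2⟩ := key k hk.2
    obtain ⟨e', he', h1', h2'⟩ := key k' hk'.2
    have hgk : ((Int.gcd (d : ℤ) ((k : ℤ) - k0) : ℕ) : ℤ) ∣ (k : ℤ) - k0 := Int.gcd_dvd_right _ _
    have hgk' : ((Int.gcd (d : ℤ) ((k' : ℤ) - k0) : ℕ) : ℤ) ∣ (k' : ℤ) - k0 :=
      Int.gcd_dvd_right _ _
    rw [← heq] at he' h2' hgk'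
    set g := Int.gcd (d : ℤ) ((k : ℤ) - k0) with hg
    have hg0 : 0 < g := by
      rcases Nat.eq_zero_or_pos g with h0 | h0
      · rw [h0, zero_mul] at he; omega
      · exact h0
    have hee : e = e' := Nat.eq_of_mul_eq_mul_left hg0 (he.symm.trans he')
    subst hee
    have h3 : (g : ℤ) ∣ (k : ℤ) - k' := by
      have := dvd_sub hgk hgk'
      have h5 : (k : ℤ) - k0 - ((k' : ℤ) - k0) = (k : ℤ) - k' := by ring
      rwa [h5] at this
    have h4 : (e : ℤ) ∣ (k : ℤ) - k' := by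
      have := dvd_sub h1 h1'
      have h5 : (k : ℤ) + k0 + 1 - ((k' : ℤ) + k0 + 1) = (k : ℤ) - k' := by ring
      rwa [h5] at this
    have h5 : (d : ℤ) ∣ (k : ℤ) - k' := by
      rw [he]; push_cast
      exact (Nat.isCoprime_iff_coprime.mpr h2).mul_dvd h3 h4
    obtain ⟨c, hc⟩ := h5
    have hd0 : (0 : ℤ) < d := by exact_mod_cast hd
    have hc0 : c = 0 := by
      have b1 : (k : ℤ) - k' < d := by omega
      have b2 : -(d : ℤ) < (k : ℤ) - k' := by omega
      rw [hc] at b1 b2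
      have c1 : c < 1 := by nlinarith
      have c2 : -1 < c := by nlinarith
      omega
    rw [hc0, mul_zero] at hc
    omega

theorem roots_le (d : ℕ) (hd : 1 ≤ d) (Y : ℕ) :
    (((range (Y + 1)).filter (fun k => d ∣ f k)).card : ℝ) ≤
      d.divisors.card * ((Y : ℝ) / d + 2) := by
  have hsub : (range (Y + 1)).filter (fun k => d ∣ f k) ⊆
      (range (Y / d + 1)).biUnion (fun j => (Ico (j * d) (j * d + d)).filter (fun k => d ∣ f k)) := by
    intro k hk
    rw [mem_filter, mem_range] at hk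
    rw [mem_biUnion]
    refine ⟨k / d, ?_, ?_⟩
    · rw [mem_range]
      have : k / d ≤ Y / d := Nat.div_le_div_right (by omega)
      omega
    · rw [mem_filter, mem_Ico]
      have h1 := Nat.div_add_mod k d
      have h2 := Nat.mod_lt k (show d > 0 from hd)
      have h3 : k / d * d = d * (k / d) := mul_comm _ _
      exact ⟨⟨by omega, by omega⟩, hk.2⟩
  have h1 : ((range (Y + 1)).filter (fun k => d ∣ f k)).card ≤ (Y / d + 1) * d.divisors.card := by
    refine (card_le_card hsub).trans (card_biUnion_le.trans ?_)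
    refine (sum_le_sum fun j _ => roots_interval d hd (j * d)).trans (le_of_eq ?_)
    rw [sum_const, card_range, smul_eq_mul]
  have h2 : (((range (Y + 1)).filter (fun k => d ∣ f k)).card : ℝ) ≤
      (((Y / d : ℕ) : ℝ) + 1) * d.divisors.card := by exact_mod_cast h1
  refine h2.trans ?_
  rw [mul_comm]
  apply mul_le_mul_of_nonneg_left _ (Nat.cast_nonneg _)
  have h3 : ((Y / d : ℕ) : ℝ) ≤ (Y : ℝ) / d := Nat.cast_div_le
  linarith

end Pool.Agent.H61.Rot
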