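import Pool.Agent.H61.Rot.TauPow
import Pool.Agent.H61.Rot.Fk

/-!
Second moment of the divisor function on the values `f k`.
-/

set_option autoImplicit false

namespace Pool.Agent.H61.Rot

open Finset

theorem Moment_const (C : ℝ) : ∃ E : ℕ, ∀ Y : ℕ, 3 ≤ Y → C ≤ (Real.log Y) ^ E := by
  have h3 : 1 < Real.log 3 := by
    rw [Real.lt_log_iff_exp_lt (by norm_num)]
    exact Real.exp_one_lt_three
  obtain ⟨E, hE⟩ := pow_unbounded_of_one_lt C h3
  refine ⟨E, fun Y hY => hE.le.trans ?_⟩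
  refine pow_le_pow_left₀ (by linarith) (Real.log_le_log (by norm_num) ?_) E
  exact_mod_cast hY

theorem second_moment : ∃ E : ℕ, ∀ Y : ℕ, 3 ≤ Y →
    ∑ k ∈ range (Y + 1), ((3 * f k).divisors.card : ℝ) ^ 2 ≤ Y * (Real.log Y) ^ E := by
  obtain ⟨P, hP⟩ : ∃ P : ℕ, P = 2 ^ 9 := ⟨_, rfl⟩
  obtain ⟨E0, hE0⟩ := Moment_const (3072 * 2 ^ P)
  refine ⟨E0 + P, fun Y hY => ?_⟩
  have hY3 : (3 : ℝ) ≤ Y := by exact_mod_cast hY
  have hlog1 : 1 ≤ Real.log Y := by
    rw [Real.le_log_iff_exp_le (by linarith)]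
    exact Real.exp_one_lt_three.le.trans hY3
  have hpoint : ∀ k ∈ range (Y + 1), ((3 * f k).divisors.card : ℝ) ^ 2 ≤
      ∑ d ∈ Icc 1 Y, if d ∣ f k then 1024 * (d.divisors.card : ℝ) ^ 8 else 0 := by
    intro k hk
    rw [mem_range] at hk
    have hfpos : 1 ≤ f k := by unfold f; omega
    obtain ⟨d, hd, hd4, hdt⟩ := tau_sub (f k) 4 hfpos (by norm_num)
    have hdpos : 0 < d := Nat.pos_of_dvd_of_pos hd hfpos
    have hdY : d ≤ Y := by
      by_contra hcon
      push Not at hcon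
      have h1 : (Y + 1) ^ 4 ≤ f k := (Nat.pow_le_pow_left hcon 4).trans hd4
      have h2 : f k ≤ 3 * Y ^ 2 + 3 * Y + 1 := by
        unfold f
        have : k ≤ Y := by omega
        gcongr
      have h3 : (Y + 1) ^ 4 ≤ 3 * Y ^ 2 + 3 * Y + 1 := h1.trans h2
      nlinarith [pow_pos (show 0 < Y by omega) 2, pow_pos (show 0 < Y by omega) 3,
        pow_pos (show 0 < Y by omega) 4]
    have h1 : (3 * f k).divisors.card ≤ 2 * (f k).divisors.card := by
      have h2 := tau_mul_le 3 (f k)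
      rw [TauSub_prime 3 Nat.prime_three] at h2
      exact h2
    have h2 : ((3 * f k).divisors.card : ℝ) ≤ 2 * (2 * d.divisors.card) ^ 4 := by
      have h3 : (3 * f k).divisors.card ≤ 2 * (2 * d.divisors.card) ^ 4 :=
        h1.trans (Nat.mul_le_mul_left _ hdt)
      exact_mod_cast h3
    calc ((3 * f k).divisors.card : ℝ) ^ 2 ≤ (2 * (2 * d.divisors.card) ^ 4) ^ 2 :=
          pow_le_pow_left₀ (Nat.cast_nonneg _) h2 2
      _ = 1024 * (d.divisors.card : ℝ) ^ 8 := by ring
      _ = if d ∣ f k then 1024 * (d.divisors.card : ℝ) ^ 8 else 0 := by rw [if_pos hd]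
      _ ≤ _ := by
          refine Finset.single_le_sum (f := fun d : ℕ =>
            if d ∣ f k then 1024 * (d.divisors.card : ℝ) ^ 8 else 0) ?_ ?_
          · intro i _
            split_ifs <;> positivity
          · rw [mem_Icc]
            exact ⟨hdpos, hdY⟩
  calc ∑ k ∈ range (Y + 1), ((3 * f k).divisors.card : ℝ) ^ 2
      ≤ ∑ k ∈ range (Y + 1), ∑ d ∈ Icc 1 Y,
          if d ∣ f k then 1024 * (d.divisors.card : ℝ) ^ 8 else 0 := Finset.sum_le_sum hpoint
    _ = ∑ d ∈ Icc 1 Y, ∑ k ∈ range (Y + 1),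
          if d ∣ f k then 1024 * (d.divisors.card : ℝ) ^ 8 else 0 := Finset.sum_comm
    _ ≤ ∑ d ∈ Icc 1 Y, (3072 * Y) * ((d.divisors.card : ℝ) ^ 9 / d) := by
        refine Finset.sum_le_sum (fun d hd => ?_)
        rw [mem_Icc] at hd
        have hdpos : (0 : ℝ) < d := by exact_mod_cast hd.1
        have hdY : (d : ℝ) ≤ Y := by exact_mod_cast hd.2
        rw [← Finset.sum_filter, Finset.sum_const, nsmul_eq_mul]
        have h1 := roots_le d hd.1 Y
        have h2 : (Y : ℝ) / d + 2 ≤ 3 * (Y / d) := by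
          have : (1 : ℝ) ≤ Y / d := by rw [le_div_iff₀ hdpos]; linarith
          linarith
        calc (((range (Y + 1)).filter (fun k => d ∣ f k)).card : ℝ) *
              (1024 * (d.divisors.card : ℝ) ^ 8)
            ≤ (d.divisors.card * (3 * (Y / d))) * (1024 * (d.divisors.card : ℝ) ^ 8) := by
              refine mul_le_mul_of_nonneg_right (h1.trans ?_) (by positivity)
              exact mul_le_mul_of_nonneg_left h2 (Nat.cast_nonneg _)
          _ = (3072 * Y) * ((d.divisors.card : ℝ) ^ 9 / d) := by ring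
    _ = (3072 * Y) * ∑ d ∈ Icc 1 Y, (d.divisors.card : ℝ) ^ 9 / d := by
        rw [Finset.mul_sum]
    _ ≤ (3072 * Y) * (1 + Real.log Y) ^ P := by
        rw [hP]
        exact mul_le_mul_of_nonneg_left (sum_tau_pow 9 Y) (by positivity)
    _ ≤ (3072 * Y) * (2 * Real.log Y) ^ P := by
        refine mul_le_mul_of_nonneg_left (pow_le_pow_left₀ (by linarith) (by linarith) _)
          (by positivity)
    _ = Y * ((3072 * 2 ^ P) * (Real.log Y) ^ P) := by
        rw [mul_pow]; ring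
    _ ≤ Y * ((Real.log Y) ^ E0 * (Real.log Y) ^ P) := by
        refine mul_le_mul_of_nonneg_left ?_ (by linarith)
        exact mul_le_mul_of_nonneg_right (hE0 Y hY) (pow_nonneg (by linarith) _)
    _ = Y * (Real.log Y) ^ (E0 + P) := by rw [pow_add]

end Pool.Agent.H61.Rot
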