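import Pool.Agent.H61.Rot.Fk

/-!
Few values `f k` are divisible by a large square.
-/

set_option autoImplicit false

namespace Pool.Agent.H61.Rot

open Finset
open scoped Classical

lemma Pell_growth {n k1 k2 d1 d2 : ℕ} (hn : 1 ≤ n) (h1 : f k1 = n * d1 ^ 2)
    (h2 : f k2 = n * d2 ^ 2) (h : k1 < k2) : 2 * (2 * k1 + 1) ≤ 2 * k2 + 1 := by
  have e1 : (3 * (2 * (k1 : ℤ) + 1) ^ 2 + 1) = 4 * n * (d1 : ℤ) ^ 2 := by
    have : ((f k1 : ℕ) : ℤ) = ((n * d1 ^ 2 : ℕ) : ℤ) := by rw [h1]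
    unfold f at this
    push_cast at this
    linarith
  have e2 : (3 * (2 * (k2 : ℤ) + 1) ^ 2 + 1) = 4 * n * (d2 : ℤ) ^ 2 := by
    have : ((f k2 : ℕ) : ℤ) = ((n * d2 ^ 2 : ℕ) : ℤ) := by rw [h2]
    unfold f at this
    push_cast at this
    linarith
  have hn' : (1 : ℤ) ≤ n := by exact_mod_cast hn
  have hk : (k1 : ℤ) < k2 := by exact_mod_cast h
  have hk1 : (0 : ℤ) ≤ k1 := Int.natCast_nonneg _
  have hd1 : (0 : ℤ) ≤ d1 := Int.natCast_nonneg _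
  have hd2 : (0 : ℤ) ≤ d2 := Int.natCast_nonneg _
  set X1 : ℤ := 2 * (k1 : ℤ) + 1 with hX1
  set X2 : ℤ := 2 * (k2 : ℤ) + 1 with hX2
  have hX1p : 1 ≤ X1 := by omega
  have hX12 : X1 < X2 := by omega
  -- `d1 < d2`
  have hdd : (d1 : ℤ) < d2 := by
    by_contra hcon
    push Not at hcon
    have g1 : (d2 : ℤ) ^ 2 ≤ (d1 : ℤ) ^ 2 := by nlinarith
    have g2 : 4 * (n : ℤ) * (d2 : ℤ) ^ 2 ≤ 4 * n * (d1 : ℤ) ^ 2 := by nlinarith
    nlinarith
  have hd2p : 0 < (d2 : ℤ) := by omega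
  -- the identity
  have hid : 3 * (X2 * d1 - X1 * d2) * (X2 * d1 + X1 * d2) = (d2 : ℤ) ^ 2 - (d1 : ℤ) ^ 2 := by
    have h3 : (3 * X1 ^ 2 + 1) * (d2 : ℤ) ^ 2 = (3 * X2 ^ 2 + 1) * (d1 : ℤ) ^ 2 := by
      rw [e1, e2]; ring
    linear_combination -h3
  have hX1d2 : 0 < X1 * d2 := mul_pos (by omega) hd2p
  have hX2d1 : 0 ≤ X2 * d1 := mul_nonneg (by omega) hd1
  have hpos : 0 < X2 * d1 + X1 * d2 := by omega
  have hrhs : 0 < (d2 : ℤ) ^ 2 - (d1 : ℤ) ^ 2 := by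
    have : (d1 : ℤ) ^ 2 < (d2 : ℤ) ^ 2 := pow_lt_pow_left₀ hdd hd1 (by norm_num)
    linarith
  have hdiff : 1 ≤ X2 * d1 - X1 * d2 := by
    by_contra hcon
    push Not at hcon
    have h3 : X2 * d1 - X1 * d2 ≤ 0 := by omega
    have h4 : 3 * (X2 * d1 - X1 * d2) * (X2 * d1 + X1 * d2) ≤ 0 :=
      mul_nonpos_of_nonpos_of_nonneg (by omega) hpos.le
    linarith
  have h6 : 6 * X1 < (d2 : ℤ) := by
    have g0 : 3 * 1 * (X2 * d1 + X1 * d2) ≤
        3 * (X2 * d1 - X1 * d2) * (X2 * d1 + X1 * d2) :=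
      mul_le_mul_of_nonneg_right (by omega) hpos.le
    have g1 : 3 * (X2 * d1 + X1 * d2) ≤ (d2 : ℤ) ^ 2 - (d1 : ℤ) ^ 2 := by
      rw [← hid]; linarith
    have g2 : 0 ≤ (d1 : ℤ) ^ 2 := sq_nonneg _
    have g3 : (6 * X1) * d2 < (d2 : ℤ) * d2 := by
      have g4 : (d2 : ℤ) ^ 2 = d2 * d2 := sq _
      have g5 : (6 * X1) * d2 = 6 * (X1 * d2) := by ring
      rw [g5, ← g4]
      linarith
    exact lt_of_mul_lt_mul_right g3 hd2
  have h7 : (d2 : ℤ) ≤ X2 := by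
    by_contra hcon
    push Not at hcon
    have g1 : (X2 + 1) ^ 2 ≤ (d2 : ℤ) ^ 2 := pow_le_pow_left₀ (by omega) (by omega) 2
    have g2 : 1 * (d2 : ℤ) ^ 2 ≤ n * (d2 : ℤ) ^ 2 := mul_le_mul_of_nonneg_right hn' (sq_nonneg _)
    have g3 : (X2 + 1) ^ 2 = X2 ^ 2 + 2 * X2 + 1 := by ring
    have g4 : 0 ≤ X2 ^ 2 := sq_nonneg _
    have g5 : 3 * X2 ^ 2 + 1 = 4 * (n * (d2 : ℤ) ^ 2) := by rw [e2]; ring
    omega
  omega

/-- The equation `3k²+3k+1 = n d²` has few solutions: with `X = 2k+1`, `3X²+1 = 4nd²`; for two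
solutions `(X1,d1)`, `(X2,d2)` with `X1 < X2` one has
`3 (X2 d1 - X1 d2)(X2 d1 + X1 d2) = d2² - d1²`, so `d2² > 3 (X2 d1 + X1 d2) ≥ 6 d1 d2`. -/
theorem pell_count (n Y : ℕ) (hn : 1 ≤ n) :
    ((range (Y + 1)).filter (fun k => ∃ d, f k = n * d ^ 2)).card ≤ 2 * (Nat.log 2 (Y + 1) + 2) := by
  have hinj : Set.InjOn (fun k => Nat.log 2 (2 * k + 1))
      (((range (Y + 1)).filter (fun k => ∃ d, f k = n * d ^ 2) : Finset ℕ) : Set ℕ) := by
    have aux : ∀ k1 k2 : ℕ, (∃ d, f k1 = n * d ^ 2) → (∃ d, f k2 = n * d ^ 2) → k1 < k2 →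
        Nat.log 2 (2 * k1 + 1) < Nat.log 2 (2 * k2 + 1) := by
      rintro k1 k2 ⟨d1, h1⟩ ⟨d2, h2⟩ h
      have h3 := Pell_growth hn h1 h2 h
      have h4 : Nat.log 2 ((2 * k1 + 1) * 2) = Nat.log 2 (2 * k1 + 1) + 1 :=
        Nat.log_mul_base (by norm_num) (by omega)
      have h5 : Nat.log 2 ((2 * k1 + 1) * 2) ≤ Nat.log 2 (2 * k2 + 1) :=
        Nat.log_mono_right (by omega)
      omega
    intro k1 hk1 k2 hk2 heq
    rw [mem_coe, mem_filter] at hk1 hk2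
    simp only at heq
    rcases lt_trichotomy k1 k2 with h | h | h
    · have := aux k1 k2 hk1.2 hk2.2 h
      omega
    · exact h
    · have := aux k2 k1 hk2.2 hk1.2 h
      omega
  have h1 : ((range (Y + 1)).filter (fun k => ∃ d, f k = n * d ^ 2)).card ≤
      (range (Nat.log 2 (Y + 1) + 2)).card := by
    refine card_le_card_of_injOn (fun k => Nat.log 2 (2 * k + 1)) ?_ hinj
    intro k hk
    rw [mem_coe, mem_filter, mem_range] at hk
    rw [mem_coe, mem_range]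
    have h2 : Nat.log 2 (2 * k + 1) ≤ Nat.log 2 ((Y + 1) * 2) := Nat.log_mono_right (by omega)
    rw [Nat.log_mul_base (by norm_num) (by omega)] at h2
    show Nat.log 2 (2 * k + 1) < _
    omega
  rw [card_range] at h1
  omega

/-- Large squares: `f k = n d²` with `n ≤ 7 Y² / D²`. -/
theorem square_large : ∃ C : ℝ, 0 < C ∧ ∀ Y D : ℕ, 3 ≤ Y → 1 ≤ D →
    (((range (Y + 1)).filter (fun k => ∃ d, D < d ∧ d ^ 2 ∣ f k)).card : ℝ) ≤
      C * (Y : ℝ) ^ 2 / (D : ℝ) ^ 2 * Real.log Y := by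
  have hl2 : 0 < Real.log 2 := Real.log_pos (by norm_num)
  refine ⟨14 * (4 / Real.log 2 + 2), by positivity, ?_⟩
  intro Y D hY hD
  set N : ℕ := 7 * Y ^ 2 / D ^ 2 with hN
  have hD2 : 0 < D ^ 2 := by positivity
  have hsub : (range (Y + 1)).filter (fun k => ∃ d, D < d ∧ d ^ 2 ∣ f k) ⊆
      (Ico 1 (N + 1)).biUnion (fun n => (range (Y + 1)).filter (fun k => ∃ d, f k = n * d ^ 2)) := by
    intro k hk
    rw [mem_filter, mem_range] at hk
    obtain ⟨hkY, d, hd, n, hn⟩ := hk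
    rw [mem_biUnion]
    have hfk : 0 < f k := by unfold f; omega
    have hn0 : 0 < n := by
      rcases Nat.eq_zero_or_pos n with h0 | h0
      · rw [h0, mul_zero] at hn; omega
      · exact h0
    refine ⟨n, ?_, ?_⟩
    · rw [mem_Ico]
      refine ⟨hn0, ?_⟩
      have h1 : n * D ^ 2 ≤ 7 * Y ^ 2 := by
        have h2 : D ^ 2 ≤ d ^ 2 := Nat.pow_le_pow_left hd.le 2
        have h3 : f k ≤ 7 * Y ^ 2 := by
          unfold f
          have h4 : k ≤ Y := by omega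
          have h5 : k ^ 2 ≤ Y ^ 2 := Nat.pow_le_pow_left h4 2
          nlinarith
        calc n * D ^ 2 ≤ n * d ^ 2 := Nat.mul_le_mul_left n h2
          _ = f k := by rw [hn]; ring
          _ ≤ 7 * Y ^ 2 := h3
      have h2 : n ≤ N := by
        rw [hN, Nat.le_div_iff_mul_le hD2]
        exact h1
      omega
    · rw [mem_filter, mem_range]
      exact ⟨hkY, d, by rw [hn]; ring⟩
  have h1 : ((range (Y + 1)).filter (fun k => ∃ d, D < d ∧ d ^ 2 ∣ f k)).card ≤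
      N * (2 * (Nat.log 2 (Y + 1) + 2)) := by
    refine (card_le_card hsub).trans (card_biUnion_le.trans ?_)
    refine (sum_le_sum fun n hn => pell_count n Y (mem_Ico.mp hn).1).trans (le_of_eq ?_)
    rw [sum_const, Nat.card_Ico, smul_eq_mul, Nat.add_sub_cancel]
  have h2 : (((range (Y + 1)).filter (fun k => ∃ d, D < d ∧ d ^ 2 ∣ f k)).card : ℝ) ≤
      (N : ℝ) * (2 * ((Nat.log 2 (Y + 1) : ℝ) + 2)) := by exact_mod_cast h1
  refine h2.trans ?_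
  have hYR : (3 : ℝ) ≤ Y := by exact_mod_cast hY
  have hDR : (0 : ℝ) < (D : ℝ) ^ 2 := by
    have : (0 : ℝ) < D := by exact_mod_cast hD
    positivity
  have hNR : (N : ℝ) ≤ 7 * (Y : ℝ) ^ 2 / (D : ℝ) ^ 2 := by
    have : ((7 * Y ^ 2 / D ^ 2 : ℕ) : ℝ) ≤ ((7 * Y ^ 2 : ℕ) : ℝ) / ((D ^ 2 : ℕ) : ℝ) :=
      Nat.cast_div_le
    rw [hN]
    push_cast at this ⊢
    exact this
  have hlogY : 1 ≤ Real.log Y := by
    rw [Real.le_log_iff_exp_le (by linarith)]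
    have := Real.exp_one_lt_d9
    linarith
  have hlog : (Nat.log 2 (Y + 1) : ℝ) ≤ 2 * Real.log Y / Real.log 2 := by
    rw [le_div_iff₀ hl2]
    have h3 : 2 ^ Nat.log 2 (Y + 1) ≤ Y + 1 := Nat.pow_log_le_self 2 (by omega)
    have h4 : ((2 : ℝ) ^ Nat.log 2 (Y + 1)) ≤ (Y : ℝ) ^ 2 := by
      have h5 : ((2 ^ Nat.log 2 (Y + 1) : ℕ) : ℝ) ≤ ((Y + 1 : ℕ) : ℝ) := by exact_mod_cast h3
      push_cast at h5
      nlinarith
    have h5 := Real.log_le_log (by positivity) h4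
    rw [Real.log_pow, Real.log_pow] at h5
    push_cast at h5
    exact h5
  have hnn : (0 : ℝ) ≤ 2 * ((Nat.log 2 (Y + 1) : ℝ) + 2) := by positivity
  calc (N : ℝ) * (2 * ((Nat.log 2 (Y + 1) : ℝ) + 2))
      ≤ (7 * (Y : ℝ) ^ 2 / (D : ℝ) ^ 2) * (2 * ((Nat.log 2 (Y + 1) : ℝ) + 2)) :=
        mul_le_mul_of_nonneg_right hNR hnn
    _ ≤ (7 * (Y : ℝ) ^ 2 / (D : ℝ) ^ 2) * (2 * ((4 / Real.log 2 + 2) * Real.log Y)) := by
        apply mul_le_mul_of_nonneg_left _ (by positivity)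
        have h6 : 2 * Real.log Y / Real.log 2 ≤ 4 / Real.log 2 * Real.log Y := by
          rw [div_mul_eq_mul_div]
          apply div_le_div_of_nonneg_right _ hl2.le
          nlinarith
        nlinarith
    _ = _ := by ring

end Pool.Agent.H61.Rot
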