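import Pool.Agent.H61.Rot.SqSmall
import Pool.Agent.H61.Rot.Pell

/-!
Few values `f k` are divisible by the square of a number `> z`.
-/

set_option autoImplicit false

namespace Pool.Agent.H61.Rot

open Finset
open scoped Classical

theorem square_few : ∃ E : ℕ, ∃ C : ℝ, 0 < C ∧ ∀ Y z : ℕ, 3 ≤ Y → 1 ≤ z →
    (((range (Y + 1)).filter (fun k => ∃ d, z < d ∧ d ^ 2 ∣ f k)).card : ℝ) ≤
      C * (Real.log Y) ^ E * ((Y : ℝ) / z + (Y : ℝ) ^ (3 / 4 : ℝ)) := by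
  obtain ⟨E, hE⟩ := square_small
  obtain ⟨C, hC, hC2⟩ := square_large
  refine ⟨E + 1, 1 + 4 * C, by positivity, ?_⟩
  intro Y z hY hz
  have hL : 1 ≤ Real.log Y := by have := SqSmall_log hY; linarith
  set L := Real.log Y with hLdef
  have hYR : (3 : ℝ) ≤ Y := by exact_mod_cast hY
  set y : ℝ := (Y : ℝ) ^ (3 / 4 : ℝ) with hy
  have hy1 : 1 ≤ y := Real.one_le_rpow (by linarith) (by norm_num)
  have hyY : y ≤ Y := by
    have := Real.rpow_le_rpow_of_exponent_le (show (1 : ℝ) ≤ Y by linarith)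
      (show (3 / 4 : ℝ) ≤ 1 by norm_num)
    rwa [Real.rpow_one] at this
  set D : ℕ := ⌊y⌋₊ with hD
  have hD1 : 1 ≤ D := by
    rw [hD, Nat.one_le_floor_iff]
    exact hy1
  have hDy : (D : ℝ) ≤ y := Nat.floor_le (by linarith)
  have hDY : D ≤ Y := by
    have : (D : ℝ) ≤ Y := hDy.trans hyY
    exact_mod_cast this
  have hyD : y ≤ 2 * D := by
    have h1 : y < D + 1 := Nat.lt_floor_add_one y
    have h2 : (1 : ℝ) ≤ D := by exact_mod_cast hD1
    linarith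
  have h1 := hE Y z D hY hz hDY
  have h2 := hC2 Y D hY hD1
  have hsub : (range (Y + 1)).filter (fun k => ∃ d, z < d ∧ d ^ 2 ∣ f k) ⊆
      (range (Y + 1)).filter (fun k => ∃ d, z < d ∧ d ≤ D ∧ d ^ 2 ∣ f k) ∪
      (range (Y + 1)).filter (fun k => ∃ d, D < d ∧ d ^ 2 ∣ f k) := by
    intro k hk
    rw [mem_filter] at hk
    obtain ⟨hkY, d, hd1, hd2⟩ := hk
    rw [mem_union, mem_filter, mem_filter]
    rcases le_or_gt d D with h | h
    · exact Or.inl ⟨hkY, d, hd1, h, hd2⟩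
    · exact Or.inr ⟨hkY, d, h, hd2⟩
  have h3 : (((range (Y + 1)).filter (fun k => ∃ d, z < d ∧ d ^ 2 ∣ f k)).card : ℝ) ≤
      (((range (Y + 1)).filter (fun k => ∃ d, z < d ∧ d ≤ D ∧ d ^ 2 ∣ f k)).card : ℝ) +
      (((range (Y + 1)).filter (fun k => ∃ d, D < d ∧ d ^ 2 ∣ f k)).card : ℝ) := by
    exact_mod_cast (card_le_card hsub).trans (card_union_le _ _)
  have h4 : L ^ E * ((Y : ℝ) / z + D) ≤ L ^ (E + 1) * ((Y : ℝ) / z + y) := by
    have h5 : L ^ E ≤ L ^ (E + 1) := pow_le_pow_right₀ hL (Nat.le_succ E)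
    have h6 : 0 ≤ (Y : ℝ) / z := by positivity
    exact mul_le_mul h5 (by linarith) (by positivity) (by positivity)
  have h5 : C * (Y : ℝ) ^ 2 / (D : ℝ) ^ 2 * L ≤ 4 * C * L ^ (E + 1) * ((Y : ℝ) / z + y) := by
    have hD0 : (0 : ℝ) < D := by exact_mod_cast hD1
    have h6 : (Y : ℝ) ^ 2 / (D : ℝ) ^ 2 ≤ 4 * y := by
      rw [div_le_iff₀ (by positivity)]
      have h7 : y ^ 2 ≤ 4 * (D : ℝ) ^ 2 := by
        calc y ^ 2 ≤ (2 * D) ^ 2 := pow_le_pow_left₀ (by linarith) hyD 2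
          _ = _ := by ring
      have h8 : (Y : ℝ) ^ 2 ≤ y ^ 3 := by
        have e1 : y ^ 3 = (Y : ℝ) ^ ((3 / 4 : ℝ) * 3) := by
          rw [hy, ← Real.rpow_natCast, ← Real.rpow_mul (by linarith)]
          norm_num
        have e2 : (Y : ℝ) ^ 2 = (Y : ℝ) ^ (2 : ℝ) := by
          rw [← Real.rpow_natCast]; norm_num
        rw [e1, e2]
        exact Real.rpow_le_rpow_of_exponent_le (by linarith) (by norm_num)
      calc (Y : ℝ) ^ 2 ≤ y ^ 3 := h8
        _ = y * y ^ 2 := by ring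
        _ ≤ y * (4 * (D : ℝ) ^ 2) := mul_le_mul_of_nonneg_left h7 (by linarith)
        _ = _ := by ring
    have h7 : L ≤ L ^ (E + 1) := le_self_pow₀ hL (Nat.succ_ne_zero E)
    have h8 : 0 ≤ (Y : ℝ) / z := by positivity
    calc C * (Y : ℝ) ^ 2 / (D : ℝ) ^ 2 * L = C * ((Y : ℝ) ^ 2 / (D : ℝ) ^ 2) * L := by ring
      _ ≤ C * (4 * y) * L ^ (E + 1) := by
          apply mul_le_mul _ h7 (by linarith) (by positivity)
          exact mul_le_mul_of_nonneg_left h6 hC.le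
      _ = 4 * C * L ^ (E + 1) * y := by ring
      _ ≤ _ := by
          apply mul_le_mul_of_nonneg_left _ (by positivity)
          linarith
  calc (((range (Y + 1)).filter (fun k => ∃ d, z < d ∧ d ^ 2 ∣ f k)).card : ℝ)
      ≤ L ^ (E + 1) * ((Y : ℝ) / z + y) + 4 * C * L ^ (E + 1) * ((Y : ℝ) / z + y) := by
        linarith
    _ = _ := by ring

end Pool.Agent.H61.Rot
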