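import Pool.Agent.H61.Rot.CountSum
import Pool.Agent.H61.Rot.ManyLog
import Pool.Agent.H61.Rot.Moment
import Pool.Agent.H61.Rot.SqFew

/-!
The main counting theorem.
-/

set_option autoImplicit false

namespace Pool.Agent.H61.Rot

open Finset Pool.Agent.H41.Eis

/-- `k` is nice at level `Z`: no large square divides `f k` and `f k` has few divisors. -/
def Nice (Z : ℝ) (k : ℕ) : Prop :=
  (∀ d : ℕ, d ^ 2 ∣ f k → (d : ℝ) ≤ Z) ∧ ((f k).divisors.card : ℝ) ≤ Z

open Classical in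
/-- Splitting of the sum over the bad `k`. -/
lemma CountLog_split (g : ℕ → ℤ) (Z : ℝ) (Y z : ℕ) (hz : z = ⌊Z⌋₊) :
    ∑ k ∈ (range (Y + 1)).filter (fun k => g (3 * f k) = -1), ((3 * f k).divisors.card : ℝ) ≤
      ∑ k ∈ (range (Y + 1)).filter (fun k => g (3 * f k) = -1 ∧ Nice Z k),
        ((3 * f k).divisors.card : ℝ) +
      ∑ k ∈ (range (Y + 1)).filter (fun k => ∃ d, z < d ∧ d ^ 2 ∣ f k),
        ((3 * f k).divisors.card : ℝ) +
      ∑ k ∈ (range (Y + 1)).filter (fun k => Z < ((f k).divisors.card : ℝ)),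
        ((3 * f k).divisors.card : ℝ) := by
  rw [sum_filter, sum_filter, sum_filter, sum_filter, ← sum_add_distrib, ← sum_add_distrib]
  apply sum_le_sum
  intro k _
  have ht : (0 : ℝ) ≤ ((3 * f k).divisors.card : ℝ) := Nat.cast_nonneg _
  by_cases h1 : g (3 * f k) = -1
  · by_cases h2 : Nice Z k
    · rw [if_pos h1, if_pos (⟨h1, h2⟩ : g (3 * f k) = -1 ∧ Nice Z k)]
      have h3 : (0 : ℝ) ≤ (if ∃ d, z < d ∧ d ^ 2 ∣ f k then ((3 * f k).divisors.card : ℝ) else 0) := by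
        split_ifs <;> simp
      have h4 : (0 : ℝ) ≤ (if Z < ((f k).divisors.card : ℝ) then
          ((3 * f k).divisors.card : ℝ) else 0) := by
        split_ifs <;> simp
      linarith
    · rw [if_pos h1, if_neg (fun h => h2 h.2)]
      unfold Nice at h2
      rw [not_and_or] at h2
      rcases h2 with h2 | h2
      · push Not at h2
        obtain ⟨d, hd1, hd2⟩ := h2
        have h5 : ∃ d, z < d ∧ d ^ 2 ∣ f k := by
          refine ⟨d, ?_, hd1⟩
          rw [hz]
          by_cases hd0 : d = 0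
          · exfalso
            rw [hd0] at hd1
            have : f k = 0 := by simpa using hd1
            unfold f at this
            omega
          · exact (Nat.floor_lt' hd0).2 hd2
        rw [if_pos h5]
        have h4 : (0 : ℝ) ≤ (if Z < ((f k).divisors.card : ℝ) then
            ((3 * f k).divisors.card : ℝ) else 0) := by
          split_ifs <;> simp
        linarith
      · push Not at h2
        rw [if_pos h2]
        have h3 : (0 : ℝ) ≤ (if ∃ d, z < d ∧ d ^ 2 ∣ f k then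
            ((3 * f k).divisors.card : ℝ) else 0) := by
          split_ifs <;> simp
        linarith
  · rw [if_neg h1]
    have h3 : (0 : ℝ) ≤ (if ∃ d, z < d ∧ d ^ 2 ∣ f k then ((3 * f k).divisors.card : ℝ) else 0) := by
      split_ifs <;> simp
    have h4 : (0 : ℝ) ≤ (if Z < ((f k).divisors.card : ℝ) then
        ((3 * f k).divisors.card : ℝ) else 0) := by
      split_ifs <;> simp
    have h5 : (0 : ℝ) ≤ (if g (3 * f k) = -1 ∧ Nice Z k then
        ((3 * f k).divisors.card : ℝ) else 0) := by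
      split_ifs <;> simp
    linarith

/-- The logarithm is eventually large and small. -/
lemma CountLog_tend (E : ℕ) (C : ℝ) : ∃ X0 : ℕ, ∀ X : ℕ, X0 ≤ X → C ≤ Real.log X ∧
    (Real.log X) ^ E ≤ ((X : ℝ) / 4) ^ (1 / 4 : ℝ) := by
  have h1 : Filter.Tendsto (fun X : ℕ => Real.log X) Filter.atTop Filter.atTop :=
    Real.tendsto_log_atTop.comp tendsto_natCast_atTop_atTop
  have h2 := (isLittleO_log_rpow_rpow_atTop (E : ℝ) (s := 1 / 4) (by norm_num)).bound
    (c := (1 / 4 : ℝ) ^ (1 / 4 : ℝ)) (by positivity)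
  have h3 := tendsto_natCast_atTop_atTop (R := ℝ) |>.eventually h2
  obtain ⟨X1, hX1⟩ := Filter.eventually_atTop.1 (h1.eventually_ge_atTop C)
  obtain ⟨X2, hX2⟩ := Filter.eventually_atTop.1 h3
  refine ⟨max (max X1 X2) 1, fun X hX => ⟨hX1 X (by omega), ?_⟩⟩
  have hX1' : (1 : ℝ) ≤ X := by exact_mod_cast (by omega : 1 ≤ X)
  have h4 := hX2 X (by omega)
  have h5 : 0 ≤ Real.log X := Real.log_nonneg hX1'
  rw [Real.norm_eq_abs, Real.norm_eq_abs, Real.rpow_natCast, abs_of_nonneg (by positivity),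
    abs_of_nonneg (by positivity), ← Real.mul_rpow (by norm_num) (by positivity)] at h4
  rw [show (X : ℝ) / 4 = 1 / 4 * X by ring]
  exact h4

open Classical in
/-- **Main counting theorem.** -/
theorem main_log : ∃ E : ℕ, ∀ z0 : ℤ × ℤ, z0 ≠ 0 → ∃ X0 : ℕ, ∀ g : ℕ → ℤ,
    (∀ m n : ℕ, m ≠ 0 → n ≠ 0 → g (m * n) = g m * g n) →
    (∀ n : ℕ, n ≠ 0 → g n = 1 ∨ g n = -1) → g (nrm z0).natAbs = -1 →
    ∀ X : ℕ, X0 ≤ X → (X : ℝ) / (Real.log X) ^ E ≤
      (((Icc 1 X).filter (fun k => g (3 * f k) = -1 ∧ Nice ((Real.log X) ^ E) k)).card : ℝ) := by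
  obtain ⟨E1, hE1⟩ := pairs_many_log
  obtain ⟨E2, hE2⟩ := second_moment
  obtain ⟨E3, C3, hC3, hE3⟩ := square_few
  refine ⟨2 * E1 + E2 + E3 + 3, fun z0 hz0 => ?_⟩
  set E : ℕ := 2 * E1 + E2 + E3 + 3 with hE
  obtain ⟨M0, hM03, hM0⟩ := hE1 z0 hz0
  obtain ⟨X1, hX1⟩ := CountLog_tend E (1080000 * C3 + 1000000)
  refine ⟨max X1 (3 * M0 ^ 2 + 12), fun g hmul hval hg0 X hX => ?_⟩
  obtain ⟨hLbig, hLsmall⟩ := hX1 X ((le_max_left _ _).trans hX)
  have hXb : 3 * M0 ^ 2 + 12 ≤ X := (le_max_right _ _).trans hX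
  set L : ℝ := Real.log X with hL
  have hL6 : (1000000 : ℝ) ≤ L := by linarith
  have hL1 : (1 : ℝ) ≤ L := by linarith
  have hLpos : (0 : ℝ) < L := by linarith
  -- the parameter `M`
  set M : ℕ := Nat.sqrt (X / 3) with hM
  have hM3 : M * M ≤ X / 3 := Nat.sqrt_le _
  have hM4 : X / 3 < (M + 1) * (M + 1) := Nat.lt_succ_sqrt _
  set Y : ℕ := 3 * M ^ 2 with hY
  have hMX : Y ≤ X := by
    have : M ^ 2 = M * M := sq M
    omega
  have hMM0 : M0 ≤ M := by
    rw [hM, Nat.le_sqrt]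
    have : M0 ^ 2 = M0 * M0 := sq M0
    omega
  have hM1 : 3 ≤ M := hM03.trans hMM0
  have hX0 : (0 : ℝ) < X := by exact_mod_cast (by omega : 0 < X)
  have hX1' : (1 : ℝ) ≤ X := by exact_mod_cast (by omega : 1 ≤ X)
  have hMR3 : (3 : ℝ) ≤ M := by exact_mod_cast hM1
  have hM12 : (X : ℝ) ≤ 12 * (M : ℝ) ^ 2 := by
    have h1 : X ≤ 3 * ((M + 1) * (M + 1)) := by omega
    have h2 : (X : ℝ) ≤ 3 * (((M : ℝ) + 1) * ((M : ℝ) + 1)) := by exact_mod_cast h1
    nlinarith
  have hYX : (Y : ℝ) ≤ X := by exact_mod_cast hMX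
  have hY4 : (X : ℝ) / 4 ≤ Y := by
    rw [hY]; push_cast; linarith
  have hY3 : 3 ≤ Y := by rw [hY]; nlinarith
  have hYpos : (0 : ℝ) < Y := by exact_mod_cast (by omega : 0 < Y)
  have hY1 : (1 : ℝ) ≤ Y := by exact_mod_cast (by omega : 1 ≤ Y)
  have hlogY : Real.log Y ≤ L := Real.log_le_log hYpos hYX
  have hlogY0 : 0 ≤ Real.log Y := Real.log_nonneg hY1
  have hMX' : (M : ℝ) ≤ X := by
    have : M ≤ X := by
      have h1 : M ≤ M * M := Nat.le_mul_self M
      omega
    exact_mod_cast this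
  have hlogM : Real.log M ≤ L := Real.log_le_log (by linarith) hMX'
  have hlogMpos : 0 < Real.log M := Real.log_pos (by linarith)
  set Z : ℝ := L ^ E with hZ
  have hZ1 : 1 ≤ Z := one_le_pow₀ hL1
  have hZpos : 0 < Z := by linarith
  -- notation
  set t : ℕ → ℝ := fun k => ((3 * f k).divisors.card : ℝ) with ht
  have ht0 : ∀ k, 0 ≤ t k := fun k => Nat.cast_nonneg _
  set z : ℕ := ⌊Z⌋₊ with hz
  set SN := (range (Y + 1)).filter (fun k => g (3 * f k) = -1 ∧ Nice Z k) with hSN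
  set SA := (range (Y + 1)).filter (fun k => ∃ d, z < d ∧ d ^ 2 ∣ f k) with hSA
  set SB := (range (Y + 1)).filter (fun k => Z < ((f k).divisors.card : ℝ)) with hSB
  have hsplit := CountLog_split g Z Y z hz
  -- the lower bound for the sum
  have hlow : (X : ℝ) / (144 * L ^ E1) ≤ ∑ k ∈ SN, t k + ∑ k ∈ SA, t k + ∑ k ∈ SB, t k := by
    have h1 := hM0 (hOf g) (isChar_hOf g hmul hval) hg0 M hMM0 (badSet (hOf g) M)
      (fun q q' a1 a2 a3 a4 a5 a6 a7 => mem_badSet (hOf g) M q q' a1 a2 a3 a4 a5 a6 a7)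
    have h2 := card_badSet_le_sum g hmul hval M
    have h3 : (M : ℝ) ^ 2 / L ^ E1 ≤ (M : ℝ) ^ 2 / (Real.log M) ^ E1 := by
      apply div_le_div_of_nonneg_left (by positivity) (by positivity)
      exact pow_le_pow_left₀ hlogMpos.le hlogM E1
    have h4 : (X : ℝ) / (144 * L ^ E1) ≤ (M : ℝ) ^ 2 / L ^ E1 / 12 := by
      rw [div_div, div_le_div_iff₀ (by positivity) (by positivity)]
      have : (0 : ℝ) < L ^ E1 := by positivity
      nlinarith
    have h5 : ((M : ℝ) ^ 2 / L ^ E1) / 12 ≤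
        ∑ k ∈ (range (Y + 1)).filter (fun k => g (3 * f k) = -1), t k := by
      rw [div_le_iff₀ (by norm_num)]
      have := (h3.trans h1).trans h2
      rw [← hY] at this
      linarith
    linarith [h4.trans (h5.trans hsplit)]
  -- second moment
  have hsm : ∑ k ∈ range (Y + 1), t k ^ 2 ≤ X * L ^ E2 := by
    refine (hE2 Y hY3).trans ?_
    exact mul_le_mul hYX (pow_le_pow_left₀ hlogY0 hlogY E2) (by positivity) hX0.le
  have hsub2 : ∀ s ⊆ range (Y + 1), ∑ k ∈ s, t k ^ 2 ≤ X * L ^ E2 := fun s hs =>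
    (sum_le_sum_of_subset_of_nonneg hs (fun k _ _ => sq_nonneg _)).trans hsm
  -- the part `SB`
  have hB : ∑ k ∈ SB, t k ≤ X / (600 * L ^ E1) := by
    have h1 : ∀ k ∈ SB, t k ≤ t k ^ 2 / Z := by
      intro k hk
      have h2 := (mem_filter.1 hk).2
      have h3 : ((f k).divisors.card : ℝ) ≤ t k := by
        have h4 : (f k).divisors ⊆ (3 * f k).divisors := by
          apply Nat.divisors_subset_of_dvd _ (Nat.dvd_mul_left _ _)
          unfold f; omega
        simp only [ht]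
        exact_mod_cast card_le_card h4
      rw [le_div_iff₀ hZpos, sq]
      exact mul_le_mul_of_nonneg_left (h2.le.trans h3) (ht0 k)
    calc ∑ k ∈ SB, t k ≤ ∑ k ∈ SB, t k ^ 2 / Z := sum_le_sum h1
      _ = (∑ k ∈ SB, t k ^ 2) / Z := by rw [sum_div]
      _ ≤ X * L ^ E2 / Z := by
          apply div_le_div_of_nonneg_right _ hZpos.le
          exact hsub2 SB (filter_subset _ _)
      _ ≤ X / (600 * L ^ E1) := by
          rw [div_le_div_iff₀ hZpos (by positivity)]
          have h5 : L ^ E2 * (600 * L ^ E1) ≤ Z := by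
            have h6 : Z = L ^ E2 * L ^ E1 * (L ^ (E1 + E3 + 2) * L) := by
              rw [hZ, hE]; ring
            rw [h6]
            have h7 : (1 : ℝ) ≤ L ^ (E1 + E3 + 2) := one_le_pow₀ hL1
            have h8 : 600 ≤ L ^ (E1 + E3 + 2) * L := by nlinarith
            calc L ^ E2 * (600 * L ^ E1) = L ^ E2 * L ^ E1 * 600 := by ring
              _ ≤ _ := mul_le_mul_of_nonneg_left h8 (by positivity)
          calc (X : ℝ) * L ^ E2 * (600 * L ^ E1) = X * (L ^ E2 * (600 * L ^ E1)) := by ring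
            _ ≤ X * Z := mul_le_mul_of_nonneg_left h5 hX0.le
  -- the part `SA`
  have hA : ∑ k ∈ SA, t k ≤ X / (600 * L ^ E1) := by
    have hz1 : 1 ≤ z := by
      rw [hz]; exact Nat.le_floor (by exact_mod_cast hZ1)
    have hz2 : Z / 2 ≤ z := by
      have h1 : Z < z + 1 := by rw [hz]; exact Nat.lt_floor_add_one Z
      have h2 : (1 : ℝ) ≤ z := by exact_mod_cast hz1
      linarith
    have hzpos : (0 : ℝ) < z := by exact_mod_cast (by omega : 0 < z)
    have hcardA : (SA.card : ℝ) ≤ 3 * C3 * L ^ E3 * (X / Z) := by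
      have h1 := hE3 Y z hY3 hz1
      have h2 : (Y : ℝ) / z ≤ 2 * (X / Z) := by
        rw [div_le_iff₀ hzpos]
        have h3 : 2 * ((X : ℝ) / Z) * z ≥ 2 * (X / Z) * (Z / 2) := by
          apply mul_le_mul_of_nonneg_left hz2 (by positivity)
        have h4 : 2 * ((X : ℝ) / Z) * (Z / 2) = X := by field_simp
        linarith
      have h3 : (Y : ℝ) ^ (3 / 4 : ℝ) ≤ X / Z := by
        rw [le_div_iff₀ hZpos]
        have h4 : Z ≤ (Y : ℝ) ^ (1 / 4 : ℝ) :=
          hLsmall.trans (Real.rpow_le_rpow (by positivity) hY4 (by norm_num))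
        calc (Y : ℝ) ^ (3 / 4 : ℝ) * Z ≤ (Y : ℝ) ^ (3 / 4 : ℝ) * (Y : ℝ) ^ (1 / 4 : ℝ) :=
              mul_le_mul_of_nonneg_left h4 (by positivity)
          _ = Y := by
              rw [← Real.rpow_add hYpos]; norm_num
          _ ≤ X := hYX
      have h5 : (SA.card : ℝ) ≤ C3 * (Real.log Y) ^ E3 * ((Y : ℝ) / z + (Y : ℝ) ^ (3 / 4 : ℝ)) := by
        refine le_trans (le_of_eq ?_) h1
        congr 2
      refine h5.trans ?_
      calc C3 * (Real.log Y) ^ E3 * ((Y : ℝ) / z + (Y : ℝ) ^ (3 / 4 : ℝ))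
          ≤ C3 * L ^ E3 * (3 * (X / Z)) := by
            apply mul_le_mul
            · exact mul_le_mul_of_nonneg_left (pow_le_pow_left₀ hlogY0 hlogY E3) hC3.le
            · linarith
            · positivity
            · positivity
        _ = _ := by ring
    have hcs : (∑ k ∈ SA, t k) ^ 2 ≤ SA.card * ∑ k ∈ SA, t k ^ 2 := sq_sum_le_card_mul_sum_sq
    have h6 : (∑ k ∈ SA, t k) ^ 2 ≤ (X / (600 * L ^ E1)) ^ 2 := by
      refine hcs.trans ?_
      calc (SA.card : ℝ) * ∑ k ∈ SA, t k ^ 2 ≤ (3 * C3 * L ^ E3 * (X / Z)) * (X * L ^ E2) :=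
            mul_le_mul hcardA (hsub2 SA (filter_subset _ _)) (sum_nonneg fun k _ => sq_nonneg _)
              (by positivity)
        _ = X ^ 2 * (3 * C3 * L ^ E3 * L ^ E2 / Z) := by ring
        _ ≤ X ^ 2 * (1 / (600 * L ^ E1) ^ 2) := by
            apply mul_le_mul_of_nonneg_left _ (by positivity)
            rw [div_le_div_iff₀ hZpos (by positivity), one_mul]
            have h7 : Z = L ^ E3 * L ^ E2 * (L ^ E1) ^ 2 * (L ^ 2 * L) := by
              rw [hZ, hE]; ring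
            rw [h7]
            have h8 : (1 : ℝ) ≤ L ^ 2 := one_le_pow₀ hL1
            have h9 : 3 * C3 * 360000 ≤ L ^ 2 * L := by nlinarith
            calc 3 * C3 * L ^ E3 * L ^ E2 * (600 * L ^ E1) ^ 2
                = L ^ E3 * L ^ E2 * (L ^ E1) ^ 2 * (3 * C3 * 360000) := by ring
              _ ≤ _ := mul_le_mul_of_nonneg_left h9 (by positivity)
        _ = (X / (600 * L ^ E1)) ^ 2 := by rw [div_pow]; ring
    exact (abs_le_of_sq_le_sq' h6 (by positivity)).2
  -- the nice part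
  have hN : (X : ℝ) / (300 * L ^ E1) ≤ ∑ k ∈ SN, t k := by
    have h1 : (X : ℝ) / (144 * L ^ E1) = (X / L ^ E1) / 144 := by rw [div_div]; ring_nf
    have h2 : (X : ℝ) / (600 * L ^ E1) = (X / L ^ E1) / 600 := by rw [div_div]; ring_nf
    have h3 : (X : ℝ) / (300 * L ^ E1) = (X / L ^ E1) / 300 := by rw [div_div]; ring_nf
    rw [h1] at hlow
    rw [h2] at hA hB
    rw [h3]
    have h4 : (0 : ℝ) < X / L ^ E1 := by positivity
    linarith
  have hcardN : (X : ℝ) / (90000 * L ^ (2 * E1 + E2)) ≤ SN.card := by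
    have hcs : (∑ k ∈ SN, t k) ^ 2 ≤ SN.card * ∑ k ∈ SN, t k ^ 2 := sq_sum_le_card_mul_sum_sq
    have h1 : ((X : ℝ) / (300 * L ^ E1)) ^ 2 ≤ SN.card * (X * L ^ E2) := by
      calc ((X : ℝ) / (300 * L ^ E1)) ^ 2 ≤ (∑ k ∈ SN, t k) ^ 2 :=
            pow_le_pow_left₀ (by positivity) hN 2
        _ ≤ SN.card * ∑ k ∈ SN, t k ^ 2 := hcs
        _ ≤ SN.card * (X * L ^ E2) :=
            mul_le_mul_of_nonneg_left (hsub2 SN (filter_subset _ _)) (Nat.cast_nonneg _)
    rw [div_pow, div_le_iff₀ (by positivity)] at h1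
    rw [div_le_iff₀ (by positivity)]
    have h2 : (X : ℝ) * X ≤ (SN.card * (90000 * L ^ (2 * E1 + E2))) * X := by
      calc (X : ℝ) * X = X ^ 2 := by ring
        _ ≤ SN.card * (X * L ^ E2) * (300 * L ^ E1) ^ 2 := h1
        _ = _ := by ring
    exact le_of_mul_le_mul_right h2 hX0
  -- remove `k = 0`
  have h8 : (SN.card : ℝ) ≤
      (((Icc 1 X).filter (fun k => g (3 * f k) = -1 ∧ Nice Z k)).card : ℝ) + 1 := by
    have hsub : SN ⊆ insert 0 ((Icc 1 X).filter (fun k => g (3 * f k) = -1 ∧ Nice Z k)) := by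
      intro k hk
      obtain ⟨a, b⟩ := mem_filter.1 hk
      have := mem_range.1 a
      rcases Nat.eq_zero_or_pos k with h | h
      · rw [h]; exact mem_insert_self _ _
      · exact mem_insert_of_mem (mem_filter.2 ⟨mem_Icc.2 ⟨h, by omega⟩, b⟩)
    have := (card_le_card hsub).trans (card_insert_le _ _)
    exact_mod_cast this
  -- numerical conclusion
  have h9 : (X : ℝ) / L ^ E + 1 ≤ X / (90000 * L ^ (2 * E1 + E2)) := by
    have hq : Z = L ^ (2 * E1 + E2) * (L ^ (E3 + 2) * L) := by rw [hZ, hE]; ring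
    have h10 : (1 : ℝ) ≤ L ^ (E3 + 2) := one_le_pow₀ hL1
    have h11 : (180000 : ℝ) ≤ L ^ (E3 + 2) * L := by nlinarith
    have h12 : 180000 * L ^ (2 * E1 + E2) ≤ Z := by
      rw [hq]
      have : (0 : ℝ) < L ^ (2 * E1 + E2) := by positivity
      nlinarith
    have hZX : Z ≤ X := by
      have h13 : ((X : ℝ) / 4) ^ (1 / 4 : ℝ) ≤ X := by
        calc ((X : ℝ) / 4) ^ (1 / 4 : ℝ) ≤ (X : ℝ) ^ (1 / 4 : ℝ) :=
              Real.rpow_le_rpow (by positivity) (by linarith) (by norm_num)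
          _ ≤ (X : ℝ) ^ (1 : ℝ) := Real.rpow_le_rpow_of_exponent_le hX1' (by norm_num)
          _ = X := Real.rpow_one _
      exact hLsmall.trans h13
    have h14 : (X : ℝ) / Z ≤ X / (180000 * L ^ (2 * E1 + E2)) :=
      div_le_div_of_nonneg_left hX0.le (by positivity) h12
    have h15 : 1 ≤ (X : ℝ) / (180000 * L ^ (2 * E1 + E2)) := by
      rw [one_le_div (by positivity)]
      exact h12.trans hZX
    have h16 : (X : ℝ) / (90000 * L ^ (2 * E1 + E2)) =
        X / (180000 * L ^ (2 * E1 + E2)) + X / (180000 * L ^ (2 * E1 + E2)) := by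
      field_simp; ring
    rw [h16]
    linarith
  linarith

end Pool.Agent.H61.Rot
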