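import Pool.Agent.H41.Eis.Count
import Pool.Agent.H61.Rot.Fk

/-!
From mixed bad pairs to bad `k`, weighted by the divisor function.
-/

set_option autoImplicit false

namespace Pool.Agent.H61.Rot

open Finset Pool.Agent.H41.Eis

/-- The number of mixed bad pairs is at most `12 ∑ τ(3 f k)` over the bad `k` (variant of
`card_badSet_le` of `H41/Eis/Count.lean`). -/
theorem card_badSet_le_sum (g : ℕ → ℤ) (hmul : ∀ m n : ℕ, m ≠ 0 → n ≠ 0 → g (m * n) = g m * g n)
    (hval : ∀ n : ℕ, n ≠ 0 → g n = 1 ∨ g n = -1) (M : ℕ) :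
    ((badSet (hOf g) M).card : ℝ) ≤ 12 *
      ∑ k ∈ (range (3 * M ^ 2 + 1)).filter (fun k => g (3 * f k) = -1),
        ((3 * f k).divisors.card : ℝ) := by
  classical
  set P := badSet (hOf g) M with hP
  set B := (Finset.range (3 * M^2 + 1)).filter (fun k => g (3 * f k) = -1) with hB
  set F : ℤ → Finset (ℤ × ℤ) := fun x => P.filter (fun q => ∃ w, emul q w = (x, -1)) with hF
  have hsub : P ⊆ B.biUnion (fun k => F (-(3 * (k:ℤ) + 1)) ∪ F (3 * (k:ℤ) + 2)) := by
    intro q hq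
    have hq' := hq
    rw [hP] at hq'
    unfold badSet at hq'
    obtain ⟨_, q', h1, h2, h3, h4, h5, h6, h7⟩ := Finset.mem_filter.1 hq'
    obtain ⟨k, hk, hk2⟩ := mixed_value q q' h3 h5
    have hnq : 0 < nrm q := nrm_pos h1
    have hnq' : 0 < nrm q' := nrm_pos h2
    have hkK : k ≤ 3 * M^2 := by
      have hn : ((nrm q : ℤ) : ℝ) ≤ 9 * (M:ℝ)^2 := by
        rw [← norm_toC_sq]
        calc ‖toC q‖^2 ≤ (3 * M)^2 := pow_le_pow_left₀ (norm_nonneg _) h6 2
          _ = 9 * (M:ℝ)^2 := by ring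
      have hn' : ((nrm q' : ℤ) : ℝ) ≤ 9 * (M:ℝ)^2 := by
        rw [← norm_toC_sq]
        calc ‖toC q'‖^2 ≤ (3 * M)^2 := pow_le_pow_left₀ (norm_nonneg _) h7 2
          _ = 9 * (M:ℝ)^2 := by ring
      have hm : nrm q ≤ 9 * (M:ℤ)^2 := by exact_mod_cast hn
      have hm' : nrm q' ≤ 9 * (M:ℤ)^2 := by exact_mod_cast hn'
      have hprod : nrm q * nrm q' ≤ (9 * (M:ℤ)^2) * (9 * (M:ℤ)^2) :=
        mul_le_mul hm hm' hnq'.le (by positivity)
      rw [hk] at hprod
      by_contra hcon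
      push Not at hcon
      have hcon' : 3 * (M:ℤ)^2 + 1 ≤ k := by exact_mod_cast hcon
      nlinarith [sq_nonneg (M:ℤ)]
    have hgk : g (3 * (3 * k^2 + 3 * k + 1)) = -1 := by
      have e1 : (nrm q).natAbs * (nrm q').natAbs = 3 * (3 * k^2 + 3 * k + 1) := by
        rw [← Int.natAbs_mul, hk]
        have : (3 * (3 * (k:ℤ)^2 + 3 * k + 1)) = ((3 * (3 * k^2 + 3 * k + 1) : ℕ) : ℤ) := by push_cast; ring
        rw [this, Int.natAbs_natCast]
      rw [← e1, hmul _ _ (by omega) (by omega)]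
      have h8 : hOf g q ≠ hOf g q' := h4
      unfold hOf at h8
      rcases hval (nrm q).natAbs (by omega) with a | a <;>
        rcases hval (nrm q').natAbs (by omega) with b | b <;> rw [a, b] at h8 ⊢ <;> simp_all
    rw [Finset.mem_biUnion]
    refine ⟨k, ?_, ?_⟩
    · rw [hB, Finset.mem_filter, Finset.mem_range]
      exact ⟨by omega, hgk⟩
    · rw [Finset.mem_union]
      rcases hk2 with h | h
      · left; rw [hF]; exact Finset.mem_filter.2 ⟨hq, econj q', h⟩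
      · right; rw [hF]; exact Finset.mem_filter.2 ⟨hq, econj q', h⟩
  have hFcard : ∀ k : ℕ, ∀ x : ℤ, (x = -(3 * (k:ℤ) + 1) ∨ x = 3 * (k:ℤ) + 2) →
      ((F x).card : ℝ) ≤ 6 * ((3 * f k).divisors.card : ℝ) := by
    intro k x hx
    have h1 : (F x).card ≤ 6 * (x^2 - x + 1).natAbs.divisors.card :=
      card_divisors_le x (F x) (fun p hp => (Finset.mem_filter.1 hp).2)
    have h2 : (x^2 - x + 1).natAbs = 3 * f k := by
      have : x^2 - x + 1 = ((3 * f k : ℕ) : ℤ) := by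
        unfold f
        rcases hx with h | h <;> rw [h] <;> push_cast <;> ring
      rw [this, Int.natAbs_natCast]
    rw [h2] at h1
    exact_mod_cast h1
  have h1 : (P.card : ℝ) ≤ ∑ k ∈ B, (((F (-(3 * (k:ℤ) + 1)) ∪ F (3 * (k:ℤ) + 2)).card : ℕ) : ℝ) := by
    have := (Finset.card_le_card hsub).trans Finset.card_biUnion_le
    exact_mod_cast this
  refine h1.trans ?_
  rw [Finset.mul_sum]
  refine Finset.sum_le_sum fun k _ => ?_
  have h3 := hFcard k _ (Or.inl rfl)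
  have h4 := hFcard k _ (Or.inr rfl)
  have h5 : (((F (-(3 * (k:ℤ) + 1)) ∪ F (3 * (k:ℤ) + 2)).card : ℕ) : ℝ) ≤
      ((F (-(3 * (k:ℤ) + 1))).card : ℝ) + ((F (3 * (k:ℤ) + 2)).card : ℝ) := by
    exact_mod_cast Finset.card_union_le _ _
  linarith

end Pool.Agent.H61.Rot
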