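import Pool.Agent.H61.Rot.CountLog

/-!
Nice `k` are typical.
-/

set_option autoImplicit false

namespace Pool.Agent.H61.Rot

open Finset

/-- `3k²+3k+1 = m² n` with `n` squarefree and `m ≤ (log X)^C`, and `3k²+3k+1` has at most
`C log log X` prime factors, counted with multiplicity. -/
def Typical (C X k : ℕ) : Prop :=
  (∃ m n : ℕ, 3 * k ^ 2 + 3 * k + 1 = m ^ 2 * n ∧ Squarefree n ∧ (m : ℝ) ≤ (Real.log X) ^ C) ∧
    (ArithmeticFunction.cardFactors (3 * k ^ 2 + 3 * k + 1) : ℝ) ≤ C * Real.log (Real.log X)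

lemma Typical_two_pow (m : ℕ) (hm : m ≠ 0) : 2 ^ ArithmeticFunction.cardFactors m ≤ m := by
  rw [ArithmeticFunction.cardFactors_apply]
  calc 2 ^ m.primeFactorsList.length = (List.replicate m.primeFactorsList.length 2).prod := by
        rw [List.prod_replicate]
    _ ≤ m.primeFactorsList.prod := by
        have : ∀ l : List ℕ, (∀ p ∈ l, 2 ≤ p) → (List.replicate l.length 2).prod ≤ l.prod := by
          intro l
          induction l with
          | nil => intro _; simp
          | cons a l ih =>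
            intro h
            rw [List.length_cons, List.replicate_succ, List.prod_cons, List.prod_cons]
            exact Nat.mul_le_mul (h a List.mem_cons_self)
              (ih fun p hp => h p (List.mem_cons_of_mem a hp))
        exact this _ fun p hp => (Nat.prime_of_mem_primeFactorsList hp).two_le
    _ = m := Nat.prod_primeFactorsList hm

lemma Typical_squarefree (n : ℕ) (hn : Squarefree n) :
    2 ^ ArithmeticFunction.cardFactors n = n.divisors.card := by
  have hn0 : n ≠ 0 := hn.ne_zero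
  rw [← (ArithmeticFunction.cardDistinctFactors_eq_cardFactors_iff_squarefree hn0).mpr hn,
    Nat.card_divisors hn0, ArithmeticFunction.cardDistinctFactors_apply, ← List.card_toFinset]
  have h1 : ∏ x ∈ n.primeFactors, (n.factorization x + 1) = ∏ _x ∈ n.primeFactors, 2 := by
    refine prod_congr rfl fun p hp => ?_
    rw [Nat.factorization_eq_one_of_squarefree hn (Nat.prime_of_mem_primeFactors hp)
      (Nat.dvd_of_mem_primeFactors hp)]
  rw [h1, prod_const]
  rfl

theorem typical_of_nice (E : ℕ) : ∃ C0 : ℕ, E ≤ C0 ∧ ∀ C : ℕ, C0 ≤ C → ∃ X0 : ℕ,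
    ∀ X : ℕ, X0 ≤ X → ∀ k : ℕ, Nice ((Real.log X) ^ E) k → Typical C X k := by
  refine ⟨5 * E, by omega, ?_⟩
  intro C hC
  refine ⟨27, ?_⟩
  intro X hX k hk
  have hXR : (27 : ℝ) ≤ X := by exact_mod_cast hX
  have he := Real.exp_one_lt_d9
  have he0 : 0 < Real.exp 1 := Real.exp_pos 1
  have hL : 3 ≤ Real.log X := by
    rw [Real.le_log_iff_exp_le (by linarith)]
    have h1 : Real.exp 3 = Real.exp 1 ^ 3 := by
      rw [← Real.exp_nat_mul]; norm_num
    have h2 : Real.exp 1 ^ 3 ≤ 2.72 ^ 3 := pow_le_pow_left₀ he0.le (by linarith) 3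
    have h3 : (2.72 : ℝ) ^ 3 ≤ 27 := by norm_num
    rw [h1]
    linarith
  set L := Real.log X with hLdef
  have hLL : 1 ≤ Real.log L := by
    rw [Real.le_log_iff_exp_le (by linarith)]
    linarith
  obtain ⟨hsq, htau⟩ := hk
  have hf0 : f k ≠ 0 := by unfold f; omega
  obtain ⟨n, m, hmn, hn⟩ := Nat.sq_mul_squarefree (f k)
  have hm0 : m ≠ 0 := by
    rintro rfl
    rw [zero_pow (by norm_num), zero_mul] at hmn
    exact hf0 hmn.symm
  have hn0 : n ≠ 0 := hn.ne_zero
  have hm : (m : ℝ) ≤ L ^ E := hsq m ⟨n, hmn.symm⟩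
  refine ⟨⟨m, n, hmn.symm, hn, hm.trans (pow_le_pow_right₀ (by linarith) (by omega))⟩, ?_⟩
  have hcard : ArithmeticFunction.cardFactors (3 * k ^ 2 + 3 * k + 1) =
      2 * ArithmeticFunction.cardFactors m + ArithmeticFunction.cardFactors n := by
    have h1 : 3 * k ^ 2 + 3 * k + 1 = m ^ 2 * n := hmn.symm
    rw [h1, ArithmeticFunction.cardFactors_mul (pow_ne_zero 2 hm0) hn0,
      ArithmeticFunction.cardFactors_pow]
  have hl2 : 0.6 < Real.log 2 := by have := Real.log_two_gt_d9; linarith
  have hpow : ∀ j : ℕ, ∀ y : ℝ, (2 : ℝ) ^ j ≤ y → y ≤ L ^ E → (j : ℝ) * 0.6 ≤ E * Real.log L := by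
    intro j y h1 h2
    have h3 := Real.log_le_log (by positivity) (h1.trans h2)
    rw [Real.log_pow, Real.log_pow] at h3
    have h4 : (0 : ℝ) ≤ j := Nat.cast_nonneg _
    nlinarith
  have h1 := hpow (ArithmeticFunction.cardFactors m) m
    (by exact_mod_cast Typical_two_pow m hm0) hm
  have h2 := hpow (ArithmeticFunction.cardFactors n) ((f k).divisors.card : ℝ) (by
    have h3 := Typical_squarefree n hn
    have h4 : n.divisors.card ≤ (f k).divisors.card :=
      card_le_card (Nat.divisors_subset_of_dvd hf0 ⟨m ^ 2, by rw [← hmn]; ring⟩)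
    exact_mod_cast h3.le.trans h4) htau
  rw [hcard]
  push_cast
  have hC' : (5 : ℝ) * E ≤ C := by exact_mod_cast hC
  have h5 : (5 : ℝ) * E * Real.log L ≤ C * Real.log L :=
    mul_le_mul_of_nonneg_right hC' (by linarith)
  linarith

end Pool.Agent.H61.Rot
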