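import Pool.Agent.H61.Rot.Omega
import Pool.Agent.H61.Rot.Typical

/-!
Final statement.
-/

set_option autoImplicit false

namespace Pool.Agent.H61.Rot

open Finset

lemma final_div_mono (E C X : ℕ) (hX : 3 ≤ X) (h : E ≤ C) :
    (X : ℝ) / (Real.log X) ^ C ≤ (X : ℝ) / (Real.log X) ^ E := by
  have hXR : (3 : ℝ) ≤ X := by exact_mod_cast hX
  have h1 : 1 ≤ Real.log X := by
    rw [Real.le_log_iff_exp_le (by linarith)]
    exact Real.exp_one_lt_d9.le.trans (by linarith)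
  have h2 : (Real.log X) ^ E ≤ (Real.log X) ^ C := pow_le_pow_right₀ h1 h
  have h3 : 0 < (Real.log X) ^ E := by positivity
  gcongr

lemma final_ncard {X : ℕ} {Q R : ℕ → Prop} (h : ∀ k, Q k → R k) :
    (Set.ncard {k : ℕ | 1 ≤ k ∧ k ≤ X ∧ Q k} : ℝ) ≤ (Set.ncard {k : ℕ | 1 ≤ k ∧ k ≤ X ∧ R k} : ℝ) := by
  have hfin : {k : ℕ | 1 ≤ k ∧ k ≤ X ∧ R k}.Finite := (Set.finite_Iic X).subset fun k hk => hk.2.1
  have := Set.ncard_le_ncard (s := {k : ℕ | 1 ≤ k ∧ k ≤ X ∧ Q k})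
    (t := {k : ℕ | 1 ≤ k ∧ k ≤ X ∧ R k}) (fun k hk => ⟨hk.1, hk.2.1, h k hk.2.2⟩) hfin
  exact_mod_cast this

theorem final : ∃ C : ℕ, ∀ P : ℕ, ∃ X₀ : ℕ, ∀ S : Set ℕ, ∀ X : ℕ, X₀ ≤ X →
    (X : ℝ) / (Real.log X) ^ C ≤
      (Set.ncard {k : ℕ | 1 ≤ k ∧ k ≤ X ∧ Even (omegaIn S (3 * k ^ 2 + 3 * k + 1)) ∧
        Typical C X k} : ℝ) ∧
    ((∃ p ∈ S, p.Prime ∧ p % 3 = 1 ∧ p ≤ P) → (X : ℝ) / (Real.log X) ^ C ≤
      (Set.ncard {k : ℕ | 1 ≤ k ∧ k ≤ X ∧ Odd (omegaIn S (3 * k ^ 2 + 3 * k + 1)) ∧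
        Typical C X k} : ℝ)) := by
  obtain ⟨E, hE⟩ := omega_log
  obtain ⟨C, hEC, hC⟩ := typical_of_nice E
  obtain ⟨X1, hX1⟩ := hC C le_rfl
  refine ⟨C, fun P => ?_⟩
  obtain ⟨X0, hX0⟩ := hE P
  refine ⟨max 3 (max X0 X1), fun S X hX => ?_⟩
  have h3 : 3 ≤ X := (le_max_left _ _).trans hX
  have h0 : X0 ≤ X := ((le_max_left _ _).trans (le_max_right _ _)).trans hX
  have h1 : X1 ≤ X := ((le_max_right _ _).trans (le_max_right _ _)).trans hX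
  obtain ⟨he, ho⟩ := hX0 S X h0
  constructor
  · refine (final_div_mono E C X h3 hEC).trans (he.trans ?_)
    exact final_ncard (fun k hk => ⟨hk.1, hX1 X h1 k hk.2⟩)
  · intro hp
    refine (final_div_mono E C X h3 hEC).trans ((ho hp).trans ?_)
    exact final_ncard (fun k hk => ⟨hk.1, hX1 X h1 k hk.2⟩)

/-- The case `S = ` all positive integers in terms of the Moebius function. -/
theorem moebius_of_final (C : ℕ) (hC : ∀ P : ℕ, ∃ X₀ : ℕ, ∀ S : Set ℕ, ∀ X : ℕ, X₀ ≤ X →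
    (X : ℝ) / (Real.log X) ^ C ≤
      (Set.ncard {k : ℕ | 1 ≤ k ∧ k ≤ X ∧ Even (omegaIn S (3 * k ^ 2 + 3 * k + 1)) ∧
        Typical C X k} : ℝ) ∧
    ((∃ p ∈ S, p.Prime ∧ p % 3 = 1 ∧ p ≤ P) → (X : ℝ) / (Real.log X) ^ C ≤
      (Set.ncard {k : ℕ | 1 ≤ k ∧ k ≤ X ∧ Odd (omegaIn S (3 * k ^ 2 + 3 * k + 1)) ∧
        Typical C X k} : ℝ))) : ∃ X₀ : ℕ, ∀ ε : ℤ, (ε = 1 ∨ ε = -1) → ∀ X : ℕ, X₀ ≤ X →
    (X : ℝ) / (Real.log X) ^ C ≤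
      (Set.ncard {k : ℕ | 1 ≤ k ∧ k ≤ X ∧
        (∃ m n : ℕ, 3 * k ^ 2 + 3 * k + 1 = m ^ 2 * n ∧ ArithmeticFunction.moebius n = ε ∧
          (m : ℝ) ≤ (Real.log X) ^ C) ∧
        (ArithmeticFunction.cardFactors (3 * k ^ 2 + 3 * k + 1) : ℝ) ≤
          C * Real.log (Real.log X)} : ℝ) := by
  obtain ⟨X0, hX0⟩ := hC 7
  refine ⟨X0, fun ε hε X hX => ?_⟩
  obtain ⟨he, ho⟩ := hX0 Set.univ X hX
  have ho' := ho ⟨7, Set.mem_univ _, by norm_num, by norm_num, le_rfl⟩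
  have hom : ∀ n : ℕ, omegaIn Set.univ n = ArithmeticFunction.cardFactors n := by
    intro n
    unfold omegaIn
    rw [ArithmeticFunction.cardFactors_apply]
    simp
  have hpar : ∀ m n : ℕ, 3 * 0 + 1 ≤ m ^ 2 * n → Squarefree n →
      ArithmeticFunction.moebius n = (-1) ^ (omegaIn Set.univ (m ^ 2 * n)) := by
    intro m n h1 hn
    have hm0 : m ≠ 0 := by rintro rfl; simp at h1
    have hn0 : n ≠ 0 := hn.ne_zero
    rw [hom, ArithmeticFunction.cardFactors_mul (pow_ne_zero 2 hm0) hn0,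
      ArithmeticFunction.cardFactors_pow, ArithmeticFunction.moebius_apply_of_squarefree hn,
      pow_add, pow_mul]
    simp
  rcases hε with rfl | rfl
  · refine he.trans (final_ncard fun k hk => ?_)
    obtain ⟨hk1, ⟨m, n, h1, h2, h3⟩, h4⟩ := hk
    refine ⟨⟨m, n, h1, ?_, h3⟩, h4⟩
    rw [hpar m n (by rw [← h1]; omega) h2, ← h1]
    exact Even.neg_one_pow hk1
  · refine ho'.trans (final_ncard fun k hk => ?_)
    obtain ⟨hk1, ⟨m, n, h1, h2, h3⟩, h4⟩ := hk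
    refine ⟨⟨m, n, h1, ?_, h3⟩, h4⟩
    rw [hpar m n (by rw [← h1]; omega) h2, ← h1]
    exact Odd.neg_one_pow hk1

end Pool.Agent.H61.Rot
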