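import Mathlib

/-!
Extrapolation to `0` of a polynomial which is bounded at the points `a, 4a, 9a, ..., m² a`.
-/

set_option autoImplicit false

namespace Pool.Agent.H61.Rot

open Finset

/-- The product at the last node: `∏_{j < i} j² / (i² - j²) = 2 (i!)² / (2 i)!`. -/
theorem Lag_base (n : ℕ) :
    ∏ j ∈ range n, (((j : ℝ) + 1) ^ 2 / (((n : ℝ) + 1) ^ 2 - ((j : ℝ) + 1) ^ 2)) =
      2 * ((n + 1).factorial : ℝ) ^ 2 / ((2 * (n + 1)).factorial : ℝ) := by
  have h1 : ∏ j ∈ range n, (((j : ℝ) + 1) ^ 2) = ((n.factorial : ℕ) : ℝ) ^ 2 := by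
    rw [prod_pow, ← prod_range_add_one_eq_factorial]
    push_cast
    rfl
  have h2 : ∏ j ∈ range n, ((n : ℝ) - j) = ((n.factorial : ℕ) : ℝ) := by
    rw [← Nat.descFactorial_self, Nat.descFactorial_eq_prod_range]
    push_cast
    refine prod_congr rfl fun j hj => ?_
    rw [Nat.cast_sub (mem_range.1 hj).le]
  have h3 : ((n + 1).factorial : ℝ) * ∏ j ∈ range n, ((n : ℝ) + 2 + j) =
      ((2 * n + 1).factorial : ℝ) := by
    have h := Nat.factorial_mul_ascFactorial (n + 1) n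
    rw [Nat.ascFactorial_eq_prod_range] at h
    have h' : n + 1 + n = 2 * n + 1 := by ring
    rw [h'] at h
    rw [← h]
    push_cast
    congr 1
    refine prod_congr rfl fun j _ => ?_
    ring
  have h4 : ∏ j ∈ range n, (((n : ℝ) + 1) ^ 2 - ((j : ℝ) + 1) ^ 2) =
      (∏ j ∈ range n, ((n : ℝ) - j)) * ∏ j ∈ range n, ((n : ℝ) + 2 + j) := by
    rw [← prod_mul_distrib]
    refine prod_congr rfl fun j _ => ?_
    ring
  rw [prod_div_distrib, h1, h4, h2]
  have h5 : ((2 * (n + 1)).factorial : ℝ) = (2 * (n + 1)) * ((2 * n + 1).factorial : ℝ) := by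
    have : 2 * (n + 1) = (2 * n + 1) + 1 := by ring
    rw [this, Nat.factorial_succ]
    push_cast
    ring
  have h6 : ((n + 1).factorial : ℝ) = ((n : ℝ) + 1) * (n.factorial : ℝ) := by
    rw [Nat.factorial_succ]
    push_cast
    ring
  have hf : (n.factorial : ℝ) ≠ 0 := by exact_mod_cast n.factorial_ne_zero
  have hp : ∏ j ∈ range n, ((n : ℝ) + 2 + j) ≠ 0 := by
    refine prod_ne_zero_iff.2 fun j _ => ?_
    positivity
  have hn : (n : ℝ) + 1 ≠ 0 := by positivity
  rw [h5, ← h3, h6]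
  field_simp

/-- The absolute value of the Lagrange weight at the node `i`. -/
theorem Lag_weight (i : ℕ) (hi : 1 ≤ i) (m : ℕ) (him : i ≤ m) :
    ∏ j ∈ (Icc 1 m).erase i, |(j : ℝ) ^ 2 / ((j : ℝ) ^ 2 - (i : ℝ) ^ 2)| =
      2 * (m.factorial : ℝ) ^ 2 / ((m - i).factorial * (m + i).factorial : ℝ) := by
  induction m, him using Nat.le_induction with
  | base =>
    obtain ⟨n, rfl⟩ : ∃ n, i = n + 1 := ⟨i - 1, by omega⟩
    have hs : (Icc 1 (n + 1)).erase (n + 1) = (range n).image (fun j => j + 1) := by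
      ext j
      simp only [mem_erase, mem_Icc, mem_image, mem_range]
      constructor
      · rintro ⟨h1, h2, h3⟩
        exact ⟨j - 1, by omega, by omega⟩
      · rintro ⟨l, h1, rfl⟩
        omega
    rw [hs, prod_image (by intro x _ y _ h; simpa using h)]
    have h := Lag_base n
    rw [Nat.sub_self, Nat.factorial_zero, ← two_mul, Nat.cast_one, one_mul, ← h]
    refine prod_congr rfl fun j hj => ?_
    have hj' : (j : ℝ) < n := by exact_mod_cast mem_range.1 hj
    have hpos : (0 : ℝ) < ((n : ℝ) + 1) ^ 2 - ((j : ℝ) + 1) ^ 2 := by nlinarith [Nat.cast_nonneg (α := ℝ) j]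
    push_cast
    rw [abs_div, abs_of_nonneg (by positivity : (0 : ℝ) ≤ ((j : ℝ) + 1) ^ 2), abs_sub_comm,
      abs_of_pos hpos]
  | succ m hm ih =>
    have hs : (Icc 1 (m + 1)).erase i = insert (m + 1) ((Icc 1 m).erase i) := by
      ext j
      simp only [mem_erase, mem_Icc, mem_insert]
      omega
    rw [hs, prod_insert (by simp), ih]
    have hmi : (i : ℝ) ≤ m := by exact_mod_cast hm
    have hpos : (0 : ℝ) < ((m : ℝ) + 1) ^ 2 - (i : ℝ) ^ 2 := by
      nlinarith [Nat.cast_nonneg (α := ℝ) i]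
    have h1 : ((m + 1 - i).factorial : ℝ) = ((m : ℝ) + 1 - i) * ((m - i).factorial : ℝ) := by
      have : m + 1 - i = (m - i) + 1 := by omega
      rw [this, Nat.factorial_succ]
      push_cast [Nat.cast_sub hm]
      ring
    have h2 : ((m + 1 + i).factorial : ℝ) = ((m : ℝ) + 1 + i) * ((m + i).factorial : ℝ) := by
      have : m + 1 + i = (m + i) + 1 := by omega
      rw [this, Nat.factorial_succ]
      push_cast
      ring
    have h3 : ((m + 1).factorial : ℝ) = ((m : ℝ) + 1) * (m.factorial : ℝ) := by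
      rw [Nat.factorial_succ]
      push_cast
      ring
    push_cast
    rw [abs_div, abs_of_nonneg (by positivity : (0 : ℝ) ≤ ((m : ℝ) + 1) ^ 2), abs_of_pos hpos,
      h1, h2, h3]
    have hf1 : ((m - i).factorial : ℝ) ≠ 0 := by exact_mod_cast (m - i).factorial_ne_zero
    have hf2 : ((m + i).factorial : ℝ) ≠ 0 := by exact_mod_cast (m + i).factorial_ne_zero
    have hp1 : (m : ℝ) + 1 - i ≠ 0 := by
      have : (0 : ℝ) < (m : ℝ) + 1 - i := by linarith
      exact this.ne'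
    have hp2 : (m : ℝ) + 1 + i ≠ 0 := by positivity
    have hpos' := hpos.ne'
    field_simp
    ring

theorem Lag_fact (i m : ℕ) (him : i ≤ m) :
    (m.factorial : ℝ) ^ 2 ≤ ((m - i).factorial * (m + i).factorial : ℝ) := by
  have h1 : m.factorial ≤ (m - i).factorial * m ^ i := by
    have h := Nat.factorial_mul_descFactorial him
    rw [← h]
    exact Nat.mul_le_mul le_rfl (Nat.descFactorial_le_pow m i)
  have h2 : m.factorial * m ^ i ≤ (m + i).factorial :=
    le_trans (Nat.mul_le_mul le_rfl (Nat.pow_le_pow_left (Nat.le_succ m) i))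
      Nat.factorial_mul_pow_le_factorial
  have h3 : m.factorial ^ 2 ≤ (m - i).factorial * (m + i).factorial := by
    calc m.factorial ^ 2 = m.factorial * m.factorial := sq _
      _ ≤ m.factorial * ((m - i).factorial * m ^ i) := Nat.mul_le_mul le_rfl h1
      _ = (m - i).factorial * (m.factorial * m ^ i) := by ring
      _ ≤ (m - i).factorial * (m + i).factorial := Nat.mul_le_mul le_rfl h2
  exact_mod_cast h3

theorem Lag_weight_le (i : ℕ) (hi : 1 ≤ i) (m : ℕ) (him : i ≤ m) :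
    ∏ j ∈ (Icc 1 m).erase i, |(j : ℝ) ^ 2 / ((j : ℝ) ^ 2 - (i : ℝ) ^ 2)| ≤ 2 := by
  rw [Lag_weight i hi m him]
  have hpos : (0 : ℝ) < ((m - i).factorial * (m + i).factorial : ℝ) := by
    have h1 := (m - i).factorial_pos
    have h2 := (m + i).factorial_pos
    positivity
  rw [div_le_iff₀ hpos]
  have := Lag_fact i m him
  linarith

theorem extrapolate (m : ℕ) (hm : 1 ≤ m) (Q : Polynomial ℝ) (hQ : Q.natDegree < m) (a b : ℝ)
    (ha : 0 < a) (h : ∀ i : ℕ, 1 ≤ i → i ≤ m → |Q.eval (a * (i : ℝ) ^ 2)| ≤ b) :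
    |Q.eval 0| ≤ 2 * m * b := by
  have hb : 0 ≤ b := le_trans (abs_nonneg _) (h 1 le_rfl hm)
  have hinj : Set.InjOn (fun i : ℕ => a * (i : ℝ) ^ 2) ((Icc 1 m : Finset ℕ) : Set ℕ) := by
    intro x _ y _ hxy
    have h1 : (x : ℝ) ^ 2 = (y : ℝ) ^ 2 := mul_left_cancel₀ ha.ne' hxy
    have h2 : (x : ℝ) = y := by
      exact (pow_left_inj₀ (Nat.cast_nonneg x) (Nat.cast_nonneg y) two_ne_zero).1 h1
    exact_mod_cast h2
  have hdeg : Q.degree < ((Icc 1 m : Finset ℕ).card : WithBot ℕ) := by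
    rw [Nat.card_Icc, Nat.add_sub_cancel]
    exact lt_of_le_of_lt Polynomial.degree_le_natDegree (by exact_mod_cast hQ)
  have hint := Lagrange.eq_interpolate hinj hdeg
  have hev : Q.eval 0 = ∑ i ∈ Icc 1 m, Q.eval (a * (i : ℝ) ^ 2) *
      ∏ j ∈ (Icc 1 m).erase i, ((a * (i : ℝ) ^ 2 - a * (j : ℝ) ^ 2)⁻¹ * (0 - a * (j : ℝ) ^ 2)) := by
    conv_lhs => rw [hint]
    rw [Lagrange.interpolate_apply, Polynomial.eval_finsetSum]
    refine sum_congr rfl fun i _ => ?_
    rw [Polynomial.eval_mul, Polynomial.eval_C, Lagrange.basis, Polynomial.eval_prod]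
    congr 1
    refine prod_congr rfl fun j _ => ?_
    rw [Lagrange.basisDivisor, Polynomial.eval_mul, Polynomial.eval_C, Polynomial.eval_sub,
      Polynomial.eval_X, Polynomial.eval_C]
  rw [hev]
  refine (abs_sum_le_sum_abs _ _).trans ?_
  have hterm : ∀ i ∈ Icc 1 m, |Q.eval (a * (i : ℝ) ^ 2) *
      ∏ j ∈ (Icc 1 m).erase i, ((a * (i : ℝ) ^ 2 - a * (j : ℝ) ^ 2)⁻¹ * (0 - a * (j : ℝ) ^ 2))| ≤
      b * 2 := by
    intro i hi
    rw [mem_Icc] at hi
    rw [abs_mul]
    refine mul_le_mul (h i hi.1 hi.2) ?_ (abs_nonneg _) hb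
    rw [abs_prod]
    refine le_trans (le_of_eq ?_) (Lag_weight_le i hi.1 m hi.2)
    refine prod_congr rfl fun j hj => ?_
    congr 1
    rw [mem_erase] at hj
    have hne : (i : ℝ) ^ 2 - (j : ℝ) ^ 2 ≠ 0 := by
      intro h0
      apply hj.1
      have h1 : (i : ℝ) ^ 2 = (j : ℝ) ^ 2 := sub_eq_zero.1 h0
      have h2 : (i : ℝ) = j := (pow_left_inj₀ (Nat.cast_nonneg i) (Nat.cast_nonneg j) two_ne_zero).1 h1
      exact_mod_cast h2.symm
    have hne' : (j : ℝ) ^ 2 - (i : ℝ) ^ 2 ≠ 0 := by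
      intro h0
      apply hne
      linarith
    have h5 : a * (i : ℝ) ^ 2 - a * (j : ℝ) ^ 2 ≠ 0 := by
      rw [← mul_sub]
      exact mul_ne_zero ha.ne' hne
    field_simp
    ring
  refine (sum_le_sum hterm).trans ?_
  rw [sum_const, Nat.card_Icc, Nat.add_sub_cancel, nsmul_eq_mul]
  linarith

end Pool.Agent.H61.Rot
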