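import Pool.Agent.H61.Rot.CountLog

/-!
From completely multiplicative functions to the number of prime factors in a set `S`.
-/

set_option autoImplicit false

namespace Pool.Agent.H61.Rot

open Finset Pool.Agent.H41.Eis

open Classical in
/-- The number of prime factors of `n` which belong to `S`, counted with multiplicity. -/
noncomputable def omegaIn (S : Set ℕ) (n : ℕ) : ℕ :=
  (n.primeFactorsList.filter (fun p => decide (p ∈ S))).length

lemma Omega_mul (S : Set ℕ) {m n : ℕ} (hm : m ≠ 0) (hn : n ≠ 0) :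
    omegaIn S (m * n) = omegaIn S m + omegaIn S n := by
  classical
  unfold omegaIn
  have h := (Nat.perm_primeFactorsList_mul hm hn).filter (fun p => decide (p ∈ S))
  rw [h.length_eq, List.filter_append, List.length_append]

lemma Omega_congr {S T : Set ℕ} {n : ℕ} (h : ∀ p, p.Prime → p ∣ n → (p ∈ S ↔ p ∈ T))
    (hn : n ≠ 0) : omegaIn S n = omegaIn T n := by
  classical
  unfold omegaIn
  congr 1
  refine List.filter_congr fun p hp => ?_
  have := (Nat.mem_primeFactorsList hn).1 hp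
  rw [decide_eq_decide]
  exact h p this.1 this.2

lemma Omega_prime {S : Set ℕ} {p : ℕ} (hp : p.Prime) (hS : p ∈ S) : omegaIn S p = 1 := by
  classical
  unfold omegaIn
  rw [Nat.primeFactorsList_prime hp]
  simp [hS]

lemma Omega_eq_zero {S : Set ℕ} {n : ℕ} (hn : n ≠ 0) (h : ∀ p, p.Prime → p ∣ n → p ∉ S) :
    omegaIn S n = 0 := by
  classical
  unfold omegaIn
  rw [List.length_eq_zero_iff, List.filter_eq_nil_iff]
  intro p hp
  have := (Nat.mem_primeFactorsList hn).1 hp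
  simpa using h p this.1 this.2

/-- The sign function of `S`. -/
noncomputable def Omega_g (S : Set ℕ) (n : ℕ) : ℤ := (-1) ^ omegaIn S n

lemma Omega_g_mul (S : Set ℕ) (m n : ℕ) (hm : m ≠ 0) (hn : n ≠ 0) :
    Omega_g S (m * n) = Omega_g S m * Omega_g S n := by
  unfold Omega_g
  rw [Omega_mul S hm hn, pow_add]

lemma Omega_g_val (S : Set ℕ) (n : ℕ) (_ : n ≠ 0) : Omega_g S n = 1 ∨ Omega_g S n = -1 :=
  neg_one_pow_eq_or ℤ _

lemma Omega_not_three_dvd (k : ℕ) : ¬ 3 ∣ 3 * k^2 + 3 * k + 1 := by omega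

/-- Prime divisors of `x² + x + 1` are `3` or `1` modulo `3`. -/
lemma Omega_prime_dvd (q x : ℕ) (hq : q.Prime) (hdvd : q ∣ x^2 + x + 1) : q = 3 ∨ q % 3 = 1 := by
  by_contra hcon
  push Not at hcon
  obtain ⟨h3, h1⟩ := hcon
  have : Fact q.Prime := ⟨hq⟩
  have hx : ((x : ZMod q))^2 + x + 1 = 0 := by
    have := (ZMod.natCast_eq_zero_iff (x^2+x+1) q).2 hdvd
    push_cast at this
    exact this
  have hcube : (x : ZMod q)^3 = 1 := by
    linear_combination ((x : ZMod q) - 1) * hx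
  have hne1 : (x : ZMod q) ≠ 1 := by
    intro h
    rw [h] at hx
    have h4 : ((3:ℕ) : ZMod q) = 0 := by
      push_cast; linear_combination hx
    have h5 := (ZMod.natCast_eq_zero_iff 3 q).1 h4
    exact h3 ((Nat.prime_dvd_prime_iff_eq hq Nat.prime_three).1 h5)
  have hne0 : (x : ZMod q) ≠ 0 := by
    intro h
    rw [h] at hcube
    norm_num at hcube
  have : Fact (Nat.Prime 3) := ⟨Nat.prime_three⟩
  have hord : orderOf (x : ZMod q) = 3 := orderOf_eq_prime hcube hne1
  have hd := ZMod.orderOf_dvd_card_sub_one hne0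
  rw [hord] at hd
  have := hq.two_le
  omega

/-- For a prime `p ≡ 1 (mod 3)` there is `x < p` with `p ∣ x² + x + 1`. -/
lemma Omega_exists_root (p : ℕ) (hp : p.Prime) (h1 : p % 3 = 1) : ∃ x < p, p ∣ x^2 + x + 1 := by
  have : Fact p.Prime := ⟨hp⟩
  have : Fact (Nat.Prime 3) := ⟨Nat.prime_three⟩
  have hcard : 3 ∣ Fintype.card (ZMod p)ˣ := by
    rw [ZMod.card_units p]
    have := hp.two_le
    omega
  obtain ⟨u, hu⟩ := exists_prime_orderOf_dvd_card 3 hcard
  have hu3 : u^3 = 1 := by rw [← hu]; exact pow_orderOf_eq_one u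
  have hu1 : u ≠ 1 := by
    intro h
    rw [h, orderOf_one] at hu
    omega
  have hu3' : ((u : ZMod p))^3 = 1 := by
    rw [← Units.val_pow_eq_pow_val, hu3, Units.val_one]
  have hu1' : (u : ZMod p) - 1 ≠ 0 := by
    intro h
    apply hu1
    apply Units.ext
    rw [Units.val_one]
    linear_combination h
  have hroot : ((u : ZMod p))^2 + u + 1 = 0 := by
    have : ((u : ZMod p) - 1) * ((u : ZMod p)^2 + u + 1) = 0 := by
      linear_combination hu3'
    rcases mul_eq_zero.1 this with h | h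
    · exact absurd h hu1'
    · exact h
  refine ⟨(u : ZMod p).val, ZMod.val_lt _, ?_⟩
  rw [← ZMod.natCast_eq_zero_iff]
  push_cast
  rw [ZMod.natCast_zmod_val]
  exact hroot

/-- the even part -/
lemma Omega_even {S : Set ℕ} {k : ℕ} (hk : Omega_g (S ∪ {3}) (3 * f k) = -1) :
    Even (omegaIn S (f k)) := by
  set T : Set ℕ := S ∪ {3} with hT
  have h3T : (3:ℕ) ∈ T := Or.inr rfl
  have hn0 : f k ≠ 0 := by unfold f; omega
  have h1 : Odd (omegaIn T (3 * f k)) := by
    unfold Omega_g at hk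
    exact (neg_one_pow_eq_neg_one_iff_odd (by norm_num)).1 hk
  rw [Omega_mul T (by norm_num) hn0, Omega_prime Nat.prime_three h3T] at h1
  have h2 : omegaIn S (f k) = omegaIn T (f k) := by
    refine Omega_congr (fun p hp hd => ?_) hn0
    have hp3 : p ≠ 3 := by
      rintro rfl
      exact Omega_not_three_dvd k hd
    constructor
    · exact fun h => Or.inl h
    · rintro (h | h)
      · exact h
      · exact absurd h hp3
  rw [h2]
  rcases Nat.even_or_odd (omegaIn T (f k)) with h | h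
  · exact h
  · exfalso
    have : Even (1 + omegaIn T (f k)) := Odd.add_odd odd_one h
    exact (Nat.not_even_iff_odd.2 h1) this

/-- the odd part -/
lemma Omega_odd {S : Set ℕ} {k : ℕ} (hk : Omega_g (S \ {3}) (3 * f k) = -1) :
    Odd (omegaIn S (f k)) := by
  set T : Set ℕ := S \ {3} with hT
  have h3T : (3:ℕ) ∉ T := fun h => h.2 rfl
  have hn0 : f k ≠ 0 := by unfold f; omega
  have h1 : Odd (omegaIn T (3 * f k)) := by
    unfold Omega_g at hk
    exact (neg_one_pow_eq_neg_one_iff_odd (by norm_num)).1 hk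
  have h30 : omegaIn T 3 = 0 := by
    refine Omega_eq_zero (by norm_num) fun q hq hd => ?_
    rw [(Nat.prime_dvd_prime_iff_eq hq Nat.prime_three).1 hd]
    exact h3T
  rw [Omega_mul T (by norm_num) hn0, h30, zero_add] at h1
  have h2 : omegaIn S (f k) = omegaIn T (f k) := by
    refine Omega_congr (fun q hq hd => ?_) hn0
    have hq3 : q ≠ 3 := by
      rintro rfl
      exact Omega_not_three_dvd k hd
    constructor
    · exact fun h => ⟨h, hq3⟩
    · exact fun h => h.1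
  rw [h2]; exact h1

/-- a small norm with sign `-1` -/
lemma Omega_norm {S : Set ℕ} (P : ℕ) (hex : ∃ p ∈ S, p.Prime ∧ p % 3 = 1 ∧ p ≤ P) :
    ∃ x < P, Omega_g (S \ {3}) (nrm ((x:ℤ), 1)).natAbs = -1 := by
  classical
  set T : Set ℕ := S \ {3} with hT
  have hex' : ∃ p : ℕ, p ∈ S ∧ p.Prime ∧ p % 3 = 1 := by
    obtain ⟨p, a, b, c, _⟩ := hex; exact ⟨p, a, b, c⟩
  have hpP : Nat.find hex' ≤ P := by
    obtain ⟨p, a, b, c, d⟩ := hex
    exact (Nat.find_min' hex' ⟨a, b, c⟩).trans d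
  set p := Nat.find hex' with hp
  obtain ⟨hpS, hpp, hp1⟩ := Nat.find_spec hex'
  rw [← hp] at hpS hpp hp1
  have hmin : ∀ q, q < p → ¬ (q ∈ S ∧ q.Prime ∧ q % 3 = 1) := fun q hq => Nat.find_min hex' hq
  clear_value p
  obtain ⟨x, hxp, hdvd⟩ := Omega_exists_root p hpp hp1
  obtain ⟨m, hm⟩ := hdvd
  have hm0 : m ≠ 0 := by
    rintro rfl
    omega
  have hmp : m < p := by
    by_contra hcon
    push Not at hcon
    have h1 : p * p ≤ p * m := Nat.mul_le_mul_left p hcon
    have h2 : (x + 1) * (x + 1) ≤ p * p := Nat.mul_le_mul hxp hxp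
    have h3 : x^2 + x + 1 < (x+1) * (x+1) ∨ x = 0 := by
      rcases Nat.eq_zero_or_pos x with h | h
      · exact Or.inr h
      · left; nlinarith
    rcases h3 with h | h
    · omega
    · rw [h] at hm
      have := hpp.two_le
      have h4 : p * p ≤ 1 := by
        have : p * m = 1 := by rw [← hm]; norm_num
        omega
      nlinarith
  refine ⟨x, by omega, ?_⟩
  have h1 : (nrm ((x:ℤ), 1)).natAbs = p * m := by
    rw [← hm]
    have : nrm ((x:ℤ), 1) = ((x^2 + x + 1 : ℕ) : ℤ) := by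
      simp only [nrm]; push_cast; ring
    rw [this, Int.natAbs_natCast]
  rw [h1, Omega_g, Omega_mul T hpp.ne_zero hm0]
  have hpT : p ∈ T := ⟨hpS, fun h => by
    have : p = 3 := h
    omega⟩
  rw [Omega_prime hpp hpT]
  have h2 : omegaIn T m = 0 := by
    refine Omega_eq_zero hm0 fun q hq hqm hqT => ?_
    have hq1 := Omega_prime_dvd q x hq (by rw [hm]; exact Dvd.dvd.mul_left hqm p)
    rcases hq1 with h | h
    · exact hqT.2 h
    · have hqle : q ≤ m := Nat.le_of_dvd (Nat.pos_of_ne_zero hm0) hqm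
      exact hmin q (by omega) ⟨hqT.1, hq, h⟩
  rw [h2]; norm_num

theorem omega_log : ∃ E : ℕ, ∀ P : ℕ, ∃ X0 : ℕ, ∀ S : Set ℕ, ∀ X : ℕ, X0 ≤ X →
    (X : ℝ) / (Real.log X) ^ E ≤
      (Set.ncard {k : ℕ | 1 ≤ k ∧ k ≤ X ∧ Even (omegaIn S (f k)) ∧
        Nice ((Real.log X) ^ E) k} : ℝ) ∧
    ((∃ p ∈ S, p.Prime ∧ p % 3 = 1 ∧ p ≤ P) → (X : ℝ) / (Real.log X) ^ E ≤
      (Set.ncard {k : ℕ | 1 ≤ k ∧ k ≤ X ∧ Odd (omegaIn S (f k)) ∧
        Nice ((Real.log X) ^ E) k} : ℝ)) := by
  classical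
  obtain ⟨E, hE⟩ := main_log
  refine ⟨E, fun P => ?_⟩
  have hz : ∀ x : ℕ, (((x:ℤ), 1) : ℤ × ℤ) ≠ 0 := by
    intro x h
    have := congrArg Prod.snd h
    simp at this
  choose N hN using fun x : ℕ => hE ((x:ℤ), 1) (hz x)
  refine ⟨(range (P + 2)).sup N, fun S X hX => ?_⟩
  have hconv : ∀ (T : Set ℕ) (Q : ℕ → Prop), (∀ k, Omega_g T (3 * f k) = -1 → Q k) →
      (((Finset.Icc 1 X).filter (fun k => Omega_g T (3 * f k) = -1 ∧
        Nice ((Real.log X) ^ E) k)).card : ℝ) ≤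
      (Set.ncard {k : ℕ | 1 ≤ k ∧ k ≤ X ∧ Q k ∧ Nice ((Real.log X) ^ E) k} : ℝ) := by
    intro T Q hQ
    rw [← Set.ncard_coe_finset]
    have hfin : {k : ℕ | 1 ≤ k ∧ k ≤ X ∧ Q k ∧ Nice ((Real.log X) ^ E) k}.Finite :=
      (Set.finite_Iic X).subset fun k hk => hk.2.1
    have := Set.ncard_le_ncard (s := (((Finset.Icc 1 X).filter
      (fun k => Omega_g T (3 * f k) = -1 ∧ Nice ((Real.log X) ^ E) k) : Finset ℕ) : Set ℕ))
      (fun k hk => by
        obtain ⟨a, b⟩ := Finset.mem_filter.1 (Finset.mem_coe.1 hk)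
        obtain ⟨a1, a2⟩ := Finset.mem_Icc.1 a
        exact ⟨a1, a2, hQ k b.1, b.2⟩) hfin
    exact_mod_cast this
  have hle : ∀ x, x < P + 2 → N x ≤ X := fun x hx =>
    (Finset.le_sup (f := N) (mem_range.mpr hx)).trans hX
  constructor
  · have hg3 : Omega_g (S ∪ {3}) (nrm (((1:ℕ):ℤ), 1)).natAbs = -1 := by
      have h1 : (nrm (((1:ℕ):ℤ), 1)).natAbs = 3 := by simp [nrm]
      have h3T : (3:ℕ) ∈ S ∪ {3} := Or.inr rfl
      rw [h1, Omega_g, Omega_prime Nat.prime_three h3T, pow_one]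
    exact (hN 1 (Omega_g (S ∪ {3})) (Omega_g_mul _) (Omega_g_val _) hg3 X
      (hle 1 (by omega))).trans (hconv _ _ fun k hk => Omega_even hk)
  · intro hex
    obtain ⟨x, hx, hgx⟩ := Omega_norm P hex
    exact (hN x (Omega_g (S \ {3})) (Omega_g_mul _) (Omega_g_val _) hgx X
      (hle x (by omega))).trans (hconv _ _ fun k hk => Omega_odd hk)

end Pool.Agent.H61.Rot
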