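import Pool.Agent.H61.Rot.RecurA

/-!
A fixed average of a sequence annihilated by `∏_{m ≤ A} (E^m - 1)^A` is a polynomial.
-/

set_option autoImplicit false

namespace Pool.Agent.H61.Rot

open Finset Polynomial

/-- The shift on real sequences. -/
noncomputable def RecurB_E : (ℕ → ℝ) →ₗ[ℝ] (ℕ → ℝ) where
  toFun s := fun n => s (n + 1)
  map_add' _ _ := rfl
  map_smul' _ _ := rfl

theorem RecurB_E_pow (k : ℕ) (s : ℕ → ℝ) (n : ℕ) : (RecurB_E ^ k) s n = s (n + k) := by
  induction k generalizing n with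
  | zero => simp
  | succ k ih =>
    rw [pow_succ', Module.End.mul_apply]
    change (RecurB_E ^ k) s (n + 1) = _
    rw [ih (n + 1)]
    congr 1
    omega

theorem RecurB_aeval (P : Polynomial ℝ) (N : ℕ) (hP : P.natDegree ≤ N) (s : ℕ → ℝ) (n : ℕ) :
    (aeval RecurB_E P) s n = ∑ j ∈ range (N + 1), P.coeff j * s (n + j) := by
  rw [aeval_eq_sum_range' (Nat.lt_succ_of_le hP), LinearMap.sum_apply, Finset.sum_apply]
  refine Finset.sum_congr rfl ?_
  intro j _
  rw [LinearMap.smul_apply, Pi.smul_apply, RecurB_E_pow, smul_eq_mul]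

theorem RecurB_fwd (s : ℕ → ℝ) (M : ℕ) :
    (aeval RecurB_E ((X - 1 : Polynomial ℝ) ^ M)) s = (fwdDiff 1)^[M] s := by
  induction M generalizing s with
  | zero => simp
  | succ M ih =>
    rw [pow_succ, map_mul, Module.End.mul_apply, Function.iterate_succ_apply, ih]
    congr 1
    funext n
    rw [map_sub, aeval_X, map_one, LinearMap.sub_apply, Pi.sub_apply]
    rfl

/-- The weights: coefficients of `∏_{m ≤ A} ((1 + ... + X^(m-1)) / m)^A`. -/
noncomputable def RecurB_W (A : ℕ) : Polynomial ℝ :=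
  ∏ m ∈ Icc 1 A, (C ((m : ℝ)⁻¹) * ∑ i ∈ range m, X ^ i) ^ A

theorem RecurB_nonneg_mul (P Q : Polynomial ℝ) (hP : ∀ i, 0 ≤ P.coeff i) (hQ : ∀ i, 0 ≤ Q.coeff i)
    (i : ℕ) : 0 ≤ (P * Q).coeff i := by
  rw [coeff_mul]
  exact Finset.sum_nonneg (fun x _ => mul_nonneg (hP _) (hQ _))

theorem RecurB_W_nonneg (A : ℕ) (i : ℕ) : 0 ≤ (RecurB_W A).coeff i := by
  have h : ∀ i, 0 ≤ (RecurB_W A).coeff i := by
    unfold RecurB_W
    refine Finset.prod_induction _ (fun P : Polynomial ℝ => ∀ i, 0 ≤ P.coeff i)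
      (fun P Q hP hQ => RecurB_nonneg_mul P Q hP hQ) ?_ ?_
    · intro i
      rw [coeff_one]
      split_ifs <;> norm_num
    · intro m _
      have hbase : ∀ i, 0 ≤ (C ((m : ℝ)⁻¹) * ∑ i ∈ range m, X ^ i : Polynomial ℝ).coeff i := by
        intro i
        rw [coeff_C_mul, finsetSum_coeff]
        refine mul_nonneg (by positivity) (Finset.sum_nonneg ?_)
        intro j _
        rw [coeff_X_pow]
        split_ifs <;> norm_num
      have hpow : ∀ a : ℕ, ∀ i, 0 ≤ ((C ((m : ℝ)⁻¹) * ∑ i ∈ range m, X ^ i : Polynomial ℝ) ^ a).coeff i := by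
        intro a
        induction a with
        | zero =>
          intro i
          rw [pow_zero, coeff_one]
          split_ifs <;> norm_num
        | succ a ih =>
          rw [pow_succ]
          exact RecurB_nonneg_mul _ _ ih hbase
      exact hpow A
  exact h i

theorem RecurB_W_eval (A : ℕ) : (RecurB_W A).eval 1 = 1 := by
  unfold RecurB_W
  rw [eval_prod]
  refine Finset.prod_eq_one ?_
  intro m hm
  have hm' := Finset.mem_Icc.1 hm
  have hm0 : (m : ℝ) ≠ 0 := by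
    have : m ≠ 0 := by omega
    exact_mod_cast this
  rw [eval_pow, eval_mul, eval_C, eval_finsetSum]
  simp [hm0]

theorem RecurB_factor (A : ℕ) : (Wp A).map (Int.castRingHom ℝ) =
    C (∏ m ∈ Icc 1 A, (m : ℝ) ^ A) * ((X - 1) ^ (A ^ 2) * RecurB_W A) := by
  have h1 : (X - 1 : Polynomial ℝ) ^ (A ^ 2) = ∏ m ∈ Icc 1 A, (X - 1 : Polynomial ℝ) ^ A := by
    rw [Finset.prod_const, Nat.card_Icc, Nat.add_sub_cancel, ← pow_mul, sq]
  rw [Wp, Polynomial.map_prod, RecurB_W, h1, ← Finset.prod_mul_distrib, map_prod,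
    ← Finset.prod_mul_distrib]
  refine Finset.prod_congr rfl ?_
  intro m hm
  have hm' := Finset.mem_Icc.1 hm
  have hm0 : (m : ℝ) ≠ 0 := by
    have : m ≠ 0 := by omega
    exact_mod_cast this
  have h2 : (C (m : ℝ) : Polynomial ℝ) * C ((m : ℝ)⁻¹) = 1 := by
    rw [← C_mul, mul_inv_cancel₀ hm0, C_1]
  have h3 : (∑ i ∈ range m, (X : Polynomial ℝ) ^ i) * (X - 1) = X ^ m - 1 := geom_sum_mul X m
  rw [Polynomial.map_pow, Polynomial.map_sub, Polynomial.map_pow, map_X, Polynomial.map_one,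
    map_pow, ← mul_pow, ← mul_pow, ← h3]
  congr 1
  calc (∑ i ∈ range m, (X : Polynomial ℝ) ^ i) * (X - 1)
      = ((C (m : ℝ) : Polynomial ℝ) * C ((m : ℝ)⁻¹)) *
        ((∑ i ∈ range m, (X : Polynomial ℝ) ^ i) * (X - 1)) := by rw [h2, one_mul]
    _ = _ := by ring

theorem RecurB_Wp_natDegree (A : ℕ) (hA : 1 ≤ A) :
    ((Wp A).map (Int.castRingHom ℝ)).natDegree ≤ 3 * A ^ 3 := by
  have h1 := RecurA_Wp_natDegree A hA
  rw [natDegree_map_eq_of_injective (RingHom.injective_int (Int.castRingHom ℚ))] at h1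
  rwa [natDegree_map_eq_of_injective (RingHom.injective_int (Int.castRingHom ℝ))]

theorem RecurB_K (A : ℕ) : (∏ m ∈ Icc 1 A, (m : ℝ) ^ A) ≠ 0 := by
  rw [Finset.prod_ne_zero_iff]
  intro m hm
  have hm' := Finset.mem_Icc.1 hm
  have : m ≠ 0 := by omega
  exact pow_ne_zero _ (by exact_mod_cast this)

/-- `w` = the coefficients of `∏_{m ≤ A} ((1 + X + ... + X^(m-1)) / m)^A`; the averaged sequence is
annihilated by `(E - 1)^(A²)`, use Newton's forward formula. -/
theorem averaged (A : ℕ) (hA : 1 ≤ A) : ∃ w : ℕ → ℝ, (∀ i, 0 ≤ w i) ∧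
    ∑ i ∈ range (3 * A ^ 3 + 1), w i = 1 ∧ ∀ (L : ℕ) (r : ℕ → ℤ),
      (∀ n, n + 3 * A ^ 3 ≤ L →
        ∑ j ∈ range (3 * A ^ 3 + 1), (Wp A).coeff j * r (n + j) = 0) →
      ∃ p : Polynomial ℝ, p.natDegree < A ^ 2 ∧ ∀ n, n + 3 * A ^ 3 ≤ L →
        ∑ i ∈ range (3 * A ^ 3 + 1), w i * (r (n + i) : ℝ) = p.eval (n : ℝ) := by
  classical
  set N := 3 * A ^ 3 with hN
  set M := A ^ 2 with hM
  have hMpos : 0 < M := by positivity
  have hK := RecurB_K A
  have hWpdeg := RecurB_Wp_natDegree A hA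
  rw [RecurB_factor, natDegree_C_mul hK] at hWpdeg
  have hX1 : (X - 1 : Polynomial ℝ) ≠ 0 := by
    have := X_sub_C_ne_zero (1 : ℝ)
    rwa [C_1] at this
  have hW0 : RecurB_W A ≠ 0 := by
    intro h
    have := RecurB_W_eval A
    rw [h, eval_zero] at this
    exact zero_ne_one this
  have hWdeg : (RecurB_W A).natDegree ≤ N := by
    rw [natDegree_mul (pow_ne_zero _ hX1) hW0] at hWpdeg
    omega
  refine ⟨fun i => (RecurB_W A).coeff i, RecurB_W_nonneg A, ?_, ?_⟩
  · have h1 := eval_eq_sum_range' (Nat.lt_succ_of_le hWdeg) (1 : ℝ)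
    rw [RecurB_W_eval] at h1
    simpa using h1.symm
  intro L r hr
  set s : ℕ → ℝ := fun n => (r n : ℝ) with hs
  set u : ℕ → ℝ := (aeval RecurB_E (RecurB_W A)) s with hu
  have hu' : ∀ n, u n = ∑ i ∈ range (N + 1), (RecurB_W A).coeff i * s (n + i) :=
    fun n => RecurB_aeval _ N hWdeg s n
  have hdiff : ∀ n, n + N ≤ L → (fwdDiff 1)^[M] u n = 0 := by
    intro n hn
    have h1 : (aeval RecurB_E ((Wp A).map (Int.castRingHom ℝ))) s n = 0 := by
      rw [RecurB_aeval _ N (RecurB_Wp_natDegree A hA)]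
      have h2 := hr n hn
      have h3 : ((∑ j ∈ range (N + 1), (Wp A).coeff j * r (n + j) : ℤ) : ℝ) = 0 := by
        rw [h2, Int.cast_zero]
      rw [Int.cast_sum] at h3
      rw [← h3]
      refine Finset.sum_congr rfl ?_
      intro j _
      rw [coeff_map, Int.cast_mul]
      rfl
    rw [RecurB_factor, map_mul, Module.End.mul_apply, aeval_C, Module.algebraMap_end_apply,
      Pi.smul_apply, smul_eq_mul, map_mul, Module.End.mul_apply, ← hu, ← hM, RecurB_fwd] at h1
    exact (mul_eq_zero.1 h1).resolve_left hK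
  have hdiff2 : ∀ k n, M ≤ k → k ≤ n → n + N ≤ L → (fwdDiff 1)^[k] u 0 = 0 := by
    intro k n hMk hkn hn
    obtain ⟨d, rfl⟩ := Nat.exists_eq_add_of_le hMk
    rw [add_comm M d, Function.iterate_add_apply, fwdDiff_iter_eq_sum_shift]
    refine Finset.sum_eq_zero ?_
    intro j hj
    have hj' := Finset.mem_range.1 hj
    have h0 : (0 : ℕ) + j • 1 = j := by simp
    rw [h0, hdiff j (by omega), smul_zero]
  refine ⟨∑ k ∈ range M, C ((fwdDiff 1)^[k] u 0 / (k.factorial : ℝ)) * descPochhammer ℝ k, ?_, ?_⟩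
  · refine lt_of_le_of_lt (natDegree_sum_le_of_forall_le (n := M - 1) _ _ ?_) (by omega)
    intro k hk
    have hk' := Finset.mem_range.1 hk
    refine (natDegree_C_mul_le _ _).trans ?_
    rw [descPochhammer_natDegree]
    omega
  · intro n hn
    have h1 : u n = ∑ k ∈ range (n + 1), n.choose k • (fwdDiff 1)^[k] u 0 := by
      have := shift_eq_sum_fwdDiff_iter (1 : ℕ) u n 0
      simpa using this
    have h2 : ∑ i ∈ range (N + 1), (RecurB_W A).coeff i * (r (n + i) : ℝ) = u n := (hu' n).symm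
    rw [h2, h1, eval_finsetSum]
    have h3 : ∀ k, eval (n : ℝ) (C ((fwdDiff 1)^[k] u 0 / (k.factorial : ℝ)) * descPochhammer ℝ k) =
        n.choose k • (fwdDiff 1)^[k] u 0 := by
      intro k
      rw [eval_mul, eval_C, descPochhammer_eval_eq_descFactorial, nsmul_eq_mul]
      have h4 : (n.descFactorial k : ℝ) = (k.factorial : ℝ) * (n.choose k : ℝ) := by
        exact_mod_cast Nat.descFactorial_eq_factorial_mul_choose n k
      have h5 : (k.factorial : ℝ) ≠ 0 := by exact_mod_cast Nat.factorial_ne_zero k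
      rw [h4]
      field_simp
    rw [Finset.sum_congr rfl (fun k _ => h3 k)]
    rcases le_total (n + 1) M with h6 | h6
    · refine Finset.sum_subset (Finset.range_mono h6) ?_
      intro k _ hk
      have hk' : n < k := by
        by_contra hcon
        exact hk (Finset.mem_range.2 (by omega))
      rw [Nat.choose_eq_zero_of_lt hk', zero_smul]
    · symm
      refine Finset.sum_subset (Finset.range_mono h6) ?_
      intro k hk hk2
      have h7 := Finset.mem_range.1 hk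
      have h8 : M ≤ k := by
        by_contra hcon
        exact hk2 (Finset.mem_range.2 (by omega))
      rw [hdiff2 k n h8 (by omega) hn, smul_zero]

theorem averaged_poly (A : ℕ) (hA : 1 ≤ A) : ∃ w : ℕ → ℝ, (∀ i, 0 ≤ w i) ∧
    ∑ i ∈ range (3 * A ^ 3 + 1), w i = 1 ∧
    ∀ c : ℕ → ℤ, c 0 ≠ 0 → c A ≠ 0 → ∀ (L : ℕ) (r : ℕ → ℤ),
      (∀ t, 1 ≤ t → t ≤ A + 1 → ∀ n, n + t * A ≤ L →
        ∑ i ∈ range (A + 1), c i * r (n + t * i) = 0) →
      ∃ p : Polynomial ℝ, p.natDegree < A ^ 2 ∧ ∀ n, n + 3 * A ^ 3 ≤ L →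
        ∑ i ∈ range (3 * A ^ 3 + 1), w i * (r (n + i) : ℝ) = p.eval (n : ℝ) := by
  obtain ⟨w, hw0, hw1, hw⟩ := averaged A hA
  exact ⟨w, hw0, hw1, fun c hc0 hcA L r hr => hw L r (annihilate A hA c hc0 hcA L r hr)⟩

end Pool.Agent.H61.Rot
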