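import Pool.Agent.H61.Rot.Pte
import Pool.Agent.H61.Rot.RecurB
import Pool.Agent.H61.Rot.Lag
import Pool.Agent.H61.Rot.Angle

/-!
**Key lemma.** For every integer `μ ≠ 0`, `|μ| ≤ 2^ℓ`, one of the numbers `μ arg (n + ω) / π`,
`n ≤ (ℓ+1)^E`, has distance at least `(ℓ+1)^(-E)` from the nearest integer.
-/

set_option autoImplicit false

namespace Pool.Agent.H61.Rot

open Finset Pool.Agent.H73.Cub

/-- Size of the parameters. -/
lemma phase_param (B A : ℕ) (hB : 2 ≤ B) (hA : A ≤ 8192 * B ^ 3) :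
    100 * (A ^ 2 + 1) * (2 + 3 * A ^ 3) * (A ^ 2 + 1) ^ 3 * 10 + 3 * A ^ 3 + 2 * (A + 1) + 2 ≤
      B ^ 200 := by
  have h13 : 8192 ≤ B ^ 13 := by
    calc 8192 = 2 ^ 13 := by norm_num
      _ ≤ B ^ 13 := Nat.pow_le_pow_left hB 13
  have hA1 : A ≤ B ^ 16 := by
    calc A ≤ 8192 * B ^ 3 := hA
      _ ≤ B ^ 13 * B ^ 3 := Nat.mul_le_mul_right _ h13
      _ = B ^ 16 := by ring
  have hB1 : 1 ≤ B := by omega
  have hp : ∀ k, 1 ≤ B ^ k := fun k => Nat.one_le_pow _ _ hB1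
  have hm : A ^ 2 + 1 ≤ B ^ 33 := by
    calc A ^ 2 + 1 ≤ (B ^ 16) ^ 2 + (B ^ 16) ^ 2 := Nat.add_le_add (Nat.pow_le_pow_left hA1 2)
          (Nat.one_le_pow _ _ (hp 16))
      _ = 2 * B ^ 32 := by ring
      _ ≤ B * B ^ 32 := Nat.mul_le_mul_right _ hB
      _ = B ^ 33 := by ring
  have hs : 2 + 3 * A ^ 3 ≤ B ^ 51 := by
    have h1 : A ^ 3 ≤ (B ^ 16) ^ 3 := Nat.pow_le_pow_left hA1 3
    have h2 : 1 ≤ (B ^ 16) ^ 3 := Nat.one_le_pow _ _ (hp 16)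
    have h3 : 8 ≤ B ^ 3 := by
      calc 8 = 2 ^ 3 := by norm_num
        _ ≤ B ^ 3 := Nat.pow_le_pow_left hB 3
    calc 2 + 3 * A ^ 3 ≤ 8 * (B ^ 16) ^ 3 := by omega
      _ ≤ B ^ 3 * (B ^ 16) ^ 3 := Nat.mul_le_mul_right _ h3
      _ = B ^ 51 := by ring
  have h10 : 1000 ≤ B ^ 10 := by
    calc 1000 ≤ 2 ^ 10 := by norm_num
      _ ≤ B ^ 10 := Nat.pow_le_pow_left hB 10
  have e1 : 100 * (A ^ 2 + 1) * (2 + 3 * A ^ 3) * (A ^ 2 + 1) ^ 3 * 10 ≤ B ^ 193 := by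
    calc 100 * (A ^ 2 + 1) * (2 + 3 * A ^ 3) * (A ^ 2 + 1) ^ 3 * 10
        = 1000 * (A ^ 2 + 1) * (2 + 3 * A ^ 3) * (A ^ 2 + 1) ^ 3 := by ring
      _ ≤ B ^ 10 * B ^ 33 * B ^ 51 * (B ^ 33) ^ 3 := by gcongr
      _ = B ^ 193 := by ring
  have e2 : 3 * A ^ 3 ≤ B ^ 193 := by
    calc 3 * A ^ 3 ≤ 2 + 3 * A ^ 3 := by omega
      _ ≤ B ^ 51 := hs
      _ ≤ B ^ 193 := Nat.pow_le_pow_right hB1 (by norm_num)
  have e3 : A ≤ B ^ 193 := hA1.trans (Nat.pow_le_pow_right hB1 (by norm_num))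
  have e4 := hp 193
  have e5 : 16 ≤ B ^ 4 := by
    calc 16 = 2 ^ 4 := by norm_num
      _ ≤ B ^ 4 := Nat.pow_le_pow_left hB 4
  calc 100 * (A ^ 2 + 1) * (2 + 3 * A ^ 3) * (A ^ 2 + 1) ^ 3 * 10 + 3 * A ^ 3 + 2 * (A + 1) + 2
      ≤ 16 * B ^ 193 := by omega
    _ ≤ B ^ 4 * B ^ 193 := Nat.mul_le_mul_right _ e5
    _ = B ^ 197 := by ring
    _ ≤ B ^ 200 := Nat.pow_le_pow_right hB1 (by norm_num)

lemma phase_four (ℓ A : ℕ) (hA : A ≤ 16 * (4 * (ℓ + 3)) ^ 3) :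
    ((2 : ℝ) ^ ℓ) * (2 * ((A : ℝ) + 1)) * (1 / 4) ^ (4 * (ℓ + 3)) ≤ 1 / 8 := by
  have hs : ℓ + 3 ≤ 2 ^ (ℓ + 3) := (Nat.lt_two_pow_self (n := ℓ + 3)).le
  have h1 : A + 1 ≤ 17 * 64 * (2 ^ (ℓ + 3)) ^ 3 := by
    have h2 : (ℓ + 3) ^ 3 ≤ (2 ^ (ℓ + 3)) ^ 3 := Nat.pow_le_pow_left hs 3
    have h3 : 1 ≤ (ℓ + 3) ^ 3 := Nat.one_le_pow _ _ (by omega)
    have h4 : (4 * (ℓ + 3)) ^ 3 = 64 * (ℓ + 3) ^ 3 := by ring
    rw [h4] at hA
    omega
  have h2 : ((A : ℝ) + 1) ≤ 17 * 64 * (2 ^ (ℓ + 3)) ^ 3 := by exact_mod_cast h1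
  have h4 : ((1 : ℝ) / 4) ^ (4 * (ℓ + 3)) = 1 / ((2 ^ ℓ) ^ 8 * 2 ^ 24) := by
    rw [div_pow, one_pow]
    congr 1
    rw [show (4 : ℝ) = 2 ^ 2 by norm_num, ← pow_mul, ← pow_mul, ← pow_add]
    congr 1; ring
  rw [h4, mul_one_div, div_le_iff₀ (by positivity)]
  have hx : (1 : ℝ) ≤ 2 ^ ℓ := one_le_pow₀ (by norm_num)
  set x : ℝ := 2 ^ ℓ with hxdef
  have h5 : ((2 : ℝ) ^ (ℓ + 3)) ^ 3 = x ^ 3 * 2 ^ 9 := by
    rw [hxdef, pow_add, mul_pow, ← pow_mul, ← pow_mul]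
  rw [h5] at h2
  have h6 : x ^ 4 ≤ x ^ 8 := pow_le_pow_right₀ hx (by norm_num)
  have hx0 : 0 < x := by linarith
  calc x * (2 * ((A : ℝ) + 1)) ≤ x * (2 * (17 * 64 * (x ^ 3 * 2 ^ 9))) := by gcongr
    _ = (2 * 17 * 64 * 2 ^ 9) * x ^ 4 := by ring
    _ ≤ (2 * 17 * 64 * 2 ^ 9) * x ^ 8 := by gcongr
    _ ≤ 1 / 8 * (x ^ 8 * 2 ^ 24) := by
        have : 0 ≤ x ^ 8 := by positivity
        nlinarith

theorem phase : ∃ E : ℕ, ∀ ℓ : ℕ, 1 ≤ ℓ → ∀ μ : ℤ, μ ≠ 0 → |μ| ≤ 2 ^ ℓ →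
    ∃ n : ℕ, 1 ≤ n ∧ n ≤ (ℓ + 1) ^ E ∧
      ∀ m : ℤ, 1 / ((ℓ : ℝ) + 1) ^ E ≤ |(μ : ℝ) * th n / Real.pi - m| := by
  refine ⟨200, fun ℓ hℓ μ hμ0 hμ => ?_⟩
  obtain ⟨T, hT⟩ : ∃ T : ℕ, T = (ℓ + 1) ^ 200 := ⟨_, rfl⟩
  have hTR : ((ℓ : ℝ) + 1) ^ 200 = (T : ℝ) := by rw [hT]; push_cast; rfl
  rw [hTR, ← hT]
  by_contra hcon
  push Not at hcon
  obtain ⟨A, c, hA1, hAJ, hc0, hcA, hcz, hc1, hmom⟩ := pte (4 * (ℓ + 3)) (by omega)
  have hfour := phase_four ℓ A hAJ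
  have hAB : A ≤ 8192 * (ℓ + 1) ^ 3 := by
    have h1 : (4 * (ℓ + 3)) ^ 3 ≤ (8 * (ℓ + 1)) ^ 3 := Nat.pow_le_pow_left (by omega) 3
    have h2 : (8 * (ℓ + 1)) ^ 3 = 512 * (ℓ + 1) ^ 3 := by ring
    omega
  have hpar := phase_param (ℓ + 1) A (by omega) hAB
  rw [← hT] at hpar
  have hTpos : (0 : ℝ) < T := by
    rw [← hTR]; positivity
  clear hTR hT
  set m : ℕ := A ^ 2 + 1 with hm
  set N0 : ℕ := 100 * m * (2 + 3 * A ^ 3) with hN0
  set η : ℝ := 1 / (T : ℝ) with hη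
  have hη0 : 0 < η := by rw [hη]; positivity
  have hBη : (T : ℝ) * η = 1 := by
    rw [hη]; field_simp
  -- consequences of the size inequality
  have hm1 : 1 ≤ m := by omega
  have hN0pos : 1 ≤ N0 := by
    rw [hN0]
    exact Nat.mul_pos (Nat.mul_pos (by norm_num) hm1) (by omega)
  have hm3 : 1 ≤ m ^ 3 := Nat.one_le_pow _ _ hm1
  have hm23 : m ^ 2 ≤ m ^ 3 := Nat.pow_le_pow_right hm1 (by norm_num)
  have hsize1 : N0 * m ^ 2 + 3 * A ^ 3 ≤ T := by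
    have h1 : N0 * m ^ 2 ≤ N0 * m ^ 3 := Nat.mul_le_mul_left _ hm23
    have h2 : N0 * m ^ 3 ≤ N0 * m ^ 3 * 10 := Nat.le_mul_of_pos_right _ (by norm_num)
    omega
  have hη1 : 10 * ((N0 : ℝ) * (m : ℝ) ^ 3) * η ≤ 1 := by
    have h1 : N0 * m ^ 3 * 10 ≤ T := by omega
    have h2 : (N0 : ℝ) * (m : ℝ) ^ 3 * 10 ≤ (T : ℝ) := by exact_mod_cast h1
    calc 10 * ((N0 : ℝ) * (m : ℝ) ^ 3) * η = ((N0 : ℝ) * (m : ℝ) ^ 3 * 10) * η := by ring
      _ ≤ (T : ℝ) * η := by gcongr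
      _ = 1 := hBη
  have hη2 : ((A : ℝ) + 1) * η ≤ 1 / 2 := by
    have h1 : 2 * (A + 1) ≤ T := by omega
    have h2 : 2 * ((A : ℝ) + 1) ≤ (T : ℝ) := by exact_mod_cast h1
    have h3 : 2 * ((A : ℝ) + 1) * η ≤ (T : ℝ) * η := by gcongr
    rw [hBη] at h3
    linarith
  -- the nearest integers
  set φ : ℕ → ℝ := fun n => (μ : ℝ) * th n / Real.pi with hφ
  set r : ℕ → ℤ := fun n => round (φ n) with hr
  have hrφ : ∀ n, 1 ≤ n → n ≤ T → |(r n : ℝ) - φ n| ≤ η := by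
    intro n h1 h2
    obtain ⟨k, hk⟩ := hcon n h1 h2
    have h3 : |φ n - (r n : ℝ)| ≤ |φ n - k| := round_le _ _
    rw [abs_sub_comm]
    exact h3.trans hk.le
  have hπ := Real.pi_gt_three
  have hπ0 : 0 < Real.pi := Real.pi_pos
  have hμR : |(μ : ℝ)| ≤ 2 ^ ℓ := by exact_mod_cast hμ
  have hμ1 : 1 ≤ |(μ : ℝ)| := by
    have : 1 ≤ |μ| := Int.one_le_abs hμ0
    exact_mod_cast this
  -- Step 1: recurrences
  have hA2 : 16 * A ^ 2 ≤ N0 := by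
    rw [hN0, hm]
    have : 0 ≤ A ^ 3 := Nat.zero_le _
    nlinarith [Nat.zero_le (A ^ 2), Nat.zero_le ((A ^ 2 + 1) * A ^ 3)]
  have hAA : A ≤ A ^ 2 := by nlinarith
  set L : ℕ := N0 * (m ^ 2 - 1) + 3 * A ^ 3 with hL
  have hm2 : 1 ≤ m ^ 2 := Nat.one_le_pow _ _ hm1
  have hL2 : N0 + L = N0 * m ^ 2 + 3 * A ^ 3 := by
    rw [hL]
    obtain ⟨q, hq⟩ : ∃ q, m ^ 2 = q + 1 := ⟨m ^ 2 - 1, by omega⟩
    rw [hq]
    simp only [Nat.add_sub_cancel]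
    ring
  have hrec : ∀ t, 1 ≤ t → t ≤ A + 1 → ∀ n, n + t * A ≤ L →
      ∑ i ∈ range (A + 1), c i * r (N0 + (n + t * i)) = 0 := by
    intro t ht1 ht2 n hn
    have hsumφ : |∑ i ∈ range (A + 1), (c i : ℝ) * φ (N0 + (n + t * i))| ≤ 1 / 8 := by
      have h4 : 4 * (t * A) ≤ N0 + n := by nlinarith
      have hN1 : 1 ≤ N0 + n := by omega
      have h := th_comb (4 * (ℓ + 3)) A t c (by omega) hc1 hmom (N0 + n) hN1 h4
      have e1 : ∑ i ∈ range (A + 1), (c i : ℝ) * φ (N0 + (n + t * i)) =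
          (μ : ℝ) / Real.pi * ∑ i ∈ range (A + 1), (c i : ℝ) * th ((N0 + n + t * i : ℕ) : ℝ) := by
        rw [mul_sum]
        refine sum_congr rfl fun i _ => ?_
        simp only [hφ]
        rw [← add_assoc]
        ring
      rw [e1, abs_mul]
      have h5 : |(μ : ℝ) / Real.pi| ≤ 2 ^ ℓ := by
        rw [abs_div, abs_of_pos hπ0, div_le_iff₀ hπ0]
        calc |(μ : ℝ)| ≤ 2 ^ ℓ := hμR
          _ = 2 ^ ℓ * 1 := (mul_one _).symm
          _ ≤ 2 ^ ℓ * Real.pi := by gcongr; linarith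
      have h6 : (2 * ((t * A : ℕ) : ℝ) / ((N0 + n : ℕ) : ℝ)) ≤ 1 / 4 := by
        rw [div_le_iff₀ (by exact_mod_cast hN1)]
        have : 8 * (t * A) ≤ N0 + n := by nlinarith
        have h7 : 8 * ((t * A : ℕ) : ℝ) ≤ ((N0 + n : ℕ) : ℝ) := by exact_mod_cast this
        linarith
      have h8 : (2 * ((t * A : ℕ) : ℝ) / ((N0 + n : ℕ) : ℝ)) ^ (4 * (ℓ + 3)) ≤
          (1 / 4) ^ (4 * (ℓ + 3)) := pow_le_pow_left₀ (by positivity) h6 _
      calc |(μ : ℝ) / Real.pi| * |∑ i ∈ range (A + 1), (c i : ℝ) * th ((N0 + n + t * i : ℕ) : ℝ)|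
          ≤ 2 ^ ℓ * (2 * ((A : ℝ) + 1) * (1 / 4) ^ (4 * (ℓ + 3))) := by
            refine mul_le_mul h5 (h.trans ?_) (abs_nonneg _) (by positivity)
            gcongr
        _ = ((2 : ℝ) ^ ℓ) * (2 * ((A : ℝ) + 1)) * (1 / 4) ^ (4 * (ℓ + 3)) := by ring
        _ ≤ 1 / 8 := hfour
    have hdiff : |∑ i ∈ range (A + 1), (c i : ℝ) *
        ((r (N0 + (n + t * i)) : ℝ) - φ (N0 + (n + t * i)))| ≤ 1 / 2 := by
      refine (abs_sum_le_sum_abs _ _).trans ?_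
      have : ∀ i ∈ range (A + 1), |(c i : ℝ) *
          ((r (N0 + (n + t * i)) : ℝ) - φ (N0 + (n + t * i)))| ≤ η := by
        intro i hi
        have hiA : i ≤ A := by have := mem_range.1 hi; omega
        have hti : t * i ≤ t * A := Nat.mul_le_mul_left _ hiA
        rw [abs_mul]
        have hci : |(c i : ℝ)| ≤ 1 := by exact_mod_cast hc1 i
        have h9 := hrφ (N0 + (n + t * i)) (by omega) (by omega)
        calc |(c i : ℝ)| * |(r (N0 + (n + t * i)) : ℝ) - φ (N0 + (n + t * i))| ≤ 1 * η :=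
              mul_le_mul hci h9 (abs_nonneg _) zero_le_one
          _ = η := one_mul _
      refine (sum_le_card_nsmul _ _ _ this).trans ?_
      rw [card_range, nsmul_eq_mul]
      push_cast
      exact hη2
    have hint : |((∑ i ∈ range (A + 1), c i * r (N0 + (n + t * i)) : ℤ) : ℝ)| < 1 := by
      have e2 : ((∑ i ∈ range (A + 1), c i * r (N0 + (n + t * i)) : ℤ) : ℝ) =
          ∑ i ∈ range (A + 1), (c i : ℝ) *
            ((r (N0 + (n + t * i)) : ℝ) - φ (N0 + (n + t * i))) +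
          ∑ i ∈ range (A + 1), (c i : ℝ) * φ (N0 + (n + t * i)) := by
        push_cast
        rw [← sum_add_distrib]
        refine sum_congr rfl fun i _ => ?_
        ring
      rw [e2]
      refine (abs_add_le _ _).trans_lt ?_
      linarith
    have hint2 : |∑ i ∈ range (A + 1), c i * r (N0 + (n + t * i))| < 1 := by exact_mod_cast hint
    exact Int.abs_lt_one_iff.1 hint2
  -- Step 2: averaged polynomial
  obtain ⟨w, hw0, hw1, hwp⟩ := averaged_poly A hA1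
  obtain ⟨p, hpdeg, hp⟩ := hwp c hc0 hcA L (fun n => r (N0 + n)) hrec
  -- Step 3: the polynomial `Q`
  set κ : ℝ := Real.sqrt 3 / 2 with hκ
  have h3 : Real.sqrt 3 * Real.sqrt 3 = 3 := Real.mul_self_sqrt (by norm_num)
  have hs0 : 0 ≤ Real.sqrt 3 := Real.sqrt_nonneg 3
  have hκ1 : κ ≤ 1 := by rw [hκ]; nlinarith
  have hκ2 : 0.8 ≤ κ := by rw [hκ]; nlinarith
  set Q : Polynomial ℝ := Polynomial.X * p.comp (Polynomial.X - Polynomial.C (N0 : ℝ)) -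
    Polynomial.C ((μ : ℝ) * κ / Real.pi) with hQ
  have hQdeg : Q.natDegree < m := by
    have hcomp : (p.comp (Polynomial.X - Polynomial.C (N0 : ℝ))).natDegree ≤ p.natDegree := by
      refine (Polynomial.natDegree_comp_le).trans ?_
      rw [Polynomial.natDegree_X_sub_C, mul_one]
    have h1 : (Polynomial.X * p.comp (Polynomial.X - Polynomial.C (N0 : ℝ))).natDegree ≤ A ^ 2 := by
      refine (Polynomial.natDegree_mul_le).trans ?_
      rw [Polynomial.natDegree_X]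
      omega
    have h2 : Q.natDegree ≤ A ^ 2 := by
      refine (Polynomial.natDegree_sub_le _ _).trans ?_
      rw [Polynomial.natDegree_C]
      exact max_le h1 (Nat.zero_le _)
    omega
  have hQeval : ∀ x : ℝ, Q.eval x = x * p.eval (x - N0) - (μ : ℝ) * κ / Real.pi := by
    intro x
    simp [hQ, Polynomial.eval_comp]
  have hN0R : (1 : ℝ) ≤ N0 := by exact_mod_cast hN0pos
  set U : ℝ := |(μ : ℝ)| / Real.pi with hU
  have hU0 : 0 ≤ U := by positivity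
  have hbound : ∀ i : ℕ, 1 ≤ i → i ≤ m → |Q.eval ((N0 : ℝ) * (i : ℝ) ^ 2)| ≤
      (N0 : ℝ) * (m : ℝ) ^ 2 * η + U * (2 + 3 * (A : ℝ) ^ 3) / N0 := by
    intro i hi1 hi2
    have hi2' : i ^ 2 ≤ m ^ 2 := Nat.pow_le_pow_left hi2 2
    have hi1' : 1 ≤ i ^ 2 := Nat.one_le_pow _ _ hi1
    set x : ℕ := N0 * i ^ 2 with hx
    have hxN0 : N0 ≤ x := Nat.le_mul_of_pos_right _ hi1'
    have hxup : x ≤ N0 * m ^ 2 := Nat.mul_le_mul_left _ hi2'
    have hx1 : (1 : ℝ) ≤ x := by exact_mod_cast hN0pos.trans hxN0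
    have hxR : ((N0 : ℝ) * (i : ℝ) ^ 2) = (x : ℝ) := by rw [hx]; push_cast; ring
    rw [hxR, hQeval]
    have hpx := hp (x - N0) (by omega)
    have hxsub : (((x - N0 : ℕ) : ℕ) : ℝ) = (x : ℝ) - N0 := by
      rw [Nat.cast_sub hxN0]
    rw [hxsub] at hpx
    -- compare
    have hcmp : |p.eval ((x : ℝ) - N0) - (μ : ℝ) * κ / Real.pi / x| ≤
        η + U * (2 + 3 * (A : ℝ) ^ 3) / (x : ℝ) ^ 2 := by
      have e3 : p.eval ((x : ℝ) - N0) - (μ : ℝ) * κ / Real.pi / x =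
          ∑ j ∈ range (3 * A ^ 3 + 1), w j * ((r (x + j) : ℝ) - (μ : ℝ) * κ / Real.pi / x) := by
        rw [← hpx]
        simp only [mul_sub]
        rw [sum_sub_distrib, ← sum_mul, hw1, one_mul]
        congr 1
        refine sum_congr rfl fun j _ => ?_
        congr 3
        omega
      rw [e3]
      refine (abs_sum_le_sum_abs _ _).trans ?_
      have hterm : ∀ j ∈ range (3 * A ^ 3 + 1),
          |w j * ((r (x + j) : ℝ) - (μ : ℝ) * κ / Real.pi / x)| ≤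
          w j * (η + U * (2 + 3 * (A : ℝ) ^ 3) / (x : ℝ) ^ 2) := by
        intro j hj
        have hj' : j ≤ 3 * A ^ 3 := by have := mem_range.1 hj; omega
        rw [abs_mul, abs_of_nonneg (hw0 j)]
        refine mul_le_mul_of_nonneg_left ?_ (hw0 j)
        have hx0 : (0 : ℝ) < x := by linarith
        have hy1 : (1 : ℝ) ≤ ((x + j : ℕ) : ℝ) := by push_cast; linarith [Nat.cast_nonneg (α := ℝ) j]
        have hj0 : (0 : ℝ) ≤ j := Nat.cast_nonneg j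
        have a1 := hrφ (x + j) (by omega) (by omega)
        have a2 := th_approx hy1
        have a3 : |κ / ((x + j : ℕ) : ℝ) - κ / x| ≤ (j : ℝ) / (x : ℝ) ^ 2 := by
          push_cast
          have e4 : κ / ((x : ℝ) + j) - κ / x = - (κ * j / (((x : ℝ) + j) * x)) := by
            field_simp
            ring
          rw [e4, abs_neg, abs_of_nonneg (by positivity)]
          rw [div_le_div_iff₀ (by positivity) (by positivity)]
          have : κ * j ≤ 1 * j := mul_le_mul_of_nonneg_right hκ1 hj0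
          have h9 : (x : ℝ) ^ 2 ≤ ((x : ℝ) + j) * x := by nlinarith
          calc κ * j * (x : ℝ) ^ 2 ≤ 1 * j * (((x : ℝ) + j) * x) := by gcongr
            _ = (j : ℝ) * (((x : ℝ) + j) * x) := by ring
        have a4 : |φ (x + j) - (μ : ℝ) * κ / Real.pi / x| ≤ U * (2 + 3 * (A : ℝ) ^ 3) / (x : ℝ) ^ 2 := by
          have e5 : φ (x + j) - (μ : ℝ) * κ / Real.pi / x =
              (μ : ℝ) / Real.pi * ((th ((x + j : ℕ) : ℝ) - κ / ((x + j : ℕ) : ℝ)) +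
                (κ / ((x + j : ℕ) : ℝ) - κ / x)) := by
            simp only [hφ]; ring
          rw [e5, abs_mul, abs_div, abs_of_pos hπ0, ← hU]
          rw [mul_div_assoc]
          refine mul_le_mul_of_nonneg_left ?_ hU0
          refine (abs_add_le _ _).trans ?_
          have hjA : (j : ℝ) ≤ 3 * (A : ℝ) ^ 3 := by exact_mod_cast hj'
          have a5 : 2 / ((x + j : ℕ) : ℝ) ^ 2 ≤ 2 / (x : ℝ) ^ 2 := by
            have : (x : ℝ) ≤ ((x + j : ℕ) : ℝ) := by push_cast; linarith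
            gcongr
          have a6 : (j : ℝ) / (x : ℝ) ^ 2 ≤ 3 * (A : ℝ) ^ 3 / (x : ℝ) ^ 2 := by gcongr
          rw [add_div]
          exact add_le_add (a2.trans a5) (a3.trans a6)
        have e6 : (r (x + j) : ℝ) - (μ : ℝ) * κ / Real.pi / x =
            ((r (x + j) : ℝ) - φ (x + j)) + (φ (x + j) - (μ : ℝ) * κ / Real.pi / x) := by ring
        rw [e6]
        exact (abs_add_le _ _).trans (add_le_add a1 a4)
      refine (sum_le_sum hterm).trans ?_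
      rw [← sum_mul, hw1, one_mul]
    have hx0 : (0 : ℝ) < x := by linarith
    have e7 : (x : ℝ) * p.eval ((x : ℝ) - N0) - (μ : ℝ) * κ / Real.pi =
        x * (p.eval ((x : ℝ) - N0) - (μ : ℝ) * κ / Real.pi / x) := by
      field_simp
    rw [e7, abs_mul, abs_of_pos hx0]
    calc (x : ℝ) * |p.eval ((x : ℝ) - N0) - (μ : ℝ) * κ / Real.pi / x| ≤
          x * (η + U * (2 + 3 * (A : ℝ) ^ 3) / (x : ℝ) ^ 2) := by gcongr
      _ = x * η + U * (2 + 3 * (A : ℝ) ^ 3) / x := by field_simp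
      _ ≤ (N0 : ℝ) * (m : ℝ) ^ 2 * η + U * (2 + 3 * (A : ℝ) ^ 3) / N0 := by
          have b1 : (x : ℝ) ≤ (N0 : ℝ) * (m : ℝ) ^ 2 := by exact_mod_cast hxup
          have b2 : (N0 : ℝ) ≤ x := by exact_mod_cast hxN0
          gcongr
  have hfin := extrapolate m hm1 Q hQdeg (N0 : ℝ) _ (by linarith) hbound
  rw [hQeval, zero_mul, zero_sub, abs_neg] at hfin
  have e8 : |(μ : ℝ) * κ / Real.pi| = U * κ := by
    rw [abs_div, abs_mul, abs_of_pos hπ0, abs_of_pos (by linarith : (0 : ℝ) < κ), hU]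
    ring
  rw [e8] at hfin
  have hN0eq : (N0 : ℝ) = 100 * (m : ℝ) * (2 + 3 * (A : ℝ) ^ 3) := by
    rw [hN0]; push_cast; ring
  have hmpos : (0 : ℝ) < m := by exact_mod_cast hm1
  have hApos : (0 : ℝ) < 2 + 3 * (A : ℝ) ^ 3 := by positivity
  have e9 : 2 * (m : ℝ) * (U * (2 + 3 * (A : ℝ) ^ 3) / N0) = U / 50 := by
    rw [hN0eq]; field_simp; ring
  have e10 : 2 * (m : ℝ) * ((N0 : ℝ) * (m : ℝ) ^ 2 * η) ≤ 1 / 5 := by
    calc 2 * (m : ℝ) * ((N0 : ℝ) * (m : ℝ) ^ 2 * η) = (10 * ((N0 : ℝ) * (m : ℝ) ^ 3) * η) / 5 := by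
          ring
      _ ≤ 1 / 5 := by gcongr
  have e11 : U * κ ≤ 1 / 5 + U / 50 := by
    calc U * κ ≤ 2 * (m : ℝ) * ((N0 : ℝ) * (m : ℝ) ^ 2 * η + U * (2 + 3 * (A : ℝ) ^ 3) / N0) := hfin
      _ = 2 * (m : ℝ) * ((N0 : ℝ) * (m : ℝ) ^ 2 * η) +
          2 * (m : ℝ) * (U * (2 + 3 * (A : ℝ) ^ 3) / N0) := by ring
      _ ≤ 1 / 5 + U / 50 := by rw [e9]; linarith
  have hU1 : 1 / 3.15 ≤ U := by
    rw [hU, div_le_div_iff₀ (by norm_num) hπ0]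
    have := Real.pi_lt_d2
    nlinarith
  nlinarith

end Pool.Agent.H61.Rot
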