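import Mathlib

/-!
Prouhet-Tarry-Escott solutions by the pigeonhole principle: coefficients `-1, 0, 1`, length
`O(J^3)`, all moments of order `< J` vanish.
-/

set_option autoImplicit false

namespace Pool.Agent.H61.Rot

open Finset

/-- the counting inequality of the pigeonhole argument -/
theorem pte_count (J : ℕ) (hJ : 1 ≤ J) :
    ∏ l ∈ range J, ((16 * J ^ 3) ^ (l + 1) + 1) < 2 ^ (16 * J ^ 3) := by
  have hM : 1 ≤ 16 * J ^ 3 := by
    have : 1 ≤ J ^ 3 := Nat.one_le_pow _ _ hJ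
    omega
  have hM2 : 16 * J ^ 3 ≤ 2 ^ (3 * J + 1) := by
    have h1 : J ≤ 2 ^ (J - 1) := by
      have := @Nat.lt_two_pow_self (J - 1)
      omega
    calc 16 * J ^ 3 ≤ 16 * (2 ^ (J - 1)) ^ 3 := by gcongr
      _ = 2 ^ (4 + (J - 1) * 3) := by
          rw [pow_add, pow_mul]
          norm_num
      _ = 2 ^ (3 * J + 1) := by
          congr 1
          omega
  have h1 : ∀ l ∈ range J, (16 * J ^ 3) ^ (l + 1) + 1 ≤ 2 ^ (1 + (3 * J + 1) * (l + 1)) := by
    intro l _
    have h2 : 1 ≤ (16 * J ^ 3) ^ (l + 1) := Nat.one_le_pow _ _ hM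
    calc (16 * J ^ 3) ^ (l + 1) + 1 ≤ 2 * (16 * J ^ 3) ^ (l + 1) := by omega
      _ ≤ 2 * (2 ^ (3 * J + 1)) ^ (l + 1) := by gcongr
      _ = 2 ^ (1 + (3 * J + 1) * (l + 1)) := by
          rw [← pow_mul, pow_add 2 1, pow_one]
  have h3 : ∑ l ∈ range J, (1 + (3 * J + 1) * (l + 1)) < 16 * J ^ 3 := by
    have h4 : ∀ l ∈ range J, (1 + (3 * J + 1) * (l + 1)) ≤ 1 + (3 * J + 1) * J := by
      intro l hl
      have : l + 1 ≤ J := mem_range.1 hl
      gcongr
    calc ∑ l ∈ range J, (1 + (3 * J + 1) * (l + 1)) ≤ ∑ l ∈ range J, (1 + (3 * J + 1) * J) :=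
          sum_le_sum h4
      _ = J * (1 + (3 * J + 1) * J) := by rw [sum_const, card_range, smul_eq_mul]
      _ < 16 * J ^ 3 := by
          have h5 : J ≤ J ^ 3 := Nat.le_self_pow (by norm_num) J
          have h6 : J ^ 2 ≤ J ^ 3 := Nat.pow_le_pow_right hJ (by norm_num)
          have h7 : 1 ≤ J ^ 3 := Nat.one_le_pow _ _ hJ
          nlinarith
  calc ∏ l ∈ range J, ((16 * J ^ 3) ^ (l + 1) + 1)
      ≤ ∏ l ∈ range J, 2 ^ (1 + (3 * J + 1) * (l + 1)) := prod_le_prod' h1
    _ = 2 ^ (∑ l ∈ range J, (1 + (3 * J + 1) * (l + 1))) := by rw [prod_pow_eq_pow_sum]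
    _ < 2 ^ (16 * J ^ 3) := Nat.pow_lt_pow_right (by norm_num) h3

/-- two different subsets of `range M` with equal moments of order less than `J` -/
theorem pte_sets (J : ℕ) (hJ : 1 ≤ J) : ∃ S ⊆ range (16 * J ^ 3), ∃ T ⊆ range (16 * J ^ 3),
    S ≠ T ∧ ∀ l < J, ∑ i ∈ S, i ^ l = ∑ i ∈ T, i ^ l := by
  classical
  set M := 16 * J ^ 3 with hMdef
  have hcard : (Fintype.piFinset fun l : Fin J => range (M ^ ((l : ℕ) + 1) + 1)).card
      < (range M).powerset.card := by
    rw [Fintype.card_piFinset, card_powerset, card_range]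
    simp only [card_range]
    rw [Fin.prod_univ_eq_prod_range (fun l => M ^ (l + 1) + 1) J]
    exact pte_count J hJ
  have hmap : ∀ S ∈ (range M).powerset, (fun l : Fin J => ∑ i ∈ S, i ^ (l : ℕ)) ∈
      (Fintype.piFinset fun l : Fin J => range (M ^ ((l : ℕ) + 1) + 1)) := by
    intro S hS
    rw [mem_powerset] at hS
    rw [Fintype.mem_piFinset]
    intro l
    rw [mem_range, Nat.lt_succ_iff]
    calc ∑ i ∈ S, i ^ (l : ℕ) ≤ ∑ i ∈ S, M ^ (l : ℕ) := by
          refine sum_le_sum fun i hi => ?_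
          have := mem_range.1 (hS hi)
          exact Nat.pow_le_pow_left this.le _
      _ = S.card * M ^ (l : ℕ) := by rw [sum_const, smul_eq_mul]
      _ ≤ M * M ^ (l : ℕ) := by
          have : S.card ≤ M := by
            have := card_le_card hS
            rwa [card_range] at this
          gcongr
      _ = M ^ ((l : ℕ) + 1) := by rw [pow_succ]; ring
  obtain ⟨S, hS, T, hT, hne, heq⟩ := exists_ne_map_eq_of_card_lt_of_maps_to hcard hmap
  refine ⟨S, mem_powerset.1 hS, T, mem_powerset.1 hT, hne, fun l hl => ?_⟩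
  exact congrFun heq ⟨l, hl⟩

theorem pte (J : ℕ) (hJ : 1 ≤ J) : ∃ (A : ℕ) (c : ℕ → ℤ), 1 ≤ A ∧ A ≤ 16 * J ^ 3 ∧ c 0 ≠ 0 ∧
    c A ≠ 0 ∧ (∀ i, A < i → c i = 0) ∧ (∀ i, |c i| ≤ 1) ∧
    ∀ l < J, ∑ i ∈ range (A + 1), c i * (i : ℤ) ^ l = 0 := by
  classical
  obtain ⟨S, hS, T, hT, hne, hmom⟩ := pte_sets J hJ
  set M := 16 * J ^ 3 with hMdef
  set d : ℕ → ℤ := fun i => (if i ∈ S then 1 else 0) - (if i ∈ T then 1 else 0) with hd
  have hd1 : ∀ i, |d i| ≤ 1 := by
    intro i
    simp only [hd]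
    split_ifs <;> norm_num
  have hdM : ∀ i, i ∉ range M → d i = 0 := by
    intro i hi
    simp only [hd]
    rw [if_neg fun h => hi (hS h), if_neg fun h => hi (hT h), sub_zero]
  set D := (range M).filter fun i => d i ≠ 0 with hD
  have hDne : D.Nonempty := by
    by_contra hcon
    rw [not_nonempty_iff_eq_empty] at hcon
    apply hne
    ext i
    by_cases hi : i ∈ range M
    · have h0 : d i = 0 := by
        by_contra hne0
        have : i ∈ D := mem_filter.2 ⟨hi, hne0⟩
        rw [hcon] at this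
        exact notMem_empty _ this
      simp only [hd] at h0
      by_cases h1 : i ∈ S <;> by_cases h2 : i ∈ T
      · exact ⟨fun _ => h2, fun _ => h1⟩
      · rw [if_pos h1, if_neg h2] at h0
        norm_num at h0
      · rw [if_neg h1, if_pos h2] at h0
        norm_num at h0
      · exact ⟨fun h => absurd h h1, fun h => absurd h h2⟩
    · exact ⟨fun h => absurd (hS h) hi, fun h => absurd (hT h) hi⟩
  have hmomD : ∀ l < J, ∑ i ∈ range M, d i * (i : ℤ) ^ l = 0 := by
    intro l hl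
    have h1 := hmom l hl
    have h2 : ∑ i ∈ range M, d i * (i : ℤ) ^ l
        = (∑ i ∈ S, (i : ℤ) ^ l) - ∑ i ∈ T, (i : ℤ) ^ l := by
      simp only [hd, sub_mul, ite_mul, one_mul, zero_mul]
      rw [sum_sub_distrib, ← sum_filter, ← sum_filter]
      congr 1
      · congr 1
        ext i
        rw [mem_filter]
        exact ⟨fun h => h.2, fun h => ⟨hS h, h⟩⟩
      · congr 1
        ext i
        rw [mem_filter]
        exact ⟨fun h => h.2, fun h => ⟨hT h, h⟩⟩
    rw [h2, sub_eq_zero]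
    exact_mod_cast h1
  set i0 := D.min' hDne with hi0
  set i1 := D.max' hDne with hi1
  have hi0D : i0 ∈ D := min'_mem _ _
  have hi1D : i1 ∈ D := max'_mem _ _
  have hle : i0 ≤ i1 := min'_le _ _ hi1D
  have hlow : ∀ i, i < i0 → d i = 0 := by
    intro i hi
    by_contra hne0
    have hiM : i ∈ range M := by
      by_contra hc
      exact hne0 (hdM i hc)
    have : i0 ≤ i := min'_le _ _ (mem_filter.2 ⟨hiM, hne0⟩)
    omega
  have hhigh : ∀ i, i1 < i → d i = 0 := by
    intro i hi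
    by_contra hne0
    have hiM : i ∈ range M := by
      by_contra hc
      exact hne0 (hdM i hc)
    have : i ≤ i1 := le_max' _ _ (mem_filter.2 ⟨hiM, hne0⟩)
    omega
  have hi1M : i1 < M := mem_range.1 (mem_filter.1 hi1D).1
  have hsum : ∀ f : ℕ → ℤ, ∑ i ∈ range (i1 - i0 + 1), d (i0 + i) * f (i0 + i)
      = ∑ i ∈ range M, d i * f i := by
    intro f
    have h1 : i1 - i0 + 1 = i1 + 1 - i0 := by omega
    rw [h1, ← sum_Ico_eq_sum_range (fun i => d i * f i) i0 (i1 + 1)]
    refine sum_subset ?_ ?_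
    · intro i hi
      rw [mem_Ico] at hi
      rw [mem_range]
      omega
    · intro i _ hi
      rw [mem_Ico] at hi
      by_cases h : i < i0
      · rw [hlow i h, zero_mul]
      · rw [hhigh i (by omega), zero_mul]
  have hfin : ∀ l < J, ∑ i ∈ range (i1 - i0 + 1), d (i0 + i) * (i : ℤ) ^ l = 0 := by
    intro l hl
    have h1 : ∀ i ∈ range (i1 - i0 + 1), d (i0 + i) * (i : ℤ) ^ l
        = d (i0 + i) * (fun j : ℕ => ((j : ℤ) + (-(i0 : ℤ))) ^ l) (i0 + i) := by
      intro i _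
      congr 1
      simp only
      push_cast
      congr 1
      ring
    rw [sum_congr rfl h1, hsum (fun j : ℕ => ((j : ℤ) + (-(i0 : ℤ))) ^ l)]
    simp only [add_pow, mul_sum]
    rw [sum_comm]
    refine sum_eq_zero fun k hk => ?_
    have hk' : k < J := by
      have := mem_range.1 hk
      omega
    have h2 := hmomD k hk'
    calc ∑ i ∈ range M, d i * ((i : ℤ) ^ k * (-(i0 : ℤ)) ^ (l - k) * (l.choose k : ℤ))
        = ∑ i ∈ range M, (d i * (i : ℤ) ^ k) * ((-(i0 : ℤ)) ^ (l - k) * (l.choose k : ℤ)) := by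
          refine sum_congr rfl fun i _ => ?_
          ring
      _ = 0 := by rw [← sum_mul, h2, zero_mul]
  refine ⟨i1 - i0, fun i => d (i0 + i), ?_, by omega, ?_, ?_, ?_, fun i => hd1 _, hfin⟩
  · by_contra hcon
    have h0 : i1 - i0 = 0 := by omega
    have h1 := hfin 0 (by omega)
    rw [h0] at h1
    simp only [zero_add, range_one, sum_singleton, add_zero, pow_zero, mul_one] at h1
    exact (mem_filter.1 hi0D).2 h1
  · simp only [add_zero]
    exact (mem_filter.1 hi0D).2
  · have : i0 + (i1 - i0) = i1 := by omega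
    simp only [this]
    exact (mem_filter.1 hi1D).2
  · intro i hi
    exact hhigh _ (by omega)

end Pool.Agent.H61.Rot
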