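import Mathlib

/-!
Integer sequences which satisfy the recurrences `∑ c_i r (n + t i) = 0` for `t = 1, ..., A + 1` are
annihilated by `∏_{m ≤ A} (E^m - 1)^A` (`E` = shift).
-/

set_option autoImplicit false

namespace Pool.Agent.H61.Rot

open Finset Polynomial

/-- `∏_{m ≤ A} (X^m - 1)^A`. -/
noncomputable def Wp (A : ℕ) : Polynomial ℤ := ∏ m ∈ Icc 1 A, (X ^ m - 1) ^ A

/-- The polynomial `∑ c_i X^i` over a field. -/
noncomputable def RecurA_D (K : Type) [Field K] (A : ℕ) (c : ℕ → ℤ) : Polynomial K :=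
  ∑ i ∈ range (A + 1), C ((c i : ℤ) : K) * X ^ i

theorem RecurA_D_coeff (K : Type) [Field K] (A : ℕ) (c : ℕ → ℤ) (j : ℕ) (hj : j ≤ A) :
    (RecurA_D K A c).coeff j = ((c j : ℤ) : K) := by
  unfold RecurA_D
  rw [finsetSum_coeff, Finset.sum_eq_single j]
  · simp
  · intro b _ hb
    rw [coeff_C_mul, coeff_X_pow, if_neg (Ne.symm hb), mul_zero]
  · intro h
    exact absurd (Finset.mem_range.2 (by omega)) h

theorem RecurA_D_natDegree_le (K : Type) [Field K] (A : ℕ) (c : ℕ → ℤ) :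
    (RecurA_D K A c).natDegree ≤ A := by
  unfold RecurA_D
  refine natDegree_sum_le_of_forall_le _ _ ?_
  intro i hi
  refine (natDegree_C_mul_X_pow_le _ _).trans ?_
  have := Finset.mem_range.1 hi
  omega

theorem RecurA_D_natDegree (K : Type) [Field K] [CharZero K] (A : ℕ) (c : ℕ → ℤ) (hcA : c A ≠ 0) :
    (RecurA_D K A c).natDegree = A := by
  refine natDegree_eq_of_le_of_coeff_ne_zero (RecurA_D_natDegree_le K A c) ?_
  rw [RecurA_D_coeff K A c A le_rfl]
  exact_mod_cast hcA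

theorem RecurA_D_ne_zero (K : Type) [Field K] [CharZero K] (A : ℕ) (c : ℕ → ℤ) (hcA : c A ≠ 0) :
    RecurA_D K A c ≠ 0 := by
  intro h
  have h1 := RecurA_D_coeff K A c A le_rfl
  rw [h, coeff_zero] at h1
  exact hcA (by exact_mod_cast h1.symm)

theorem RecurA_D_map (A : ℕ) (c : ℕ → ℤ) :
    (RecurA_D ℚ A c).map (algebraMap ℚ ℂ) = RecurA_D ℂ A c := by
  unfold RecurA_D
  rw [Polynomial.map_sum]
  refine Finset.sum_congr rfl ?_
  intro i _
  simp

/-- A root common to `D(X^t)`, `1 ≤ t ≤ A + 1`, is a root of unity of order at most `A`. -/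
theorem RecurA_root (A : ℕ) (c : ℕ → ℤ) (hc0 : c 0 ≠ 0) (hcA : c A ≠ 0) (ζ : ℂ)
    (h : ∀ t, 1 ≤ t → t ≤ A + 1 → (RecurA_D ℂ A c).eval (ζ ^ t) = 0) :
    ∃ m, 1 ≤ m ∧ m ≤ A ∧ ζ ^ m = 1 := by
  classical
  have hD : RecurA_D ℂ A c ≠ 0 := RecurA_D_ne_zero ℂ A c hcA
  have hζ : ζ ≠ 0 := by
    intro h0
    have h1 := h 1 le_rfl (by omega)
    rw [h0, pow_one, ← coeff_zero_eq_eval_zero, RecurA_D_coeff ℂ A c 0 (Nat.zero_le _)] at h1
    exact hc0 (by exact_mod_cast h1)
  have hmaps : Set.MapsTo (fun t : ℕ => ζ ^ t) (Icc 1 (A + 1) : Finset ℕ)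
      ((RecurA_D ℂ A c).roots.toFinset : Finset ℂ) := by
    intro t ht
    have ht' := Finset.mem_Icc.1 (Finset.mem_coe.1 ht)
    rw [Finset.mem_coe, Multiset.mem_toFinset, mem_roots hD, IsRoot.def]
    exact h t ht'.1 ht'.2
  have hcard : ((RecurA_D ℂ A c).roots.toFinset).card < (Icc 1 (A + 1)).card := by
    rw [Nat.card_Icc]
    have h1 := Multiset.toFinset_card_le (RecurA_D ℂ A c).roots
    have h2 := card_roots' (RecurA_D ℂ A c)
    have h3 := RecurA_D_natDegree_le ℂ A c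
    omega
  obtain ⟨x, hx, y, hy, hxy, he⟩ := Finset.exists_ne_map_eq_of_card_lt_of_maps_to hcard hmaps
  have hx' := Finset.mem_Icc.1 hx
  have hy' := Finset.mem_Icc.1 hy
  rcases lt_or_gt_of_ne hxy with hlt | hlt
  · refine ⟨y - x, by omega, by omega, ?_⟩
    have h1 : ζ ^ x * ζ ^ (y - x) = ζ ^ x * 1 := by
      rw [← pow_add, mul_one, show x + (y - x) = y by omega]
      exact he.symm
    exact mul_left_cancel₀ (pow_ne_zero _ hζ) h1
  · refine ⟨x - y, by omega, by omega, ?_⟩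
    have h1 : ζ ^ y * ζ ^ (x - y) = ζ ^ y * 1 := by
      rw [← pow_add, mul_one, show y + (x - y) = x by omega]
      exact he
    exact mul_left_cancel₀ (pow_ne_zero _ hζ) h1

theorem RecurA_multiset (s : Multiset ℂ) (V : Polynomial ℂ) (h : ∀ ζ ∈ s, (X - C ζ) ∣ V) :
    (s.map (fun ζ => X - C ζ)).prod ∣ V ^ (Multiset.card s) := by
  induction s using Multiset.induction_on with
  | empty => simp
  | cons a s ih =>
    rw [Multiset.map_cons, Multiset.prod_cons, Multiset.card_cons, pow_succ']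
    exact mul_dvd_mul (h a (Multiset.mem_cons_self a s))
      (ih (fun ζ hζ => h ζ (Multiset.mem_cons_of_mem hζ)))

/-- A common divisor of the `D(X^t)` divides `Wp A`. -/
theorem RecurA_dvd (A : ℕ) (c : ℕ → ℤ) (hc0 : c 0 ≠ 0) (hcA : c A ≠ 0) (G : Polynomial ℚ)
    (hG : ∀ t, 1 ≤ t → t ≤ A + 1 → G ∣ expand ℚ t (RecurA_D ℚ A c)) :
    G ∣ (Wp A).map (Int.castRingHom ℚ) := by
  classical
  have hD : RecurA_D ℚ A c ≠ 0 := RecurA_D_ne_zero ℚ A c hcA
  have hG1 : G ∣ RecurA_D ℚ A c := by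
    have := hG 1 le_rfl (by omega)
    rwa [expand_one] at this
  have hG0 : G ≠ 0 := by
    intro h
    rw [h] at hG1
    exact hD (zero_dvd_iff.1 hG1)
  rw [← map_dvd_map' (algebraMap ℚ ℂ)]
  set G' := G.map (algebraMap ℚ ℂ) with hG'
  set V : Polynomial ℂ := ∏ m ∈ Icc 1 A, (X ^ m - 1) with hV
  have hW : ((Wp A).map (Int.castRingHom ℚ)).map (algebraMap ℚ ℂ) = V ^ A := by
    rw [Wp, Polynomial.map_prod, Polynomial.map_prod, hV, ← Finset.prod_pow]
    refine Finset.prod_congr rfl ?_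
    intro m _
    simp
  rw [hW]
  have hroots : ∀ ζ ∈ G'.roots, (X - C ζ) ∣ V := by
    intro ζ hζ
    have hζ0 : G'.eval ζ = 0 := (mem_roots'.1 hζ).2
    obtain ⟨m, hm1, hmA, hm⟩ := RecurA_root A c hc0 hcA ζ (by
      intro t ht1 htA
      obtain ⟨q, hq⟩ := hG t ht1 htA
      have h1 : (expand ℂ t (RecurA_D ℂ A c)).eval ζ = 0 := by
        have h2 : expand ℂ t (RecurA_D ℂ A c) = (expand ℚ t (RecurA_D ℚ A c)).map (algebraMap ℚ ℂ) := by
          rw [map_expand, RecurA_D_map]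
        rw [h2, hq, Polynomial.map_mul, eval_mul, ← hG', hζ0, zero_mul]
      rwa [expand_eval] at h1)
    have h1 : (X - C ζ) ∣ (X ^ m - 1 : Polynomial ℂ) := by
      rw [dvd_iff_isRoot, IsRoot.def, eval_sub, eval_pow, eval_X, eval_one, hm, sub_self]
    exact h1.trans (Finset.dvd_prod_of_mem _ (Finset.mem_Icc.2 ⟨hm1, hmA⟩))
  have hsplit := (IsAlgClosed.splits G').eq_prod_roots
  have hG'0 : G' ≠ 0 := by
    rw [hG']
    exact (Polynomial.map_ne_zero_iff (algebraMap ℚ ℂ).injective).2 hG0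
  have hcard : Multiset.card G'.roots ≤ A := by
    have h1 := card_roots' G'
    have h2 : G'.natDegree = G.natDegree := natDegree_map _
    have h3 := natDegree_le_of_dvd hG1 hD
    have h4 := RecurA_D_natDegree_le ℚ A c
    omega
  have hu : IsUnit (C G'.leadingCoeff) :=
    isUnit_C.2 (isUnit_iff_ne_zero.2 (leadingCoeff_ne_zero.2 hG'0))
  rw [hsplit]
  refine (IsUnit.mul_left_dvd hu).2 ?_
  exact (RecurA_multiset _ V hroots).trans (pow_dvd_pow V hcard)

theorem RecurA_Wp_natDegree (A : ℕ) (hA : 1 ≤ A) :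
    ((Wp A).map (Int.castRingHom ℚ)).natDegree ≤ 3 * A ^ 3 := by
  have h1 : (Wp A).natDegree ≤ ∑ m ∈ Icc 1 A, A * A := by
    refine (natDegree_prod_le _ _).trans (Finset.sum_le_sum ?_)
    intro m hm
    have hm' := Finset.mem_Icc.1 hm
    refine natDegree_pow_le.trans ?_
    refine Nat.mul_le_mul_left A ?_
    have : (X ^ m - 1 : Polynomial ℤ).natDegree ≤ m := by
      have h2 := natDegree_X_pow_sub_C (n := m) (r := (1 : ℤ))
      rw [C_1] at h2
      exact h2.le
    omega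
  rw [Finset.sum_const, Nat.card_Icc, smul_eq_mul, Nat.add_sub_cancel] at h1
  refine natDegree_map_le.trans (h1.trans ?_)
  have : A * (A * A) = A ^ 3 := by ring
  rw [this]
  omega

/-- Truncated pairing of a polynomial with a shifted sequence. -/
noncomputable def RecurA_Phi (N : ℕ) (r : ℕ → ℤ) (n : ℕ) : Polynomial ℚ →ₗ[ℚ] ℚ where
  toFun P := ∑ j ∈ range (N + 1), P.coeff j * (r (n + j) : ℚ)
  map_add' P Q := by
    simp only [coeff_add, add_mul, Finset.sum_add_distrib]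
  map_smul' a P := by
    simp only [coeff_smul, smul_eq_mul, mul_assoc, Finset.mul_sum, RingHom.id_apply]

theorem RecurA_Phi_apply (N : ℕ) (r : ℕ → ℤ) (n : ℕ) (P : Polynomial ℚ) :
    RecurA_Phi N r n P = ∑ j ∈ range (N + 1), P.coeff j * (r (n + j) : ℚ) := rfl

theorem RecurA_Phi_monomial (N : ℕ) (r : ℕ → ℤ) (n m : ℕ) (hm : m ≤ N) (a : ℚ) :
    RecurA_Phi N r n (C a * X ^ m) = a * (r (n + m) : ℚ) := by
  rw [RecurA_Phi_apply, Finset.sum_eq_single m]
  · simp
  · intro b _ hb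
    rw [coeff_C_mul, coeff_X_pow, if_neg hb, mul_zero, zero_mul]
  · intro h
    exact absurd (Finset.mem_range.2 (by omega)) h

theorem RecurA_Phi_mul (A : ℕ) (c : ℕ → ℤ) (hcA : c A ≠ 0) (L N : ℕ) (r : ℕ → ℤ) (t : ℕ)
    (ht : 1 ≤ t)
    (hr : ∀ n, n + t * A ≤ L → ∑ i ∈ range (A + 1), c i * r (n + t * i) = 0)
    (n : ℕ) (hn : n + N ≤ L) (U : Polynomial ℚ)
    (hU : (U * expand ℚ t (RecurA_D ℚ A c)).natDegree ≤ N) :
    RecurA_Phi N r n (U * expand ℚ t (RecurA_D ℚ A c)) = 0 := by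
  by_cases hU0 : U = 0
  · rw [hU0, zero_mul, map_zero]
  have hD0 : expand ℚ t (RecurA_D ℚ A c) ≠ 0 := by
    rw [Ne, expand_eq_zero (by omega)]
    exact RecurA_D_ne_zero ℚ A c hcA
  have hdeg : U.natDegree + A * t ≤ N := by
    rw [natDegree_mul hU0 hD0, natDegree_expand, RecurA_D_natDegree ℚ A c hcA] at hU
    exact hU
  have hexp : U * expand ℚ t (RecurA_D ℚ A c) =
      ∑ k ∈ range (U.natDegree + 1), ∑ i ∈ range (A + 1),
        C (U.coeff k * ((c i : ℤ) : ℚ)) * X ^ (k + t * i) := by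
    conv_lhs => rw [U.as_sum_range_C_mul_X_pow]
    rw [Finset.sum_mul]
    refine Finset.sum_congr rfl ?_
    intro k _
    rw [RecurA_D, map_sum, Finset.mul_sum]
    refine Finset.sum_congr rfl ?_
    intro i _
    rw [map_mul, expand_C, map_pow, expand_X, C_mul, pow_add, pow_mul]
    ring
  rw [hexp, map_sum]
  refine Finset.sum_eq_zero ?_
  intro k hk
  have hk' := Finset.mem_range.1 hk
  rw [map_sum]
  have h1 : ∀ i ∈ range (A + 1),
      RecurA_Phi N r n (C (U.coeff k * ((c i : ℤ) : ℚ)) * X ^ (k + t * i)) =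
        U.coeff k * ((c i * r (n + k + t * i) : ℤ) : ℚ) := by
    intro i hi
    have hi' := Finset.mem_range.1 hi
    have hle : t * i ≤ A * t := by
      rw [mul_comm A t]
      exact Nat.mul_le_mul_left t (by omega)
    rw [RecurA_Phi_monomial N r n _ (by omega), Int.cast_mul, mul_assoc, add_assoc]
  rw [Finset.sum_congr rfl h1, ← Finset.mul_sum, ← Int.cast_sum, hr (n + k) (by
    rw [mul_comm t A]
    omega)]
  simp

/-- The greatest common divisor `G` of the polynomials `D(X^t)`, `t ≤ A + 1`, `D = ∑ c_i X^i`, has only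
roots of unity of order `≤ A` as roots (`D` has at most `A` roots, and `D(ζ^t) = 0` for all
`t ≤ A + 1`, so `ζ^t = ζ^t'`), with multiplicities `≤ A`, so `G` divides `Wp A`; write
`Wp A = ∑ U_t D(X^t)` and reduce `U_t`, `t ≥ 2`, modulo `D` to control the degrees. -/
theorem annihilate (A : ℕ) (hA : 1 ≤ A) (c : ℕ → ℤ) (hc0 : c 0 ≠ 0) (hcA : c A ≠ 0) (L : ℕ)
    (r : ℕ → ℤ)
    (hr : ∀ t, 1 ≤ t → t ≤ A + 1 → ∀ n, n + t * A ≤ L →
      ∑ i ∈ range (A + 1), c i * r (n + t * i) = 0) (n : ℕ) (hn : n + 3 * A ^ 3 ≤ L) :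
    ∑ j ∈ range (3 * A ^ 3 + 1), (Wp A).coeff j * r (n + j) = 0 := by
  classical
  set N := 3 * A ^ 3 with hN
  set D := RecurA_D ℚ A c with hDdef
  have hD0 : D ≠ 0 := RecurA_D_ne_zero ℚ A c hcA
  have hDdeg : D.natDegree = A := RecurA_D_natDegree ℚ A c hcA
  set v : Fin (A + 1) → Polynomial ℚ := fun t => expand ℚ ((t : ℕ) + 1) D with hv
  have hv0 : v 0 = D := by
    simp only [hv, Fin.val_zero, zero_add, expand_one]
  set I : Ideal (Polynomial ℚ) := Ideal.span (Set.range v) with hI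
  obtain ⟨G, hG⟩ := (IsPrincipalIdealRing.principal I).principal
  have hGdvd : ∀ t : Fin (A + 1), G ∣ v t := by
    intro t
    have h1 : v t ∈ I := Ideal.subset_span (Set.mem_range_self t)
    rw [hG] at h1
    exact Ideal.mem_span_singleton.1 h1
  have hWmem : (Wp A).map (Int.castRingHom ℚ) ∈ I := by
    have h1 : G ∣ (Wp A).map (Int.castRingHom ℚ) := by
      refine RecurA_dvd A c hc0 hcA G ?_
      intro t ht1 htA
      have h2 := hGdvd ⟨t - 1, by omega⟩
      simp only [hv] at h2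
      rwa [show t - 1 + 1 = t by omega] at h2
    rw [hG]
    exact Ideal.mem_span_singleton.2 h1
  rw [hI, Ideal.mem_span_range_iff_exists_fun] at hWmem
  obtain ⟨U, hU⟩ := hWmem
  -- reduction modulo `D`
  have hmod : ∀ t, U t = D * (U t / D) + U t % D := fun t => (EuclideanDomain.div_add_mod _ _).symm
  set S : Polynomial ℚ := ∑ t, (U t / D) * v t with hS
  have hsum : (Wp A).map (Int.castRingHom ℚ) = (∑ t, (U t % D) * v t) + S * expand ℚ 1 D := by
    rw [← hU, hS, expand_one, Finset.sum_mul, ← Finset.sum_add_distrib]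
    refine Finset.sum_congr rfl ?_
    intro t _
    conv_lhs => rw [hmod t]
    ring
  have hA1 : A * A ≤ A ^ 3 := by
    have : A ^ 3 = A * A * A := by ring
    rw [this]
    exact Nat.le_mul_of_pos_right _ hA
  have hA2 : A ≤ A * A := Nat.le_mul_of_pos_right _ hA
  have hdeg1 : ∀ t : Fin (A + 1), ((U t % D) * v t).natDegree ≤ N := by
    intro t
    refine natDegree_mul_le.trans ?_
    have h1 : (U t % D).natDegree ≤ A := by
      have := natDegree_mod_lt (U t) (q := D) (by rw [hDdeg]; omega)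
      omega
    have h2 : (v t).natDegree ≤ A * (A + 1) := by
      simp only [hv]
      rw [natDegree_expand, hDdeg]
      exact Nat.mul_le_mul_left A (by have := t.2; omega)
    have h3 : A * (A + 1) = A * A + A := by ring
    omega
  have hdeg2 : (S * expand ℚ 1 D).natDegree ≤ N := by
    have h1 : S * expand ℚ 1 D = (Wp A).map (Int.castRingHom ℚ) - ∑ t, (U t % D) * v t := by
      rw [hsum]
      ring
    rw [h1]
    refine (natDegree_sub_le _ _).trans (max_le (RecurA_Wp_natDegree A hA) ?_)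
    exact natDegree_sum_le_of_forall_le _ _ (fun t _ => hdeg1 t)
  have hzero : RecurA_Phi N r n ((Wp A).map (Int.castRingHom ℚ)) = 0 := by
    rw [hsum, map_add, map_sum]
    have h1 : ∀ t ∈ (Finset.univ : Finset (Fin (A + 1))), RecurA_Phi N r n ((U t % D) * v t) = 0 := by
      intro t _
      exact RecurA_Phi_mul A c hcA L N r ((t : ℕ) + 1) (by omega)
        (hr _ (by omega) (by have := t.2; omega)) n hn _ (hdeg1 t)
    rw [Finset.sum_eq_zero h1, zero_add]
    exact RecurA_Phi_mul A c hcA L N r 1 le_rfl (hr 1 le_rfl (by omega)) n hn _ hdeg2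
  rw [RecurA_Phi_apply] at hzero
  have hcast : ((∑ j ∈ range (N + 1), (Wp A).coeff j * r (n + j) : ℤ) : ℚ) = 0 := by
    rw [← hzero, Int.cast_sum]
    refine Finset.sum_congr rfl ?_
    intro j _
    rw [coeff_map, Int.cast_mul]
    rfl
  exact_mod_cast hcast

end Pool.Agent.H61.Rot
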