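import Mathlib

/-!
A random walk argument on `(ℝ/πℤ) × {±1}`.
-/

set_option autoImplicit false

namespace Pool.Agent.H61.Rot

open Finset

/-! ### The Fejer kernel -/

theorem Walk_cos (x : ℝ) (K : ℕ) :
    2 * (Real.sin x * ∑ j ∈ range K, Real.cos (2 * (j : ℝ) * x)) =
      Real.sin ((2 * (K : ℝ) - 1) * x) + Real.sin x := by
  induction K with
  | zero => simp
  | succ K ih =>
    rw [sum_range_succ, mul_add, mul_add, ih]
    have h1 : ((2 * ((K + 1 : ℕ) : ℝ) - 1) * x) = 2 * (K : ℝ) * x + x := by push_cast; ring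
    have h2 : ((2 * (K : ℝ) - 1) * x) = 2 * (K : ℝ) * x - x := by ring
    rw [h1, h2, Real.sin_add, Real.sin_sub]
    ring

theorem Walk_sin (x : ℝ) (K : ℕ) :
    2 * (Real.sin x * ∑ j ∈ range K, Real.sin (2 * (j : ℝ) * x)) =
      Real.cos x - Real.cos ((2 * (K : ℝ) - 1) * x) := by
  induction K with
  | zero => simp
  | succ K ih =>
    rw [sum_range_succ, mul_add, mul_add, ih]
    have h1 : ((2 * ((K + 1 : ℕ) : ℝ) - 1) * x) = 2 * (K : ℝ) * x + x := by push_cast; ring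
    have h2 : ((2 * (K : ℝ) - 1) * x) = 2 * (K : ℝ) * x - x := by ring
    rw [h1, h2, Real.cos_add, Real.cos_sub]
    ring

/-- `K` times the Fejer kernel, as a double sum. -/
noncomputable def Walk_F (K : ℕ) (x : ℝ) : ℝ :=
  ∑ i ∈ range K, ∑ j ∈ range K, Real.cos (2 * (((i : ℤ) - (j : ℤ) : ℤ) : ℝ) * x)

theorem Walk_F_eq (K : ℕ) (x : ℝ) :
    Walk_F K x = (∑ j ∈ range K, Real.cos (2 * (j : ℝ) * x)) ^ 2 +
      (∑ j ∈ range K, Real.sin (2 * (j : ℝ) * x)) ^ 2 := by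
  rw [sq, sq, sum_mul_sum, sum_mul_sum, ← sum_add_distrib, Walk_F]
  refine sum_congr rfl fun i _ => ?_
  rw [← sum_add_distrib]
  refine sum_congr rfl fun j _ => ?_
  have h : 2 * (((i : ℤ) - (j : ℤ) : ℤ) : ℝ) * x = 2 * (i : ℝ) * x - 2 * (j : ℝ) * x := by
    push_cast
    ring
  rw [h, Real.cos_sub]

theorem Walk_F_le (K : ℕ) (x : ℝ) : Real.sin x ^ 2 * Walk_F K x ≤ 1 := by
  have h1 := Walk_cos x K
  have h2 := Walk_sin x K
  rw [Walk_F_eq]
  set C := ∑ j ∈ range K, Real.cos (2 * (j : ℝ) * x)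
  set S := ∑ j ∈ range K, Real.sin (2 * (j : ℝ) * x)
  set A := (2 * (K : ℝ) - 1) * x
  have h3 : 4 * (Real.sin x ^ 2 * (C ^ 2 + S ^ 2)) =
      (Real.sin A + Real.sin x) ^ 2 + (Real.cos x - Real.cos A) ^ 2 := by
    rw [← h1, ← h2]
    ring
  have h4 := Real.sin_sq_add_cos_sq A
  have h5 := Real.sin_sq_add_cos_sq x
  nlinarith [sq_nonneg (Real.sin A - Real.sin x), sq_nonneg (Real.cos A + Real.cos x)]

/-- From the size of the Fejer kernel to the distance to `π ℤ`. -/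
theorem Walk_dist (K : ℕ) (hK : 1 ≤ K) (x : ℝ) (h : (K : ℝ) < 2 * Walk_F K x) :
    ∃ l : ℤ, |x - l * Real.pi| ≤ 3 / Real.sqrt K := by
  have hK0 : (0 : ℝ) < K := by exact_mod_cast hK
  have h1 : Real.sin x ^ 2 * K ≤ 2 := by
    have h2 := Walk_F_le K x
    nlinarith [sq_nonneg (Real.sin x)]
  refine ⟨round (x / Real.pi), ?_⟩
  set l := round (x / Real.pi) with hl
  set y := x - l * Real.pi with hy
  have hpi := Real.pi_pos
  have hyb : |y| ≤ Real.pi / 2 := by
    have h3 := abs_sub_round (x / Real.pi)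
    have h4 : y = (x / Real.pi - l) * Real.pi := by
      rw [hy, sub_mul, div_mul_cancel₀ _ hpi.ne']
    rw [h4, abs_mul, abs_of_pos hpi]
    nlinarith
  have hsin : Real.sin y ^ 2 = Real.sin x ^ 2 := by
    have h5 : Real.sin (x - l * Real.pi) ^ 2 = Real.sin x ^ 2 := by
      rw [Real.sin_sub_int_mul_pi]
      rcases Int.even_or_odd l with he | ho
      · rw [he.neg_one_zpow, one_mul]
      · rw [ho.neg_one_zpow]
        ring
    exact h5
  have hsin2 : (2 / Real.pi * |y|) ^ 2 ≤ Real.sin x ^ 2 := by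
    rw [← hsin, ← sq_abs (Real.sin y)]
    refine pow_le_pow_left₀ (by positivity) (Real.mul_abs_le_abs_sin hyb) 2
  have h6 : (|y| * Real.sqrt K) ^ 2 ≤ 3 ^ 2 := by
    rw [mul_pow, Real.sq_sqrt hK0.le]
    have h7 : (2 / Real.pi) ^ 2 * (|y| ^ 2 * K) ≤ 2 := by
      calc (2 / Real.pi) ^ 2 * (|y| ^ 2 * K) = (2 / Real.pi * |y|) ^ 2 * K := by ring
        _ ≤ Real.sin x ^ 2 * K := mul_le_mul_of_nonneg_right hsin2 hK0.le
        _ ≤ 2 := h1
    have h8 : (2 / Real.pi) ^ 2 * Real.pi ^ 2 = 4 := by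
      field_simp
      norm_num
    have h9 : Real.pi ^ 2 ≤ 10 := by nlinarith [Real.pi_lt_d2, Real.pi_gt_three]
    have h10 : 4 * (|y| ^ 2 * K) ≤ 2 * Real.pi ^ 2 := by
      calc 4 * (|y| ^ 2 * K) = ((2 / Real.pi) ^ 2 * (|y| ^ 2 * K)) * Real.pi ^ 2 := by
            rw [← h8]; ring
        _ ≤ 2 * Real.pi ^ 2 := mul_le_mul_of_nonneg_right h7 (by positivity)
    linarith
  have h11 : |y| * Real.sqrt K ≤ 3 := by
    have := abs_le_of_sq_le_sq h6 (by norm_num)
    exact (abs_le.1 this).2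
  rw [le_div_iff₀ (Real.sqrt_pos.2 hK0)]
  exact h11

/-! ### Character sums over the words -/

/-- The letters: a step `s`, active or not, and a direction. -/
noncomputable def Walk_ang {ι : Type} (a : ι → ℝ) (x : ι × Bool × Bool) : ℝ :=
  if x.2.1 then (if x.2.2 then a x.1 else - a x.1) else 0

def Walk_sgn {ι : Type} (σ : ι → ℤ) (x : ι × Bool × Bool) : ℤ :=
  if x.2.1 then σ x.1 else 1

/-- The sum of a character over all words of length `k`. -/
theorem Walk_char {ι : Type} [Fintype ι] (a : ι → ℝ) (τ : ι → ℝ) (k : ℕ) (μ : ℤ) :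
    ∑ w : Fin k → ι × Bool × Bool, (∏ i, (if (w i).2.1 then τ (w i).1 else 1)) *
      Real.cos (2 * (μ : ℝ) * ∑ i, Walk_ang a (w i)) =
      (∑ s, (2 + 2 * (τ s * Real.cos (2 * (μ : ℝ) * a s)))) ^ k := by
  set f : ι × Bool × Bool → ℂ := fun x =>
    ((if x.2.1 then τ x.1 else 1 : ℝ) : ℂ) *
      Complex.exp (((2 * (μ : ℝ) * Walk_ang a x : ℝ) : ℂ) * Complex.I) with hf
  have h1 : ∑ x, f x = ((∑ s, (2 + 2 * (τ s * Real.cos (2 * (μ : ℝ) * a s))) : ℝ) : ℂ) := by
    rw [Fintype.sum_prod_type]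
    push_cast
    refine sum_congr rfl fun s _ => ?_
    rw [Fintype.sum_prod_type]
    simp only [Fintype.sum_bool, hf, Walk_ang, if_true, Bool.false_eq_true, if_false]
    have hc : Complex.cos (2 * (μ : ℂ) * (a s : ℂ)) =
        (Complex.exp (2 * (μ : ℂ) * (a s : ℂ) * Complex.I) +
          Complex.exp (-(2 * (μ : ℂ) * (a s : ℂ)) * Complex.I)) / 2 := rfl
    push_cast
    rw [hc]
    have e1 : (2 * (μ : ℂ) * -(a s : ℂ)) = -(2 * (μ : ℂ) * (a s : ℂ)) := by ring
    rw [e1]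
    simp only [mul_zero, zero_mul, Complex.exp_zero]
    ring
  have h2 := Fintype.sum_pow f k
  rw [h1] at h2
  have h3 : ∀ w : Fin k → ι × Bool × Bool, (∏ i, f (w i)).re =
      (∏ i, (if (w i).2.1 then τ (w i).1 else 1)) *
      Real.cos (2 * (μ : ℝ) * ∑ i, Walk_ang a (w i)) := by
    intro w
    have h4 : ∏ i, f (w i) = ((∏ i, (if (w i).2.1 then τ (w i).1 else 1 : ℝ) : ℝ) : ℂ) *
        Complex.exp (((2 * (μ : ℝ) * ∑ i, Walk_ang a (w i) : ℝ) : ℂ) * Complex.I) := by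
      simp only [hf]
      rw [prod_mul_distrib, ← Complex.exp_sum, Complex.ofReal_prod]
      congr 2
      rw [← sum_mul, ← Complex.ofReal_sum, ← mul_sum]
    rw [h4, Complex.re_ofReal_mul, Complex.exp_ofReal_mul_I_re]
  have h5 := congrArg Complex.re h2
  rw [Complex.re_sum, ← Complex.ofReal_pow, Complex.ofReal_re] at h5
  rw [h5]
  exact sum_congr rfl fun w _ => (h3 w).symm

theorem walk {ι : Type} [Fintype ι] [Nonempty ι] (a : ι → ℝ) (σ : ι → ℤ)
    (hσ : ∀ s, σ s = 1 ∨ σ s = -1) (K k : ℕ) (hK : 1 ≤ K) (η : ℝ) (hη0 : 0 < η) (hη1 : η ≤ 1)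
    (h0 : ∀ μ : ℤ, μ ≠ 0 → |μ| < K → ∃ s, Real.cos (2 * μ * a s) ≤ 1 - η)
    (h1 : ∀ μ : ℤ, |μ| < K → ∃ s, (σ s : ℝ) * Real.cos (2 * μ * a s) ≤ 1 - η)
    (hk : (2 * (K : ℝ) + 1) * (1 - η / (2 * Fintype.card ι)) ^ k < 1 / 4) :
    ∃ L : List (ι × Bool), L.length ≤ k ∧ (L.map (fun x => σ x.1)).prod = -1 ∧
      ∃ l : ℤ, |(L.map (fun x => if x.2 then a x.1 else - a x.1)).sum - l * Real.pi| ≤
        3 / Real.sqrt K := by
  classical
  set N : ℝ := ((Fintype.card ι : ℕ) : ℝ) with hN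
  have hN1 : 1 ≤ N := by
    have : 1 ≤ Fintype.card ι := Fintype.card_pos
    rw [hN]
    exact_mod_cast this
  set ρ : ℝ := 1 - η / (2 * N) with hρ
  have hρ0 : 0 ≤ ρ := by
    have : η / (2 * N) ≤ 1 := by
      rw [div_le_one (by positivity)]
      linarith
    rw [hρ]
    linarith
  have hK0 : (0 : ℝ) < K := by exact_mod_cast hK
  -- the character sums
  set Λ : (ι → ℝ) → ℤ → ℝ := fun τ μ => ∑ s, (2 + 2 * (τ s * Real.cos (2 * (μ : ℝ) * a s))) with hΛ
  set one : ι → ℝ := fun _ => 1 with hone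
  set sg : ι → ℝ := fun s => (σ s : ℝ) with hsg
  have hterm : ∀ τ : ι → ℝ, (∀ s, τ s = 1 ∨ τ s = -1) → ∀ (μ : ℤ) (s : ι),
      |τ s * Real.cos (2 * (μ : ℝ) * a s)| ≤ 1 := by
    intro τ hτ μ s
    rw [abs_mul]
    have h2 : |τ s| = 1 := by
      rcases hτ s with h | h <;> rw [h] <;> simp
    rw [h2, one_mul]
    exact Real.abs_cos_le_one _
  have hone' : ∀ s, one s = 1 ∨ one s = -1 := fun s => Or.inl rfl
  have hsg' : ∀ s, sg s = 1 ∨ sg s = -1 := by
    intro s
    rcases hσ s with h | h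
    · left
      rw [hsg]
      simp [h]
    · right
      rw [hsg]
      simp [h]
  have hΛ0 : ∀ τ : ι → ℝ, (∀ s, τ s = 1 ∨ τ s = -1) → ∀ μ : ℤ, 0 ≤ Λ τ μ := by
    intro τ hτ μ
    refine sum_nonneg fun s _ => ?_
    have := (abs_le.1 (hterm τ hτ μ s)).1
    linarith
  have hΛ1 : ∀ τ : ι → ℝ, (∀ s, τ s = 1 ∨ τ s = -1) → ∀ μ : ℤ,
      (∃ s, τ s * Real.cos (2 * (μ : ℝ) * a s) ≤ 1 - η) → Λ τ μ ≤ 4 * N * ρ := by
    intro τ hτ μ ⟨s, hs⟩
    rw [hΛ]
    simp only
    rw [← add_sum_erase univ _ (mem_univ s)]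
    have h2 : ∑ t ∈ univ.erase s, (2 + 2 * (τ t * Real.cos (2 * (μ : ℝ) * a t))) ≤
        ∑ t ∈ univ.erase s, (4 : ℝ) := by
      refine sum_le_sum fun t _ => ?_
      have := (abs_le.1 (hterm τ hτ μ t)).2
      linarith
    have h3 : ∑ t ∈ univ.erase s, (4 : ℝ) = 4 * (N - 1) := by
      rw [sum_const, card_erase_of_mem (mem_univ s), card_univ, nsmul_eq_mul,
        Nat.cast_sub (Fintype.card_pos), hN]
      push_cast
      ring
    have h4 : 4 * N * ρ = 4 * N - 2 * η := by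
      rw [hρ]
      field_simp
      ring
    rw [h4]
    linarith
  have hΛone : Λ one 0 = 4 * N := by
    rw [hΛ]
    simp only [hone, Int.cast_zero, mul_zero, zero_mul, Real.cos_zero, mul_one]
    rw [sum_const, card_univ, nsmul_eq_mul, hN]
    ring
  -- the weighted sum over all words
  set W := Fin k → ι × Bool × Bool
  set sw : W → ℝ := fun w => ∏ i, (if (w i).2.1 then sg (w i).1 else 1) with hsw
  set aw : W → ℝ := fun w => ∑ i, Walk_ang a (w i) with haw
  have hone1 : ∀ w : W, ∏ i, (if (w i).2.1 then one (w i).1 else 1) = 1 := by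
    intro w
    refine prod_eq_one fun i _ => ?_
    split_ifs <;> rfl
  have hS0 : ∀ μ : ℤ, ∑ w : W, Real.cos (2 * (μ : ℝ) * aw w) = Λ one μ ^ k := by
    intro μ
    have h := Walk_char a one k μ
    rw [← h]
    refine sum_congr rfl fun w _ => ?_
    rw [hone1, one_mul]
  have hS1 : ∀ μ : ℤ, ∑ w : W, sw w * Real.cos (2 * (μ : ℝ) * aw w) = Λ sg μ ^ k := by
    intro μ
    exact Walk_char a sg k μ
  have hF0 : ∑ w : W, Walk_F K (aw w) =
      ∑ i ∈ range K, ∑ j ∈ range K, Λ one ((i : ℤ) - (j : ℤ)) ^ k := by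
    simp only [Walk_F]
    rw [sum_comm]
    refine sum_congr rfl fun i _ => ?_
    rw [sum_comm]
    refine sum_congr rfl fun j _ => ?_
    exact hS0 _
  have hF1 : ∑ w : W, sw w * Walk_F K (aw w) =
      ∑ i ∈ range K, ∑ j ∈ range K, Λ sg ((i : ℤ) - (j : ℤ)) ^ k := by
    simp only [Walk_F, mul_sum]
    rw [sum_comm]
    refine sum_congr rfl fun i _ => ?_
    rw [sum_comm]
    refine sum_congr rfl fun j _ => ?_
    exact hS1 _
  have hlow : (K : ℝ) * (4 * N) ^ k ≤ ∑ w : W, Walk_F K (aw w) := by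
    rw [hF0]
    have : ∀ i ∈ range K, (4 * N) ^ k ≤ ∑ j ∈ range K, Λ one ((i : ℤ) - (j : ℤ)) ^ k := by
      intro i hi
      refine le_trans (le_of_eq ?_)
        (single_le_sum (fun j _ => pow_nonneg (hΛ0 one hone' _) k) hi)
      rw [sub_self, hΛone]
    calc (K : ℝ) * (4 * N) ^ k = ∑ i ∈ range K, (4 * N) ^ k := by
          rw [sum_const, card_range, nsmul_eq_mul]
      _ ≤ _ := sum_le_sum this
  have hup : ∑ w : W, sw w * Walk_F K (aw w) ≤ (K : ℝ) * (K * ((4 * N) ^ k * ρ ^ k)) := by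
    rw [hF1]
    have : ∀ i ∈ range K, ∀ j ∈ range K, Λ sg ((i : ℤ) - (j : ℤ)) ^ k ≤ (4 * N) ^ k * ρ ^ k := by
      intro i hi j hj
      rw [← mul_pow]
      refine pow_le_pow_left₀ (hΛ0 sg hsg' _) (hΛ1 sg hsg' _ ?_) k
      refine h1 _ ?_
      rw [mem_range] at hi hj
      rw [abs_lt]
      constructor <;> omega
    calc _ ≤ ∑ i ∈ range K, ∑ j ∈ range K, (4 * N) ^ k * ρ ^ k :=
          sum_le_sum fun i hi => sum_le_sum fun j hj => this i hi j hj
      _ = (K : ℝ) * (K * ((4 * N) ^ k * ρ ^ k)) := by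
          rw [sum_const, sum_const, card_range, nsmul_eq_mul, nsmul_eq_mul]
  have hW0 : ∑ w : W, (1 : ℝ) = (4 * N) ^ k := by
    have := hS0 0
    rw [hΛone] at this
    rw [← this]
    refine sum_congr rfl fun w _ => ?_
    simp
  have hW1 : 0 ≤ ∑ w : W, sw w := by
    have := hS1 0
    have h2 : ∑ w : W, sw w = Λ sg 0 ^ k := by
      rw [← this]
      refine sum_congr rfl fun w _ => ?_
      simp
    rw [h2]
    exact pow_nonneg (hΛ0 sg hsg' _) k
  have hpos : 0 < ∑ w : W, (1 - sw w) * (2 * Walk_F K (aw w) - K) := by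
    have h2 : ∑ w : W, (1 - sw w) * (2 * Walk_F K (aw w) - K) =
        2 * ∑ w : W, Walk_F K (aw w) - 2 * ∑ w : W, sw w * Walk_F K (aw w)
          - K * ∑ w : W, (1 : ℝ) + K * ∑ w : W, sw w := by
      rw [mul_sum, mul_sum, mul_sum, mul_sum, ← sum_sub_distrib, ← sum_sub_distrib,
        ← sum_add_distrib]
      refine sum_congr rfl fun w _ => ?_
      ring
    rw [h2, hW0]
    have hP : 0 < (4 * N) ^ k := by positivity
    have h3 : 0 ≤ ρ ^ k := pow_nonneg hρ0 k
    have h4 : 2 * (K : ℝ) * ρ ^ k < 1 := by nlinarith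
    have h5 : 0 < (K : ℝ) * (4 * N) ^ k * (1 - 2 * K * ρ ^ k) := by
      have : 0 < 1 - 2 * (K : ℝ) * ρ ^ k := by linarith
      positivity
    have h6 : 0 ≤ (K : ℝ) * ∑ w : W, sw w := mul_nonneg hK0.le hW1
    nlinarith
  obtain ⟨w, -, hw⟩ := exists_lt_of_sum_lt (f := fun _ : W => (0 : ℝ)) (by simpa using hpos)
  -- the word `w`
  have hswZ : sw w = ((∏ i, Walk_sgn σ (w i) : ℤ) : ℝ) := by
    rw [hsw]
    push_cast
    refine prod_congr rfl fun i _ => ?_
    rw [Walk_sgn]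
    split_ifs <;> simp [hsg]
  have hsgZ : (∏ i, Walk_sgn σ (w i) : ℤ) = 1 ∨ (∏ i, Walk_sgn σ (w i) : ℤ) = -1 := by
    have : IsUnit (∏ i, Walk_sgn σ (w i) : ℤ) := by
      rw [IsUnit.prod_univ_iff]
      intro i
      rw [Walk_sgn, Int.isUnit_iff]
      split_ifs
      · exact hσ _
      · exact Or.inl rfl
    exact Int.isUnit_iff.1 this
  have hsm : (∏ i, Walk_sgn σ (w i) : ℤ) = -1 := by
    rcases hsgZ with h | h
    · rw [hswZ, h] at hw
      simp at hw
    · exact h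
  have hFw : (K : ℝ) < 2 * Walk_F K (aw w) := by
    rw [hswZ, hsm] at hw
    push_cast at hw
    linarith
  obtain ⟨l, hl⟩ := Walk_dist K hK (aw w) hFw
  -- remove the inactive letters
  set op : ι × Bool × Bool → Option (ι × Bool) := fun x => if x.2.1 then some (x.1, x.2.2) else none
    with hop
  have hlist : ∀ M : List (ι × Bool × Bool),
      (((M.filterMap op).map (fun x => σ x.1)).prod = (M.map (Walk_sgn σ)).prod) ∧
      (((M.filterMap op).map (fun x => if x.2 then a x.1 else - a x.1)).sum =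
        (M.map (Walk_ang a)).sum) := by
    intro M
    induction M with
    | nil => simp
    | cons x M ih =>
      rcases x with ⟨s, c, d⟩
      cases c
      · have : op (s, false, d) = none := by simp [hop]
        rw [List.filterMap_cons_none this]
        refine ⟨?_, ?_⟩
        · rw [ih.1, List.map_cons, List.prod_cons]
          simp [Walk_sgn]
        · rw [ih.2, List.map_cons, List.sum_cons]
          simp [Walk_ang]
      · have : op (s, true, d) = some (s, d) := by simp [hop]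
        rw [List.filterMap_cons_some this]
        refine ⟨?_, ?_⟩
        · rw [List.map_cons, List.prod_cons, ih.1, List.map_cons, List.prod_cons]
          simp [Walk_sgn]
        · rw [List.map_cons, List.sum_cons, ih.2, List.map_cons, List.sum_cons]
          simp [Walk_ang]
  refine ⟨(List.ofFn w).filterMap op, ?_, ?_, l, ?_⟩
  · refine (List.length_filterMap_le _ _).trans ?_
    rw [List.length_ofFn]
  · rw [(hlist _).1, List.map_ofFn, List.prod_ofFn]
    exact hsm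
  · rw [(hlist _).2, List.map_ofFn, List.sum_ofFn]
    exact hl

end Pool.Agent.H61.Rot
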