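import Pool.Agent.H41.Eis.Chain
import Pool.Agent.H61.Rot.Phase
import Pool.Agent.H61.Rot.Walk

/-!
Small rotations of polylogarithmic cost with value `-1`.
-/

set_option autoImplicit false

namespace Pool.Agent.H61.Rot

open Finset Pool.Agent.H41.Eis Pool.Agent.H73.Cub

/-- The letters. -/
def SmallLog_el (N : ℕ) (z0 : ℤ × ℤ) : Option (Fin N) → ℤ × ℤ
  | none => z0
  | some n => ((n : ℕ), 1)

lemma SmallLog_toC (n : ℕ) : toC ((n : ℤ), 1) = (((n + 1 : ℕ) : ℝ) : ℂ) + om := by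
  apply Complex.ext
  · rw [toC_re]; simp [om]; ring
  · rw [toC_im]; simp [om]

lemma SmallLog_ang (n : ℕ) : ang ((n : ℤ), 1) = th ((n + 1 : ℕ) : ℝ) := by
  unfold ang th
  rw [SmallLog_toC]

lemma SmallLog_ang_econj (z : ℤ × ℤ) : ∃ l : ℤ, ang (econj z) = - ang z + l * Real.pi := by
  unfold ang
  rw [toC_econj, Complex.arg_conj]
  split_ifs with h
  · refine ⟨2, ?_⟩
    rw [h]; push_cast; ring
  · exact ⟨0, by simp⟩

/-- `cos (2 π x) ≤ 1 - 8 d²` if `x` has distance at least `d` from the integers. -/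
lemma SmallLog_cos (x d : ℝ) (hd : 0 ≤ d) (h : ∀ m : ℤ, d ≤ |x - m|) :
    Real.cos (2 * Real.pi * x) ≤ 1 - 8 * d ^ 2 := by
  set y := x - round x with hy
  have hy1 : |y| ≤ 1 / 2 := abs_sub_round x
  have hy2 : d ≤ |y| := h _
  have hcos : Real.cos (2 * Real.pi * x) = Real.cos (2 * (Real.pi * y)) := by
    have : 2 * Real.pi * x = 2 * (Real.pi * y) + (round x : ℤ) * (2 * Real.pi) := by
      rw [hy]; ring
    rw [this, Real.cos_add_int_mul_two_pi]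
  rw [hcos, Real.cos_two_mul, Real.cos_sq']
  have hpi := Real.pi_pos
  have hsin : 2 * |y| ≤ |Real.sin (Real.pi * y)| := by
    have h1 : Real.sin (Real.pi * |y|) ≥ 2 / Real.pi * (Real.pi * |y|) := by
      apply Real.mul_le_sin
      · positivity
      · nlinarith
    have h2 : 2 / Real.pi * (Real.pi * |y|) = 2 * |y| := by field_simp
    rw [h2] at h1
    have h3 : Real.sin (Real.pi * |y|) ≤ |Real.sin (Real.pi * y)| := by
      rcases abs_cases y with ⟨h, _⟩ | ⟨h, _⟩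
      · rw [h]; exact le_abs_self _
      · rw [h, mul_neg, Real.sin_neg]; exact neg_le_abs _
    linarith
  have h4 : (2 * d) ^ 2 ≤ (Real.sin (Real.pi * y)) ^ 2 := by
    rw [← sq_abs (Real.sin (Real.pi * y))]
    apply pow_le_pow_left₀ (by positivity)
    linarith
  nlinarith

lemma SmallLog_sumAng {ι : Type} (el : ι → ℤ × ℤ) (L : List (ι × Bool)) :
    ∃ l : ℤ, sumAng (L.map (fun x => if x.2 then el x.1 else econj (el x.1))) =
      (L.map (fun x => if x.2 then ang (el x.1) else - ang (el x.1))).sum + l * Real.pi := by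
  induction L with
  | nil => exact ⟨0, by simp [sumAng]⟩
  | cons x L ih =>
    obtain ⟨l1, hl1⟩ := ih
    obtain ⟨l2, hl2⟩ := SmallLog_ang_econj (el x.1)
    simp only [sumAng, List.map_cons, List.sum_cons] at hl1 ⊢
    rw [hl1]
    by_cases hx : x.2 = true
    · refine ⟨l1, ?_⟩
      rw [if_pos hx, if_pos hx]
      ring
    · refine ⟨l1 + l2, ?_⟩
      rw [if_neg hx, if_neg hx, hl2]
      push_cast; ring

lemma SmallLog_prodH {ι : Type} (h : ℤ × ℤ → ℤ) (hc : IsChar h) (el : ι → ℤ × ℤ)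
    (hel : ∀ s, el s ≠ 0) (L : List (ι × Bool)) :
    prodH h (L.map (fun x => if x.2 then el x.1 else econj (el x.1))) =
      (L.map (fun x => h (el x.1))).prod := by
  induction L with
  | nil => simp [prodH]
  | cons x L ih =>
    simp only [prodH, List.map_cons, List.prod_cons] at ih ⊢
    rw [ih]
    by_cases hx : x.2 = true
    · rw [if_pos hx]
    · rw [if_neg hx, hc.conj _ (hel _)]

/-- The numerical condition of the walk. -/
lemma SmallLog_num (ℓ N E1 : ℕ) (hN : N = (2 * ℓ + 6) ^ E1) :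
    (2 * ((2 ^ (2 * ℓ + 4) : ℕ) : ℝ) + 1) *
      (1 - (2 * (1 / ((2 * ℓ + 6 : ℕ) : ℝ) ^ E1) ^ 2) / (2 * ((N + 1 : ℕ) : ℝ))) ^
        ((2 * ℓ + 8) * (N + 1) * (2 * ℓ + 6) ^ (2 * E1)) < 1 / 4 := by
  set B : ℝ := ((2 * ℓ + 6 : ℕ) : ℝ) with hB
  have hB1 : (1 : ℝ) ≤ B := by
    rw [hB]; exact_mod_cast (by omega : 1 ≤ 2 * ℓ + 6)
  have hBp : (0 : ℝ) < B := by linarith
  set M : ℝ := ((N + 1 : ℕ) : ℝ) with hM
  have hM1 : (1 : ℝ) ≤ M := by
    rw [hM]; exact_mod_cast (by omega : 1 ≤ N + 1)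
  set x : ℝ := (2 * (1 / B ^ E1) ^ 2) / (2 * M) with hx
  have hx' : x = 1 / (B ^ (2 * E1) * M) := by
    rw [hx, pow_mul']
    field_simp
  have hx0 : 0 ≤ x := by rw [hx']; positivity
  have hx1 : x ≤ 1 := by
    rw [hx', div_le_one (by positivity)]
    have : (1 : ℝ) ≤ B ^ (2 * E1) := one_le_pow₀ hB1
    nlinarith
  set k : ℕ := (2 * ℓ + 8) * (N + 1) * (2 * ℓ + 6) ^ (2 * E1) with hk
  have hxk : x * k = 2 * ℓ + 8 := by
    rw [hx', hk]
    push_cast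
    have e1 : (2 * (ℓ : ℝ) + 6) = B := by rw [hB]; push_cast; ring
    have e2 : ((N : ℝ) + 1) = M := by rw [hM]; push_cast; ring
    rw [e1, e2]
    field_simp
  have h1 : (1 - x) ^ k ≤ Real.exp (-(2 * (ℓ : ℝ) + 8)) := by
    have h2 : 1 - x ≤ Real.exp (-x) := by
      have := Real.add_one_le_exp (-x)
      linarith
    calc (1 - x) ^ k ≤ (Real.exp (-x)) ^ k := pow_le_pow_left₀ (by linarith) h2 k
      _ = Real.exp (-(2 * (ℓ : ℝ) + 8)) := by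
        rw [← Real.exp_nat_mul]
        congr 1
        rw [← hxk]; ring
  have h2 : Real.exp (-(2 * (ℓ : ℝ) + 8)) < 1 / 2 ^ (2 * ℓ + 8) := by
    rw [Real.exp_neg, ← one_div]
    apply one_div_lt_one_div_of_lt (by positivity)
    have h3 : (2 : ℝ) < Real.exp 1 := by
      have := Real.exp_one_gt_d9
      linarith
    have h4 : Real.exp (2 * (ℓ : ℝ) + 8) = (Real.exp 1) ^ (2 * ℓ + 8) := by
      rw [← Real.exp_nat_mul]
      congr 1
      push_cast; ring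
    rw [h4]
    exact pow_lt_pow_left₀ h3 (by norm_num) (by omega)
  have h5 : (0 : ℝ) < 2 * ((2 ^ (2 * ℓ + 4) : ℕ) : ℝ) + 1 := by positivity
  calc (2 * ((2 ^ (2 * ℓ + 4) : ℕ) : ℝ) + 1) * (1 - x) ^ k
      < (2 * ((2 ^ (2 * ℓ + 4) : ℕ) : ℝ) + 1) * (1 / 2 ^ (2 * ℓ + 8)) :=
        mul_lt_mul_of_pos_left (h1.trans_lt h2) h5
    _ ≤ 1 / 4 := by
        rw [mul_one_div, div_le_div_iff₀ (by positivity) (by norm_num)]
        push_cast
        have h6 : (2 : ℝ) ^ (2 * ℓ + 8) = 16 * 2 ^ (2 * ℓ + 4) := by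
          rw [show 2 * ℓ + 8 = (2 * ℓ + 4) + 4 by ring, pow_add]; norm_num; ring
        have h7 : (1 : ℝ) ≤ 2 ^ (2 * ℓ + 4) := one_le_pow₀ (by norm_num)
        rw [h6]
        linarith

lemma SmallLog_bounds (ℓ E1 : ℕ) (hl : 1 ≤ ℓ) :
    (((2 * ℓ + 8) * ((2 * ℓ + 6) ^ E1 + 1) * (2 * ℓ + 6) ^ (2 * E1) : ℕ) : ℝ) + 1 ≤
      ((ℓ : ℝ) + 1) ^ (9 * E1 + 6) ∧
    (((2 * ℓ + 6) ^ E1 : ℕ) : ℝ) ≤ ((ℓ : ℝ) + 1) ^ (9 * E1 + 6) := by
  have hB : 2 * ℓ + 6 ≤ (ℓ + 1) ^ 3 := by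
    have h1 : 2 ≤ ℓ + 1 := by omega
    have h2 : 4 ≤ (ℓ + 1) ^ 2 := by nlinarith
    calc 2 * ℓ + 6 ≤ 4 * (ℓ + 1) := by omega
      _ ≤ (ℓ + 1) ^ 2 * (ℓ + 1) := Nat.mul_le_mul_right _ h2
      _ = (ℓ + 1) ^ 3 := by ring
  have h8 : 8 ≤ (ℓ + 1) ^ 3 := by
    have h1 : 2 ≤ ℓ + 1 := by omega
    calc 8 = 2 ^ 3 := by norm_num
      _ ≤ (ℓ + 1) ^ 3 := Nat.pow_le_pow_left h1 3
  have hBE : ∀ j : ℕ, (2 * ℓ + 6) ^ j ≤ (ℓ + 1) ^ (3 * j) := fun j => by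
    rw [pow_mul]; exact Nat.pow_le_pow_left hB j
  constructor
  · have key : (2 * ℓ + 8) * ((2 * ℓ + 6) ^ E1 + 1) * (2 * ℓ + 6) ^ (2 * E1) + 1 ≤
        (ℓ + 1) ^ (9 * E1 + 6) := by
      have h1 : 1 ≤ (2 * ℓ + 6) ^ E1 := Nat.one_le_pow _ _ (by omega)
      have h2 : 1 ≤ (2 * ℓ + 6) ^ (2 * E1) := Nat.one_le_pow _ _ (by omega)
      calc (2 * ℓ + 8) * ((2 * ℓ + 6) ^ E1 + 1) * (2 * ℓ + 6) ^ (2 * E1) + 1
          ≤ (2 * (2 * ℓ + 6)) * (2 * (2 * ℓ + 6) ^ E1) * (2 * ℓ + 6) ^ (2 * E1) +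
            (2 * ℓ + 6) * (2 * ℓ + 6) ^ E1 * (2 * ℓ + 6) ^ (2 * E1) := by
              apply Nat.add_le_add
              · apply Nat.mul_le_mul_right
                apply Nat.mul_le_mul <;> omega
              · have h3 : 1 ≤ 2 * ℓ + 6 := by omega
                exact Nat.one_le_iff_ne_zero.2 (by positivity)
        _ = 5 * ((2 * ℓ + 6) ^ (3 * E1 + 1)) := by
              rw [show 3 * E1 + 1 = 1 + E1 + 2 * E1 by ring, pow_add, pow_add]; ring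
        _ ≤ (ℓ + 1) ^ 3 * (ℓ + 1) ^ (3 * (3 * E1 + 1)) :=
              Nat.mul_le_mul (by omega) (hBE _)
        _ = (ℓ + 1) ^ (9 * E1 + 6) := by rw [← pow_add]; congr 1; ring
    have := (Nat.cast_le (α := ℝ)).2 key
    push_cast at this ⊢
    linarith
  · have key : (2 * ℓ + 6) ^ E1 ≤ (ℓ + 1) ^ (9 * E1 + 6) :=
      (hBE E1).trans (Nat.pow_le_pow_right (by omega) (by omega))
    have := (Nat.cast_le (α := ℝ)).2 key
    push_cast at this ⊢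
    linarith

theorem small_list_log : ∃ E : ℕ, 1 ≤ E ∧ ∀ ℓ : ℕ, 1 ≤ ℓ → ∀ h : ℤ × ℤ → ℤ, IsChar h →
    ∀ z0 : ℤ × ℤ, z0 ≠ 0 → h z0 = -1 → ‖toC z0‖ ≤ ((ℓ : ℝ) + 1) ^ E →
    ∃ (δ : ℝ) (L : List (ℤ × ℤ)), |δ| ≤ 1 / 2 ^ ℓ ∧ (L.length : ℝ) + 1 ≤ ((ℓ : ℝ) + 1) ^ E ∧
      (∀ s ∈ L, s ≠ 0 ∧ ‖toC s‖ ≤ ((ℓ : ℝ) + 1) ^ E) ∧
      (∃ l : ℤ, sumAng L = δ + l * Real.pi) ∧ prodH h L = -1 := by
  obtain ⟨E0, hE0⟩ := phase
  set E1 := E0 + 1 with hE1
  refine ⟨9 * E1 + 6, by omega, fun ℓ hl h hc z0 hz0 hh0 hz0E => ?_⟩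
  obtain ⟨hbd1, hbd2⟩ := SmallLog_bounds ℓ E1 hl
  have hpi := Real.pi_pos
  -- parameters
  set N : ℕ := (2 * ℓ + 6) ^ E1 with hN
  set B : ℝ := ((2 * ℓ + 6 : ℕ) : ℝ) with hB
  have hB8 : (8 : ℝ) ≤ B := by
    rw [hB]; exact_mod_cast (by omega : 8 ≤ 2 * ℓ + 6)
  set d : ℝ := 1 / B ^ E1 with hd
  have hdpos : 0 < d := by positivity
  have hd1 : d ≤ 1 / 8 := by
    rw [hd]
    apply one_div_le_one_div_of_le (by norm_num)
    calc (8 : ℝ) ≤ B := hB8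
      _ = B ^ 1 := (pow_one _).symm
      _ ≤ B ^ E1 := pow_le_pow_right₀ (by linarith) (by omega)
  set K : ℕ := 2 ^ (2 * ℓ + 4) with hK
  -- the phase lemma in the form needed
  have hphase : ∀ μ : ℤ, μ ≠ 0 → |μ| ≤ 2 ^ (2 * ℓ + 5) → ∃ n : Fin N,
      ∀ m : ℤ, d ≤ |(μ : ℝ) * th (((n : ℕ) + 1 : ℕ) : ℝ) / Real.pi - m| := by
    intro μ hμ hμ2
    obtain ⟨n, hn1, hn2, hn3⟩ := hE0 (2 * ℓ + 5) (by omega) μ hμ hμ2
    have hle : n ≤ N := by
      refine hn2.trans ?_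
      rw [hN, show 2 * ℓ + 5 + 1 = 2 * ℓ + 6 by ring]
      exact Nat.pow_le_pow_right (by omega) (by omega)
    refine ⟨⟨n - 1, by omega⟩, fun m => ?_⟩
    have hnn : n - 1 + 1 = n := by omega
    simp only [hnn]
    refine le_trans ?_ (hn3 m)
    rw [hd]
    apply one_div_le_one_div_of_le (by positivity)
    have : (((2 * ℓ + 5 : ℕ) : ℝ) + 1) = B := by rw [hB]; push_cast; ring
    rw [this]
    exact pow_le_pow_right₀ (by linarith) (by omega)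
  have hcosph : ∀ μ : ℤ, μ ≠ 0 → |μ| ≤ 2 ^ (2 * ℓ + 5) → ∃ n : Fin N,
      Real.cos (2 * μ * ang (((n : ℕ) : ℤ), 1)) ≤ 1 - 8 * d ^ 2 := by
    intro μ hμ hμ2
    obtain ⟨n, hn⟩ := hphase μ hμ hμ2
    refine ⟨n, ?_⟩
    have h1 := SmallLog_cos _ d hdpos.le hn
    rw [SmallLog_ang]
    have h2 : 2 * Real.pi * ((μ : ℝ) * th (((n : ℕ) + 1 : ℕ) : ℝ) / Real.pi) =
        2 * μ * th (((n : ℕ) + 1 : ℕ) : ℝ) := by
      field_simp
    rw [h2] at h1
    exact h1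
  set el : Option (Fin N) → ℤ × ℤ := SmallLog_el N z0 with hel
  have hel0 : ∀ s, el s ≠ 0 := by
    intro s
    cases s with
    | none => exact hz0
    | some n =>
      intro h0
      have := congrArg Prod.snd h0
      simp [hel, SmallLog_el] at this
  have helb : ∀ s, ‖toC (el s)‖ ≤ ((ℓ : ℝ) + 1) ^ (9 * E1 + 6) := by
    intro s
    cases s with
    | none => exact hz0E
    | some n =>
      have e1 : el (some n) = (((n : ℕ) : ℤ), 1) := rfl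
      rw [e1, SmallLog_toC]
      have hx : (1 : ℝ) ≤ (((n : ℕ) + 1 : ℕ) : ℝ) := by
        exact_mod_cast (by omega : 1 ≤ (n : ℕ) + 1)
      refine (norm_add_om_le hx).trans ?_
      refine le_trans ?_ hbd2
      exact_mod_cast n.2
  set η : ℝ := 2 * d ^ 2 with hη
  have hη0 : 0 < η := by positivity
  have hη1 : η ≤ 1 := by
    rw [hη]
    nlinarith
  have hσ : ∀ s, h (el s) = 1 ∨ h (el s) = -1 := fun s => hc.val _ (hel0 s)
  have hKpos : 1 ≤ K := Nat.one_le_pow _ _ (by norm_num)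
  have hμK : ∀ μ : ℤ, |μ| < (K : ℤ) → |μ| ≤ 2 ^ (2 * ℓ + 5) ∧ |2 * μ| ≤ 2 ^ (2 * ℓ + 5) := by
    intro μ hμ
    have e1 : ((K : ℕ) : ℤ) = 2 ^ (2 * ℓ + 4) := by rw [hK]; push_cast; rfl
    rw [e1] at hμ
    have e2 : (2 : ℤ) ^ (2 * ℓ + 5) = 2 * 2 ^ (2 * ℓ + 4) := by
      rw [show 2 * ℓ + 5 = (2 * ℓ + 4) + 1 by ring, pow_succ]; ring
    have e3 : (0 : ℤ) < 2 ^ (2 * ℓ + 4) := by positivity
    rw [e2, abs_mul]
    constructor
    · linarith
    · have : |(2 : ℤ)| = 2 := rfl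
      rw [this]; linarith
  have h0 : ∀ μ : ℤ, μ ≠ 0 → |μ| < K → ∃ s, Real.cos (2 * μ * ang (el s)) ≤ 1 - η := by
    intro μ hμ hμK'
    obtain ⟨n, hn⟩ := hcosph μ hμ (hμK μ hμK').1
    refine ⟨some n, ?_⟩
    have e1 : el (some n) = (((n : ℕ) : ℤ), 1) := rfl
    rw [e1]
    refine hn.trans ?_
    rw [hη]
    nlinarith [sq_nonneg d]
  have h1 : ∀ μ : ℤ, |μ| < K → ∃ s, ((h (el s) : ℤ) : ℝ) * Real.cos (2 * μ * ang (el s)) ≤ 1 - η := by
    intro μ hμK'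
    by_cases hμ : μ = 0
    · refine ⟨none, ?_⟩
      have e1 : el none = z0 := rfl
      rw [e1, hh0, hμ]
      simp
      linarith
    · by_contra hcon
      push Not at hcon
      have h2μ : (2 * μ) ≠ 0 := by simpa using hμ
      obtain ⟨n, hn⟩ := hcosph (2 * μ) h2μ (hμK μ hμK').2
      have h3 := hcon (some n)
      have e1 : el (some n) = (((n : ℕ) : ℤ), 1) := rfl
      rw [e1] at h3
      set c := Real.cos (2 * μ * ang (((n : ℕ) : ℤ), 1)) with hcdef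
      have h4 : Real.cos (2 * ((2 * μ : ℤ) : ℝ) * ang (((n : ℕ) : ℤ), 1)) = 2 * c ^ 2 - 1 := by
        rw [hcdef, ← Real.cos_two_mul]
        congr 1
        push_cast; ring
      rw [h4] at hn
      have h5 : (1 - η) ^ 2 < c ^ 2 := by
        have h6 : (1 - η) ^ 2 < (((h (((n : ℕ) : ℤ), 1) : ℤ) : ℝ) * c) ^ 2 := by
          apply pow_lt_pow_left₀ h3 (by linarith) (by norm_num)
        rw [mul_pow] at h6
        have h7 : ((h (((n : ℕ) : ℤ), 1) : ℤ) : ℝ) ^ 2 = 1 := by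
          rcases hσ (some n) with h8 | h8
          · rw [e1] at h8; rw [h8]; norm_num
          · rw [e1] at h8; rw [h8]; norm_num
        rw [h7, one_mul] at h6
        exact h6
      have h9 : 8 * d ^ 2 = 4 * η := by rw [hη]; ring
      rw [h9] at hn
      nlinarith [sq_nonneg η]
  have hcard : Fintype.card (Option (Fin N)) = N + 1 := by simp
  have hk := SmallLog_num ℓ N E1 hN
  obtain ⟨L, hL1, hL2, l, hL3⟩ := walk (fun s => ang (el s)) (fun s => h (el s)) hσ K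
    ((2 * ℓ + 8) * (N + 1) * (2 * ℓ + 6) ^ (2 * E1)) hKpos η hη0 hη1 h0 h1 (by
      rw [hcard]
      exact hk)
  obtain ⟨l', hl'⟩ := SmallLog_sumAng el L
  refine ⟨(L.map (fun x => if x.2 then ang (el x.1) else - ang (el x.1))).sum - l * Real.pi,
    L.map (fun x => if x.2 then el x.1 else econj (el x.1)), ?_, ?_, ?_, ?_, ?_⟩
  · refine hL3.trans ?_
    have e1 : Real.sqrt (K : ℝ) = 4 * 2 ^ ℓ := by
      have e2 : ((K : ℕ) : ℝ) = (4 * 2 ^ ℓ) ^ 2 := by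
        rw [hK]; push_cast
        rw [mul_pow, ← pow_mul, show 2 * ℓ + 4 = ℓ * 2 + 4 by ring, pow_add]
        ring
      rw [e2, Real.sqrt_sq (by positivity)]
    rw [e1, div_le_div_iff₀ (by positivity) (by positivity)]
    have : (0 : ℝ) < 2 ^ ℓ := by positivity
    linarith
  · rw [List.length_map]
    refine le_trans ?_ hbd1
    have := (Nat.cast_le (α := ℝ)).2 hL1
    linarith
  · intro s hs
    obtain ⟨x, _, rfl⟩ := List.mem_map.1 hs
    by_cases hx : x.2 = true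
    · rw [if_pos hx]; exact ⟨hel0 _, helb _⟩
    · rw [if_neg hx]
      refine ⟨econj_ne_zero (hel0 _), ?_⟩
      rw [toC_econj, Complex.norm_conj]
      exact helb _
  · refine ⟨l + l', ?_⟩
    rw [hl']
    push_cast; ring
  · rw [SmallLog_prodH h hc el hel0 L]
    exact hL2

end Pool.Agent.H61.Rot
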