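import Pool.Agent.H61.Rot.TauPow
import Pool.Agent.H61.Rot.Fk

/-!
Few values `f k` are divisible by a moderate square.
-/

set_option autoImplicit false

namespace Pool.Agent.H61.Rot

open Finset
open scoped Classical

lemma SqSmall_log {Y : ℕ} (hY : 3 ≤ Y) : 1.09 ≤ Real.log Y := by
  have hYR : (3 : ℝ) ≤ Y := by exact_mod_cast hY
  have h1 : Real.log 3 ≤ Real.log Y := Real.log_le_log (by norm_num) hYR
  have h2 : Real.log 3 = Real.log (3 / Real.exp 1) + 1 := by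
    rw [Real.log_div (by norm_num) (Real.exp_pos 1).ne', Real.log_exp]; ring
  have he := Real.exp_one_lt_d9
  have h3 : 1 - (3 / Real.exp 1)⁻¹ ≤ Real.log (3 / Real.exp 1) :=
    Real.one_sub_inv_le_log_of_pos (by positivity)
  have h4 : (3 / Real.exp 1)⁻¹ ≤ 0.91 := by
    rw [inv_div, div_le_iff₀ (by norm_num)]
    linarith
  linarith

theorem square_small : ∃ E : ℕ, ∀ Y z D : ℕ, 3 ≤ Y → 1 ≤ z → D ≤ Y →
    (((range (Y + 1)).filter (fun k => ∃ d, z < d ∧ d ≤ D ∧ d ^ 2 ∣ f k)).card : ℝ) ≤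
      (Real.log Y) ^ E * ((Y : ℝ) / z + D) := by
  refine ⟨64, ?_⟩
  intro Y z D hY hz hD
  have hL := SqSmall_log hY
  set L := Real.log Y with hLdef
  have hzR : (1 : ℝ) ≤ z := by exact_mod_cast hz
  have hYR : (3 : ℝ) ≤ Y := by exact_mod_cast hY
  -- union bound
  have hsub : (range (Y + 1)).filter (fun k => ∃ d, z < d ∧ d ≤ D ∧ d ^ 2 ∣ f k) ⊆
      (Ioc z D).biUnion (fun d => (range (Y + 1)).filter (fun k => d ^ 2 ∣ f k)) := by
    intro k hk
    rw [mem_filter] at hk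
    obtain ⟨hkY, d, h1, h2, h3⟩ := hk
    rw [mem_biUnion]
    exact ⟨d, mem_Ioc.mpr ⟨h1, h2⟩, mem_filter.mpr ⟨hkY, h3⟩⟩
  have h1 : (((range (Y + 1)).filter (fun k => ∃ d, z < d ∧ d ≤ D ∧ d ^ 2 ∣ f k)).card : ℝ) ≤
      ∑ d ∈ Ioc z D, (((range (Y + 1)).filter (fun k => d ^ 2 ∣ f k)).card : ℝ) := by
    exact_mod_cast (card_le_card hsub).trans card_biUnion_le
  refine h1.trans ?_
  -- one `d`
  have h2 : ∀ d ∈ Ioc z D, (((range (Y + 1)).filter (fun k => d ^ 2 ∣ f k)).card : ℝ) ≤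
      ((d.divisors.card : ℝ) ^ 2 / d) * ((Y : ℝ) / z + 2 * D) := by
    intro d hd
    rw [mem_Ioc] at hd
    have hd1 : 1 ≤ d := by omega
    have hdR : (1 : ℝ) ≤ d := by exact_mod_cast hd1
    have hzd : (z : ℝ) ≤ d := by exact_mod_cast hd.1.le
    have hdD : (d : ℝ) ≤ D := by exact_mod_cast hd.2
    have h3 := roots_le (d ^ 2) (Nat.one_le_pow _ _ hd1) Y
    refine h3.trans ?_
    have h4 : ((d ^ 2).divisors.card : ℝ) ≤ (d.divisors.card : ℝ) ^ 2 := by
      have := tau_mul_le d d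
      rw [← sq, ← sq] at this
      exact_mod_cast this
    have h5 : (Y : ℝ) / ((d ^ 2 : ℕ) : ℝ) + 2 ≤ (1 / d) * ((Y : ℝ) / z + 2 * D) := by
      push_cast
      have h6 : (Y : ℝ) / (d : ℝ) ^ 2 ≤ 1 / d * ((Y : ℝ) / z) := by
        rw [div_mul_div_comm, one_mul, sq]
        apply div_le_div_of_nonneg_left (by linarith) (by positivity)
        exact mul_le_mul_of_nonneg_left hzd (by linarith)
      have h7 : (2 : ℝ) ≤ 1 / d * (2 * D) := by
        rw [one_div, ← div_eq_inv_mul, le_div_iff₀ (by linarith)]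
        linarith
      rw [mul_add]
      linarith
    calc ((d ^ 2).divisors.card : ℝ) * ((Y : ℝ) / ((d ^ 2 : ℕ) : ℝ) + 2)
        ≤ (d.divisors.card : ℝ) ^ 2 * ((1 / d) * ((Y : ℝ) / z + 2 * D)) :=
          mul_le_mul h4 h5 (by positivity) (by positivity)
      _ = _ := by ring
  refine (sum_le_sum h2).trans ?_
  rw [← sum_mul]
  have h3 : ∑ d ∈ Ioc z D, (d.divisors.card : ℝ) ^ 2 / d ≤ (1 + L) ^ 4 := by
    have h4 := sum_tau_pow 2 Y
    norm_num at h4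
    refine le_trans ?_ h4
    apply sum_le_sum_of_subset_of_nonneg
    · intro d hd
      rw [mem_Ioc] at hd
      rw [mem_Icc]
      omega
    · intro d _ _
      positivity
  have h5 : (1 + L) ^ 4 * ((Y : ℝ) / z + 2 * D) ≤ L ^ 64 * ((Y : ℝ) / z + D) := by
    have h6 : (1 + L) ^ 4 * 2 ≤ L ^ 64 := by
      have h7 : (1 + L) ^ 4 ≤ (2 * L) ^ 4 := pow_le_pow_left₀ (by linarith) (by linarith) 4
      have h8 : (1.09 : ℝ) ^ 60 ≤ L ^ 60 := pow_le_pow_left₀ (by norm_num) hL 60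
      have h9 : (32 : ℝ) ≤ (1.09 : ℝ) ^ 60 := by norm_num
      have h10 : 0 ≤ L ^ 4 := by positivity
      calc (1 + L) ^ 4 * 2 ≤ (2 * L) ^ 4 * 2 := by linarith
        _ = L ^ 4 * 32 := by ring
        _ ≤ L ^ 4 * L ^ 60 := mul_le_mul_of_nonneg_left (h9.trans h8) h10
        _ = L ^ 64 := by ring
    have h7 : (Y : ℝ) / z + 2 * D ≤ 2 * ((Y : ℝ) / z + D) := by
      have : 0 ≤ (Y : ℝ) / z := by positivity
      linarith
    calc (1 + L) ^ 4 * ((Y : ℝ) / z + 2 * D) ≤ (1 + L) ^ 4 * (2 * ((Y : ℝ) / z + D)) :=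
          mul_le_mul_of_nonneg_left h7 (by positivity)
      _ = ((1 + L) ^ 4 * 2) * ((Y : ℝ) / z + D) := by ring
      _ ≤ _ := mul_le_mul_of_nonneg_right h6 (by positivity)
  exact (mul_le_mul_of_nonneg_right h3 (by positivity)).trans h5

end Pool.Agent.H61.Rot
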