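import Pool.Agent.H61.Rot.TauSub

/-!
Moments of the divisor function.
-/

set_option autoImplicit false

namespace Pool.Agent.H61.Rot

open Finset

/-- `S_{j+1} ≤ S_j²` by submultiplicativity. -/
theorem sum_tau_pow (j x : ℕ) : ∑ d ∈ Icc 1 x, (d.divisors.card : ℝ) ^ j / d ≤
    (1 + Real.log x) ^ (2 ^ j) := by
  induction j with
  | zero =>
    have h := harmonic_le_one_add_log x
    rw [harmonic_eq_sum_Icc] at h
    push_cast at h
    simpa using h
  | succ j ih =>
    have h0 : 0 ≤ ∑ d ∈ Icc 1 x, (d.divisors.card : ℝ) ^ j / d :=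
      Finset.sum_nonneg (fun d _ => by positivity)
    have hsq : (∑ d ∈ Icc 1 x, (d.divisors.card : ℝ) ^ j / d) ^ 2 ≤
        ((1 + Real.log x) ^ (2 ^ j)) ^ 2 := pow_le_pow_left₀ h0 ih 2
    have hexp : ((1 + Real.log x) ^ (2 ^ j)) ^ 2 = (1 + Real.log x) ^ (2 ^ (j + 1)) := by
      rw [← pow_mul, pow_succ]
    rw [← hexp]
    refine le_trans ?_ hsq
    rw [pow_two, Finset.sum_mul_sum, ← Finset.sum_product']
    set s := ((Icc 1 x) ×ˢ (Icc 1 x)).filter (fun p : ℕ × ℕ => p.1 * p.2 ≤ x) with hs
    have hmaps : ∀ p ∈ s, p.1 * p.2 ∈ Icc 1 x := by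
      intro p hp
      rw [hs, mem_filter, mem_product, mem_Icc, mem_Icc] at hp
      rw [mem_Icc]
      exact ⟨Nat.mul_pos hp.1.1.1 hp.1.2.1, hp.2⟩
    calc ∑ d ∈ Icc 1 x, (d.divisors.card : ℝ) ^ (j + 1) / d
        = ∑ d ∈ Icc 1 x, ∑ p ∈ s.filter (fun p : ℕ × ℕ => p.1 * p.2 = d),
            ((p.1 * p.2).divisors.card : ℝ) ^ j / ((p.1 * p.2 : ℕ) : ℝ) := by
          refine Finset.sum_congr rfl (fun d hd => ?_)
          rw [mem_Icc] at hd
          have hfib : s.filter (fun p : ℕ × ℕ => p.1 * p.2 = d) = d.divisorsAntidiagonal := by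
            ext p
            rw [hs, mem_filter, mem_filter, mem_product, mem_Icc, mem_Icc,
              Nat.mem_divisorsAntidiagonal]
            constructor
            · rintro ⟨_, h⟩
              exact ⟨h, by omega⟩
            · rintro ⟨h, _⟩
              have h1 : 0 < p.1 := Nat.pos_of_ne_zero (fun h0 => by
                rw [h0, zero_mul] at h; omega)
              have h2 : 0 < p.2 := Nat.pos_of_ne_zero (fun h0 => by
                rw [h0, mul_zero] at h; omega)
              have h3 : p.1 ≤ p.1 * p.2 := Nat.le_mul_of_pos_right _ h2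
              have h4 : p.2 ≤ p.1 * p.2 := Nat.le_mul_of_pos_left _ h1
              exact ⟨⟨⟨⟨h1, by omega⟩, ⟨h2, by omega⟩⟩, by omega⟩, h⟩
          have hcard : d.divisorsAntidiagonal.card = d.divisors.card := by
            rw [← Nat.map_div_right_divisors, Finset.card_map]
          have hconst : ∀ p ∈ s.filter (fun p : ℕ × ℕ => p.1 * p.2 = d),
              ((p.1 * p.2).divisors.card : ℝ) ^ j / ((p.1 * p.2 : ℕ) : ℝ)
                = (d.divisors.card : ℝ) ^ j / d := by
            intro p hp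
            rw [(mem_filter.1 hp).2]
          rw [Finset.sum_congr rfl hconst, Finset.sum_const, hfib, hcard, nsmul_eq_mul, pow_succ]
          ring
      _ = ∑ p ∈ s, ((p.1 * p.2).divisors.card : ℝ) ^ j / ((p.1 * p.2 : ℕ) : ℝ) :=
          Finset.sum_fiberwise_of_maps_to hmaps _
      _ ≤ ∑ p ∈ s, ((p.1.divisors.card : ℝ) ^ j / p.1) * ((p.2.divisors.card : ℝ) ^ j / p.2) := by
          refine Finset.sum_le_sum (fun p hp => ?_)
          have h1 : ((p.1 * p.2).divisors.card : ℝ) ≤ p.1.divisors.card * p.2.divisors.card := by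
            exact_mod_cast tau_mul_le p.1 p.2
          rw [div_mul_div_comm, ← mul_pow, Nat.cast_mul]
          gcongr
      _ ≤ _ := by
          refine Finset.sum_le_sum_of_subset_of_nonneg (Finset.filter_subset _ _) ?_
          intro p _ _
          positivity

end Pool.Agent.H61.Rot
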