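import Mathlib

/-!
Elementary facts on the divisor function.
-/

set_option autoImplicit false

namespace Pool.Agent.H61.Rot

open Finset

/-- Submultiplicativity. -/
theorem tau_mul_le (a b : ℕ) : (a * b).divisors.card ≤ a.divisors.card * b.divisors.card := by
  rw [Nat.divisors_mul]
  exact Finset.card_mul_le

theorem TauSub_prime (p : ℕ) (hp : p.Prime) : p.divisors.card = 2 := by
  rw [hp.divisors, Finset.card_pair hp.one_lt.ne]

/-- the induction -/
theorem TauSub_aux (n k : ℕ) (hn : 1 ≤ n) (j : ℕ) : ∀ m : ℕ, 1 ≤ m → m ^ k ≤ n ^ j → 1 ≤ k →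
    ∃ d, d ∣ m ∧ d ^ k ≤ n ∧ m.divisors.card ≤ (2 * d.divisors.card) ^ j := by
  induction j with
  | zero =>
    intro m hm h hk
    have hm1 : m = 1 := by
      rw [pow_zero] at h
      by_contra hne
      have h2 : 2 ≤ m := by omega
      have h3 : 2 ^ 1 ≤ m ^ k := (Nat.pow_le_pow_left h2 1).trans
        (Nat.pow_le_pow_right (by omega) hk)
      omega
    subst hm1
    exact ⟨1, dvd_rfl, by simpa using hn, by simp⟩
  | succ j ih =>
    intro m hm h hk
    have hne : (m.divisors.filter (fun d => d ^ k ≤ n)).Nonempty := by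
      refine ⟨1, ?_⟩
      rw [mem_filter, Nat.mem_divisors]
      exact ⟨⟨one_dvd _, by omega⟩, by simpa using hn⟩
    obtain ⟨d0, hd0, hmax⟩ := Finset.exists_max_image _ (fun d => d) hne
    rw [mem_filter, Nat.mem_divisors] at hd0
    obtain ⟨⟨hd0m, hm0⟩, hd0n⟩ := hd0
    have hd0pos : 0 < d0 := Nat.pos_of_dvd_of_pos hd0m (by omega)
    have htau0 : 1 ≤ d0.divisors.card := by
      rw [Nat.succ_le_iff, Finset.card_pos]
      exact ⟨1, by rw [Nat.mem_divisors]; exact ⟨one_dvd _, by omega⟩⟩
    by_cases hd : d0 = m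
    · subst hd
      refine ⟨d0, dvd_rfl, hd0n, ?_⟩
      calc d0.divisors.card ≤ 2 * d0.divisors.card := by omega
        _ = (2 * d0.divisors.card) ^ 1 := (pow_one _).symm
        _ ≤ (2 * d0.divisors.card) ^ (j + 1) := Nat.pow_le_pow_right (by omega) (by omega)
    · obtain ⟨q, hq⟩ := hd0m
      have hq1 : q ≠ 1 := by
        rintro rfl
        rw [mul_one] at hq
        exact hd hq.symm
      obtain ⟨p, hp, hpq⟩ := Nat.exists_prime_and_dvd hq1
      obtain ⟨m', hm'⟩ := hpq
      have hm'pos : 1 ≤ m' := by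
        rcases Nat.eq_zero_or_pos m' with h0 | h0
        · subst h0
          simp at hm'
          subst hm'
          omega
        · exact h0
      have hmeq : m = (d0 * p) * m' := by rw [hq, hm', mul_assoc]
      have hbig : n < (d0 * p) ^ k := by
        by_contra hcon
        push Not at hcon
        have h1 : d0 * p ∈ m.divisors.filter (fun d => d ^ k ≤ n) := by
          rw [mem_filter, Nat.mem_divisors]
          exact ⟨⟨⟨m', hmeq⟩, hm0⟩, hcon⟩
        have h2 := hmax _ h1
        have h3 := hp.two_le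
        have h4 : d0 * 2 ≤ d0 * p := Nat.mul_le_mul_left _ h3
        omega
      have hsmall : m' ^ k ≤ n ^ j := by
        by_contra hcon
        push Not at hcon
        have h1 : n * n ^ j < (d0 * p) ^ k * m' ^ k :=
          Nat.mul_lt_mul'' hbig hcon
        rw [← mul_pow, ← hmeq, ← pow_succ'] at h1
        omega
      obtain ⟨d1, hd1, hd1n, hd1t⟩ := ih m' hm'pos hsmall hk
      have hd1m : d1 ∣ m := hd1.trans ⟨d0 * p, by rw [hmeq]; ring⟩
      have key : m.divisors.card ≤ (2 * d0.divisors.card) * (2 * d1.divisors.card) ^ j := by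
        calc m.divisors.card = ((d0 * p) * m').divisors.card := by rw [← hmeq]
          _ ≤ (d0 * p).divisors.card * m'.divisors.card := tau_mul_le _ _
          _ ≤ (d0.divisors.card * p.divisors.card) * m'.divisors.card :=
              Nat.mul_le_mul_right _ (tau_mul_le _ _)
          _ = (2 * d0.divisors.card) * m'.divisors.card := by
              rw [TauSub_prime p hp]; ring
          _ ≤ _ := Nat.mul_le_mul_left _ hd1t
      rcases le_total d0.divisors.card d1.divisors.card with hle | hle
      · refine ⟨d1, hd1m, hd1n, key.trans ?_⟩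
        rw [pow_succ']
        exact Nat.mul_le_mul_right _ (Nat.mul_le_mul_left _ hle)
      · refine ⟨d0, ⟨q, hq⟩, hd0n, key.trans ?_⟩
        rw [pow_succ']
        exact Nat.mul_le_mul_left _ (Nat.pow_le_pow_left (Nat.mul_le_mul_left _ hle) _)

/-- Some divisor `d ≤ n^(1/k)` of `n` has `τ(n) ≤ (2 τ(d))^k`.  (Split the list of prime factors
greedily into maximal blocks with product `≤ n^(1/k)`, separated by single primes: there are at most
`k` blocks.) -/
theorem tau_sub (n k : ℕ) (hn : 1 ≤ n) (hk : 1 ≤ k) :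
    ∃ d, d ∣ n ∧ d ^ k ≤ n ∧ n.divisors.card ≤ (2 * d.divisors.card) ^ k :=
  TauSub_aux n k hn k n hn le_rfl hk

end Pool.Agent.H61.Rot
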